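import Pool.Agent.Helper94.RG2.Defs

/-!
Project RG2 (MP_16b052_ag, characteristic two): monomials, the functional, basic lemmas.
-/

namespace Helper94.RG2

open MvPolynomial Helper49.RA

universe u

/-- all entries are less than `30` -/
def Lt (L : List ℕ) : Prop := ∀ i ∈ L, i < 30

section

variable (k : Type u) [Field k]

/-- the variable of index `i` -/
noncomputable def x (i : ℕ) : MvPolynomial (Fin 30) k := X (Fin.ofNat 30 i)

/-- the monomial of a list -/
noncomputable def mono (L : List ℕ) : MvPolynomial (Fin 30) k := (L.map (x k)).prod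

/-- the quadric of a list of codes -/
noncomputable def qp (A : List ℕ) : MvPolynomial (Fin 30) k :=
  (A.map fun a => mono k [a % 32, a / 32]).sum

/-- `Φ` is the functional of the quartic form -/
structure IsF (Φ : MvPolynomial (Fin 30) k →ₗ[k] k) : Prop where
  four : ∀ L : List ℕ, L.length = 4 → Lt L → Φ (mono k L) = ((tau L : ℕ) : k)
  deg : ∀ (d : ℕ) (s : MvPolynomial (Fin 30) k), s.IsHomogeneous d → d ≠ 4 → Φ s = 0

end

/-- exponent of the monomial of a list -/
noncomputable def fs (L : List ℕ) : Fin 30 →₀ ℕ := (L.map fun i => Finsupp.single (Fin.ofNat 30 i) 1).sum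

/-! ### Lists -/

lemma Lt.cons {i : ℕ} {L : List ℕ} (hi : i < 30) (h : Lt L) : Lt (i :: L) := by
  intro j hj
  rcases List.mem_cons.1 hj with h1 | h1
  · rw [h1]; exact hi
  · exact h j h1

lemma Lt.perm {L L' : List ℕ} (h : Lt L) (hp : L.Perm L') : Lt L' := fun i hi =>
  h i (hp.mem_iff.2 hi)

lemma Lt.erase {L : List ℕ} (h : Lt L) (a : ℕ) : Lt (L.erase a) := fun i hi =>
  h i (List.mem_of_mem_erase hi)

lemma Lt.append {L L' : List ℕ} (h : Lt L) (h' : Lt L') : Lt (L ++ L') := by
  intro i hi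
  rcases List.mem_append.1 hi with h1 | h1
  · exact h i h1
  · exact h' i h1

@[simp] lemma ws_nil : ws [] = 0 := rfl
@[simp] lemma ks_nil : ks [] = 0 := rfl
@[simp] lemma ws_cons (i : ℕ) (L : List ℕ) : ws (i :: L) = w1 i + ws L := by
  unfold ws; rw [List.map_cons, List.sum_cons]
@[simp] lemma ks_cons (i : ℕ) (L : List ℕ) : ks (i :: L) = k1 i + ks L := by
  unfold ks; rw [List.map_cons, List.sum_cons]
lemma ws_append (L L' : List ℕ) : ws (L ++ L') = ws L + ws L' := by
  unfold ws; rw [List.map_append, List.sum_append]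
lemma ks_append (L L' : List ℕ) : ks (L ++ L') = ks L + ks L' := by
  unfold ks; rw [List.map_append, List.sum_append]
lemma ws_perm {L L' : List ℕ} (h : L.Perm L') : ws L = ws L' := (h.map w1).sum_eq
lemma ks_perm {L L' : List ℕ} (h : L.Perm L') : ks L = ks L' := (h.map k1).sum_eq
lemma tau_perm {L L' : List ℕ} (h : L.Perm L') : tau L = tau L' := by
  unfold tau; rw [ws_perm h, ks_perm h]

lemma ws_erase {L : List ℕ} {a : ℕ} (h : a ∈ L) : w1 a + ws (L.erase a) = ws L := by
  rw [← ws_cons, ws_perm (List.perm_cons_erase h)]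

lemma ks_erase {L : List ℕ} {a : ℕ} (h : a ∈ L) : k1 a + ks (L.erase a) = ks L := by
  rw [← ks_cons, ks_perm (List.perm_cons_erase h)]

lemma tb_eq (K : ℕ) : tb K = (TB / 2 ^ (K % 16384)) % 2 := by
  have h1 : Nat.land K 16383 = K % 16384 := Nat.and_two_pow_sub_one_eq_mod K 14
  have h2 : ∀ n : ℕ, Nat.land n 1 = n % 2 := fun n => Nat.and_one_is_mod n
  unfold tb
  rw [h1, h2]
  congr 1
  exact Nat.shiftRight_eq_div_pow _ _

lemma tb_mod {K K' : ℕ} (h : K % 16384 = K' % 16384) : tb K = tb K' := by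
  rw [tb_eq, tb_eq, h]

lemma tb_lt (K : ℕ) : tb K < 2 := by
  rw [tb_eq]
  exact Nat.mod_lt _ (by norm_num)

/-- removing an index -/
lemma tb_erase {L : List ℕ} {a : ℕ} (h : a ∈ L) (n : ℕ) :
    tb (ks L + 16383 * k1 a + n) = tb (ks (L.erase a) + n) := by
  apply tb_mod
  have := ks_erase h
  omega

lemma tau_eq {L : List ℕ} (h : ws L % 61 = 0) : tau L = tb (ks L) := if_pos h

lemma tau_zero {L : List ℕ} (h : ws L % 61 ≠ 0) : tau L = 0 := if_neg h

lemma w1_lt (i : ℕ) : w1 i < 61 := Nat.mod_lt _ (by norm_num)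

lemma ix_w1 : ∀ i < 30, ix (w1 i) = i := by decide +kernel

lemma w1_ix : ∀ v < 61, ix v < 30 → w1 (ix v) = v := by decide +kernel

lemma w1_ne : ∀ i < 30, w1 i ≠ 0 := by decide +kernel

lemma w1_add_two : ∀ i < 30, w1 ((i + 2) % 30) = (16 * w1 i) % 61 := by decide +kernel

lemma w1_inj {i j : ℕ} (hi : i < 30) (hj : j < 30) (h : w1 i = w1 j) : i = j := by
  rw [← ix_w1 i hi, h, ix_w1 j hj]

/-- every list of length three is a permutation of a sorted one -/
lemma sorted3 {L : List ℕ} (h : L.length = 3) (hL : Lt L) :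
    ∃ i j l, i ≤ j ∧ j ≤ l ∧ l < 30 ∧ L.Perm [i, j, l] := by
  have hs : (L.mergeSort (fun a b => decide (a ≤ b))).Pairwise (fun a b => a ≤ b) := by
    have := List.pairwise_mergeSort (le := fun a b => decide (a ≤ b))
      (by intro a b c h1 h2; simp only [decide_eq_true_eq] at *; omega)
      (by intro a b; simp only [Bool.or_eq_true, decide_eq_true_eq]; omega) L
    simpa using this
  have hp : (L.mergeSort (fun a b => decide (a ≤ b))).Perm L := List.mergeSort_perm _ _
  have hl := hp.length_eq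
  rw [h] at hl
  match hM : L.mergeSort (fun a b => decide (a ≤ b)), hl with
  | [i, j, l], _ =>
    rw [hM] at hs hp
    have h1 : i ≤ j ∧ j ≤ l := by
      simp only [List.pairwise_cons, List.mem_cons] at hs
      exact ⟨hs.1 j (Or.inl rfl), hs.2.1 l (Or.inl rfl)⟩
    exact ⟨i, j, l, h1.1, h1.2, hL l (hp.mem_iff.1 (by simp)), hp.symm⟩

/-- every list of length four is a permutation of a sorted one -/
lemma sorted4 {L : List ℕ} (h : L.length = 4) (hL : Lt L) :
    ∃ i j l m, i ≤ j ∧ j ≤ l ∧ l ≤ m ∧ m < 30 ∧ L.Perm [i, j, l, m] := by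
  have hs : (L.mergeSort (fun a b => decide (a ≤ b))).Pairwise (fun a b => a ≤ b) := by
    have := List.pairwise_mergeSort (le := fun a b => decide (a ≤ b))
      (by intro a b c h1 h2; simp only [decide_eq_true_eq] at *; omega)
      (by intro a b; simp only [Bool.or_eq_true, decide_eq_true_eq]; omega) L
    simpa using this
  have hp : (L.mergeSort (fun a b => decide (a ≤ b))).Perm L := List.mergeSort_perm _ _
  have hl := hp.length_eq
  rw [h] at hl
  match hM : L.mergeSort (fun a b => decide (a ≤ b)), hl with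
  | [i, j, l, m], _ =>
    rw [hM] at hs hp
    have h1 : i ≤ j ∧ j ≤ l ∧ l ≤ m := by
      simp only [List.pairwise_cons, List.mem_cons] at hs
      exact ⟨hs.1 j (Or.inl rfl), hs.2.1 l (Or.inl rfl), hs.2.2.1 m (Or.inl rfl)⟩
    exact ⟨i, j, l, m, h1.1, h1.2.1, h1.2.2, hL m (hp.mem_iff.1 (by simp)), hp.symm⟩

/-! ### Monomials -/

section

variable {k : Type u} [Field k]

@[simp] lemma mono_nil : mono k [] = 1 := rfl
@[simp] lemma mono_cons (i : ℕ) (L : List ℕ) : mono k (i :: L) = x k i * mono k L := by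
  unfold mono; rw [List.map_cons, List.prod_cons]
lemma mono_append (L L' : List ℕ) : mono k (L ++ L') = mono k L * mono k L' := by
  unfold mono; rw [List.map_append, List.prod_append]
lemma mono_perm {L L' : List ℕ} (h : L.Perm L') : mono k L = mono k L' := (h.map (x k)).prod_eq

@[simp] lemma qp_nil : qp k [] = 0 := rfl
@[simp] lemma qp_cons (a : ℕ) (A : List ℕ) : qp k (a :: A) = mono k [a % 32, a / 32] + qp k A := by
  unfold qp; rw [List.map_cons, List.sum_cons]

lemma x_hom (i : ℕ) : (x k i).IsHomogeneous 1 := isHomogeneous_X k _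

lemma mono_hom (L : List ℕ) : (mono k L).IsHomogeneous L.length := by
  induction L with
  | nil => exact isHomogeneous_one _ _
  | cons i L ih =>
    rw [mono_cons, List.length_cons, Nat.add_comm]
    exact (x_hom i).mul ih

lemma qp_hom (A : List ℕ) : (qp k A).IsHomogeneous 2 := by
  induction A with
  | nil => exact isHomogeneous_zero _ _ _
  | cons a A ih =>
    rw [qp_cons]
    exact (mono_hom [a % 32, a / 32]).add ih

lemma mono_eq (L : List ℕ) : mono k L = monomial (fs L) 1 := by
  induction L with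
  | nil => rfl
  | cons i L ih =>
    rw [mono_cons, ih]
    unfold fs x
    rw [List.map_cons, List.sum_cons, X, monomial_mul, one_mul]

lemma fs_cons (i : ℕ) (L : List ℕ) : fs (i :: L) = Finsupp.single (Fin.ofNat 30 i) 1 + fs L := by
  unfold fs
  rw [List.map_cons, List.sum_cons]

lemma fs_perm {L L' : List ℕ} (h : L.Perm L') : fs L = fs L' :=
  (h.map fun i => Finsupp.single (Fin.ofNat 30 i) 1).sum_eq

lemma ofNat_val (i : Fin 30) : Fin.ofNat 30 i.val = i := by
  apply Fin.ext
  show i.val % 30 = i.val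
  exact Nat.mod_eq_of_lt i.isLt

lemma ofNat_inj {i j : ℕ} (hi : i < 30) (hj : j < 30) (h : Fin.ofNat 30 i = Fin.ofNat 30 j) :
    i = j := by
  have := congrArg Fin.val h
  rwa [show (Fin.ofNat 30 i).val = i % 30 from rfl, show (Fin.ofNat 30 j).val = j % 30 from rfl,
    Nat.mod_eq_of_lt hi, Nat.mod_eq_of_lt hj] at this

/-- every exponent is the exponent of a list -/
lemma exists_list : ∀ (n : ℕ) (m : Fin 30 →₀ ℕ), m.degree = n →
    ∃ L : List ℕ, L.length = n ∧ Lt L ∧ fs L = m := by
  intro n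
  induction n with
  | zero =>
    intro m hm
    refine ⟨[], rfl, fun i hi => absurd hi (by simp), ?_⟩
    have : m = 0 := (Finsupp.degree_eq_zero_iff m).1 hm
    rw [this]; rfl
  | succ n ih =>
    intro m hm
    have hm0 : m ≠ 0 := by
      rintro rfl
      rw [map_zero] at hm
      omega
    obtain ⟨y, hy⟩ := Finsupp.ne_iff.1 hm0
    have hy1 : Finsupp.single y 1 ≤ m := by
      rw [Finsupp.single_le_iff]
      exact Nat.one_le_iff_ne_zero.2 hy
    have hm1 : Finsupp.single y 1 + (m - Finsupp.single y 1) = m := add_tsub_cancel_of_le hy1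
    have h1 := congrArg Finsupp.degree hm1
    rw [map_add, Finsupp.degree_single, hm] at h1
    obtain ⟨L, hL1, hL2, hL3⟩ := ih (m - Finsupp.single y 1) (by omega)
    refine ⟨y.val :: L, by rw [List.length_cons, hL1], Lt.cons y.isLt hL2, ?_⟩
    rw [fs_cons, hL3, ofNat_val, hm1]

/-- the degree of the exponents of a homogeneous polynomial -/
lemma degree_of_hom {s : MvPolynomial (Fin 30) k} {d : ℕ} (hs : s.IsHomogeneous d)
    {m : Fin 30 →₀ ℕ} (hc : coeff m s ≠ 0) : m.degree = d := by
  have h1 := hs hc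
  have h2 : m.degree = Finsupp.weight (1 : Fin 30 → ℕ) m :=
    DFunLike.congr_fun (Finsupp.degree_eq_weight_one (R := ℕ) (σ := Fin 30)) m
  rw [h2]
  exact h1

/-- a homogeneous polynomial is zero if its coefficients at all lists are zero -/
lemma eq_zero_of_coeff {s : MvPolynomial (Fin 30) k} {d : ℕ} (hs : s.IsHomogeneous d)
    (h : ∀ L : List ℕ, L.length = d → Lt L → coeff (fs L) s = 0) : s = 0 := by
  ext m
  rw [coeff_zero]
  by_contra hc
  obtain ⟨L, hL1, hL2, hL3⟩ := exists_list d m (degree_of_hom hs hc)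
  exact hc (by rw [← hL3]; exact h L hL1 hL2)

/-- a subspace which contains the monomials of degree `d` contains all polynomials of degree
`d` -/
lemma mem_of_mono (W : Submodule k (MvPolynomial (Fin 30) k)) (d : ℕ)
    (h : ∀ L : List ℕ, L.length = d → Lt L → mono k L ∈ W) :
    ∀ s : MvPolynomial (Fin 30) k, s.IsHomogeneous d → s ∈ W := by
  intro s hs
  rw [s.as_sum]
  refine W.sum_mem fun m hm => ?_
  have hc : coeff m s ≠ 0 := mem_support_iff.1 hm
  obtain ⟨L, hL1, hL2, hL3⟩ := exists_list d m (degree_of_hom hs hc)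
  have h3 := h L hL1 hL2
  rw [mono_eq, hL3] at h3
  have h4 : monomial m (coeff m s) = coeff m s • monomial m (1 : k) := by
    rw [smul_monomial, smul_eq_mul, mul_one]
  rw [h4]
  exact W.smul_mem _ h3

/-- linear maps which agree on the monomials of degree `d` agree in degree `d` -/
lemma eq_of_mono {M : Type*} [AddCommGroup M] [Module k M]
    (G G' : MvPolynomial (Fin 30) k →ₗ[k] M) (d : ℕ)
    (h : ∀ L : List ℕ, L.length = d → Lt L → G (mono k L) = G' (mono k L)) :
    ∀ s : MvPolynomial (Fin 30) k, s.IsHomogeneous d → G s = G' s := by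
  intro s hs
  have := mem_of_mono (LinearMap.ker (G - G')) d (fun L h1 h2 => by
    rw [LinearMap.mem_ker, LinearMap.sub_apply, h L h1 h2, sub_self]) s hs
  rw [LinearMap.mem_ker, LinearMap.sub_apply] at this
  exact sub_eq_zero.1 this

/-- partial derivatives of monomials -/
lemma pd_mono (a : ℕ) (ha : a < 30) (L : List ℕ) (hL : Lt L) :
    pderiv (Fin.ofNat 30 a) (mono k L) = (L.count a : k) • mono k (L.erase a) := by
  induction L with
  | nil =>
    rw [mono_nil, List.count_nil, Nat.cast_zero, zero_smul]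
    exact (pderiv (Fin.ofNat 30 a)).map_one_eq_zero
  | cons i L ih =>
    have hL' : Lt L := fun j hj => hL j (List.mem_cons_of_mem _ hj)
    have hi : i < 30 := hL i (by simp)
    rw [mono_cons, Derivation.leibniz, ih hL', smul_eq_mul, smul_eq_mul]
    by_cases h : i = a
    · subst h
      have h1 : pderiv (Fin.ofNat 30 i) (x k i) = 1 := pderiv_X_self _
      rw [h1, mul_one, List.count_cons_self, List.erase_cons_head]
      by_cases hm : i ∈ L
      · rw [mono_perm (List.perm_cons_erase hm), mono_cons, mul_smul_comm, Nat.cast_add,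
          Nat.cast_one, add_smul, one_smul]
      · rw [List.count_eq_zero_of_not_mem hm]
        simp
    · have h1 : pderiv (Fin.ofNat 30 a) (x k i) = 0 := by
        refine pderiv_X_of_ne ?_
        intro h2
        exact h (ofNat_inj hi ha h2)
      rw [h1, mul_zero, add_zero, mul_smul_comm, ← mono_cons,
        List.count_cons_of_ne (fun h2 => h h2), List.erase_cons_tail (by simpa using h)]

/-- in characteristic two only the parity counts -/
lemma cast_par (h2 : (2 : k) = 0) (n : ℕ) : ((n : ℕ) : k) = ((n % 2 : ℕ) : k) := by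
  conv_lhs => rw [← Nat.div_add_mod n 2]
  rw [Nat.cast_add, Nat.cast_mul, Nat.cast_ofNat, h2, zero_mul, zero_add]

lemma cast_zero_of_even (h2 : (2 : k) = 0) {n : ℕ} (h : n % 2 = 0) : ((n : ℕ) : k) = 0 := by
  rw [cast_par h2, h, Nat.cast_zero]

lemma cast_one_of_odd (h2 : (2 : k) = 0) {n : ℕ} (h : n % 2 = 1) : ((n : ℕ) : k) = 1 := by
  rw [cast_par h2, h, Nat.cast_one]

lemma add_self (h2 : (2 : k) = 0) (a : k) : a + a = 0 := by
  rw [← two_mul, h2, zero_mul]

lemma neg_eq (h2 : (2 : k) = 0) (a : k) : -a = a := by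
  rw [neg_eq_iff_add_eq_zero]
  exact add_self h2 a

/-! ### The functional -/

variable {Φ : MvPolynomial (Fin 30) k →ₗ[k] k}

lemma IsF.zero (hΦ : IsF k Φ) {L : List ℕ} (h4 : L.length = 4) (hL : Lt L)
    (h : ws L % 61 ≠ 0) : Φ (mono k L) = 0 := by
  rw [hΦ.four L h4 hL, tau_zero h, Nat.cast_zero]

/-- value at `x_b ∂_a m` -/
lemma IsF.pd (hΦ : IsF k Φ) {a b : ℕ} (ha : a < 30) (hb : b < 30) {L : List ℕ}
    (h4 : L.length = 4) (hL : Lt L) :
    Φ (x k b * pderiv (Fin.ofNat 30 a) (mono k L)) =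
      (L.count a : k) * ((tau (b :: L.erase a) : ℕ) : k) := by
  rw [pd_mono a ha L hL, mul_smul_comm, map_smul, smul_eq_mul, ← mono_cons]
  by_cases h : a ∈ L
  · rw [hΦ.four (b :: L.erase a)]
    · rw [List.length_cons, List.length_erase_of_mem h, h4]
    · exact Lt.cons hb (hL.erase a)
  · rw [List.count_eq_zero_of_not_mem h, Nat.cast_zero, zero_mul, zero_mul]

/-- value at `∂_a m`, `m` of degree five -/
lemma IsF.pd5 (hΦ : IsF k Φ) {a : ℕ} (ha : a < 30) {L : List ℕ}
    (h5 : L.length = 5) (hL : Lt L) :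
    Φ (pderiv (Fin.ofNat 30 a) (mono k L)) = (L.count a : k) * ((tau (L.erase a) : ℕ) : k) := by
  rw [pd_mono a ha L hL, map_smul, smul_eq_mul]
  by_cases h : a ∈ L
  · rw [hΦ.four (L.erase a)]
    · rw [List.length_erase_of_mem h, h5]
    · exact hL.erase a
  · rw [List.count_eq_zero_of_not_mem h, Nat.cast_zero, zero_mul, zero_mul]

lemma ann_zero {s : MvPolynomial (Fin 30) k} (h : s ∈ annI Φ) : Φ s = 0 := by
  have := h 1
  rwa [mul_one] at this

/-- membership in the ideal is tested by monomials -/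
lemma IsF.mem_ann (hΦ : IsF k Φ) {d : ℕ} (hd : d ≤ 4) {s : MvPolynomial (Fin 30) k}
    (hs : s.IsHomogeneous d) (h : ∀ L : List ℕ, L.length = 4 - d → Lt L → Φ (s * mono k L) = 0) :
    s ∈ annI Φ := by
  intro t
  have h1 : ∀ e : ℕ, Φ (s * homogeneousComponent e t) = 0 := by
    intro e
    have he := homogeneousComponent_isHomogeneous (R := k) e t
    by_cases h2 : e = 4 - d
    · rw [h2]
      rw [h2] at he
      exact eq_of_mono (Φ ∘ₗ LinearMap.mulLeft k s) 0 (4 - d)
        (fun L hL1 hL2 => h L hL1 hL2) _ he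
    · exact hΦ.deg (d + e) _ (hs.mul he) (by omega)
  rw [← sum_homogeneousComponent t, Finset.mul_sum, map_sum]
  exact Finset.sum_eq_zero fun e _ => h1 e

/-- homogeneous polynomials of degree at least five are in the ideal -/
lemma IsF.mem_ann_of_five (hΦ : IsF k Φ) {d : ℕ} (hd : 5 ≤ d) {s : MvPolynomial (Fin 30) k}
    (hs : s.IsHomogeneous d) : s ∈ annI Φ := by
  intro t
  rw [← sum_homogeneousComponent t, Finset.mul_sum, map_sum]
  exact Finset.sum_eq_zero fun e _ => hΦ.deg (d + e) _
    (hs.mul (homogeneousComponent_isHomogeneous (R := k) e t)) (by omega)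

end

end Helper94.RG2
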