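import Pool.Agent.Helper94.RG2.Data
import Pool.Agent.Helper94.RG2.Data0
import Pool.Agent.Helper94.RG2.Data1
import Pool.Agent.Helper94.RG2.Data2
import Pool.Agent.Helper94.RG2.Data4
import Pool.Agent.Helper94.RG2.Data8
import Pool.Agent.Helper49.RA.Defs

/-!
Project RG2 (MP_16b052_ag, characteristic two): definitions.

The variables are `x_i`, `i < 30`, of weight `2^(2i+1)` modulo `61`.  Monomials are given by lists
of indices.  The functional `Φ` has the value `tb (sum of the keys)` on a monomial of degree four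
of weight zero, and zero on all other monomials.
-/

namespace Helper94.RG2

open MvPolynomial

universe u

/-! ### Numbers (all functions are quick for the kernel) -/

/-- weight of the variable `i` -/
def w1 (i : ℕ) : ℕ := Nat.mod (Nat.pow 2 (Nat.add (Nat.mul 2 i) 1)) 61

/-- key of the variable `i` -/
def k1 (i : ℕ) : ℕ := Nat.land (Nat.shiftRight AT (Nat.mul 14 i)) 16383

/-- index of the weight `v` (at least `30` if there is none) -/
def ix (v : ℕ) : ℕ := Nat.land (Nat.shiftRight IXT (Nat.mul 5 v)) 31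

/-- value of the functional at the key sum `K` -/
def tb (K : ℕ) : ℕ := Nat.land (Nat.shiftRight TB (Nat.land K 16383)) 1

/-- value of the functional at a monomial with weight sum `W` and key sum `K` -/
def tv (W K : ℕ) : ℕ := if W % 61 = 0 then tb K else 0

/-- weight of the code `i + 32 j` -/
def w2 (a : ℕ) : ℕ := Nat.add (w1 (Nat.mod a 32)) (w1 (Nat.div a 32))

/-- key of the code `i + 32 j` -/
def k2 (a : ℕ) : ℕ := Nat.add (k1 (Nat.mod a 32)) (k1 (Nat.div a 32))

/-- position of a monomial of degree four with key sum `K` in the table `PT` -/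
def ps (PT K : ℕ) : ℕ := Nat.land (Nat.shiftRight PT (Nat.mul 10 (Nat.land K 16383))) 1023

/-- the monomial at a position in the table `DC` -/
def dc (DC n : ℕ) : ℕ := Nat.mod (Nat.shiftRight DC (Nat.mul 20 n)) 1048576

/-- quadrics of the ideal of weight `c` -/
def QS (c : ℕ) : List (List ℕ) := QD.getD c []

/-- weight sum of a list -/
def ws (L : List ℕ) : ℕ := (L.map w1).sum

/-- key sum of a list -/
def ks (L : List ℕ) : ℕ := (L.map k1).sum

/-- value at a list of length four -/
def tau (L : List ℕ) : ℕ := tv (ws L) (ks L)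

/-- the list of a code with four places -/
def dl (c : ℕ) : List ℕ := [c % 32, c / 32 % 32, c / 1024 % 32, c / 32768]

/-! ### Elimination -/

/-- the lowest bit of `r`, as a power of two (`r` not zero) -/
def lb (r : ℕ) : ℕ := Nat.sub r (Nat.land r (Nat.sub r 1))

/-- clear the bit `p` (a power of two) with the row `r` in all rows of `l` (the order is
reversed) -/
noncomputable def clr (r p : ℕ) (l : List ℕ) : List ℕ → List ℕ :=
  List.rec (fun acc => acc) (fun v _ ih acc =>
    Nat.rec (ih (List.cons v acc)) (fun _ _ => ih (List.cons (Nat.xor v r) acc)) (Nat.land v p)) l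

/-- elimination with fuel `n`; `m` is the set of pivots so far, `F` the set which is to be
reached -/
noncomputable def elim (F : ℕ) (n : ℕ) : List ℕ → ℕ → Bool :=
  Nat.rec (fun _ m => Nat.beq m F) (fun _ ih l m =>
    List.rec (Nat.beq m F) (fun r rest _ =>
      Nat.rec (ih rest m) (fun _ _ => ih (clr r (lb r) rest List.nil) (Nat.add m (lb r))) r) l) n

/-- all rows are contained in `F` -/
noncomputable def subs (F : ℕ) (l : List ℕ) : Bool :=
  List.rec true (fun v _ ih => Bool.rec false ih (Nat.beq (Nat.land v F) v)) l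

/-! ### Degree four -/

/-- the xor of `2^(position)` for the products of the monomial with key sum `ka` and the terms of
`B`, added to `acc` -/
noncomputable def row2 (PT ka : ℕ) (B : List ℕ) : ℕ → ℕ :=
  List.rec (fun acc => acc)
    (fun b _ ih acc => ih (Nat.xor acc (Nat.pow 2 (ps PT (Nat.add ka (k2 b)))))) B

/-- the row of the product of the quadrics `A` and `B` -/
noncomputable def row (PT : ℕ) (A B : List ℕ) : ℕ → ℕ :=
  List.rec (fun acc => acc) (fun a _ ih acc => ih (row2 PT (k2 a) B acc)) A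

/-- the rows of the products of `A` with the quadrics of `Bs` -/
noncomputable def prodA (PT : ℕ) (A : List ℕ) (Bs : List (List ℕ)) : List ℕ → List ℕ :=
  List.rec (fun acc => acc) (fun B _ ih acc => ih (List.cons (row PT A B 0) acc)) Bs

/-- the rows of the products of the quadrics of `As` and of `Bs` -/
noncomputable def prods (PT : ℕ) (As Bs : List (List ℕ)) : List ℕ → List ℕ :=
  List.rec (fun acc => acc) (fun A _ ih acc => ih (prodA PT A Bs acc)) As

/-- the rows of weight `u`, first factor of weight less than `n` -/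
noncomputable def rows4 (PT u : ℕ) (n : ℕ) : List ℕ → List ℕ :=
  Nat.rec (fun acc => acc) (fun c ih acc =>
    Bool.rec (ih acc) (ih (prods PT (QS c) (QS (Nat.mod (Nat.sub (Nat.add u 61) c) 61)) acc))
     (Nat.ble c (Nat.mod (Nat.sub (Nat.add u 61) c) 61))) n

/-- the unit rows at the free monomials -/
def fr4 (PT : ℕ) (FR : List (ℕ × ℕ)) : List ℕ :=
  FR.map fun p => 2 ^ ps PT (ks (dl p.2))

/-- value of the functional `f` at a list: `f = 0` is `Φ`, `f = 1 + a + 32 b` is `Φ(x_b ∂_a ·)` -/
def fv (f : ℕ) (L : List ℕ) : ℕ :=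
  if f = 0 then tau L else
    L.count ((f - 1) % 32) * tau ((f - 1) / 32 :: L.erase ((f - 1) % 32))

/-- the free monomials are triangular with respect to the functionals -/
def ckF : List (ℕ × ℕ) → Bool
  | [] => true
  | p :: l => (fv p.1 (dl p.2)) % 2 == 1 && l.all (fun p' => (fv p'.1 (dl p.2)) % 2 == 0) && ckF l

/-- the codes of free monomials and functionals are valid for the weight `u` -/
def okF (u : ℕ) (FR : List (ℕ × ℕ)) : Bool :=
  FR.all fun p => (p.1 == 0 || (decide ((p.1 - 1) % 32 < 30) && decide ((p.1 - 1) / 32 < 30))) &&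
    (dl p.2).all (fun i => decide (i < 30)) && ws (dl p.2) % 61 == u

/-- check of the tables: for sorted lists of weight `u` the position is less than `N` and
determines the monomial -/
def ckP (u N PT DC : ℕ) : Bool :=
  (List.range 30).all fun i => (List.range 30).all fun j => !(Nat.ble i j) ||
    (List.range 30).all fun l => !(Nat.ble j l) ||
      (!(Nat.ble l (ix ((u + 183 - w1 i - w1 j - w1 l) % 61)) &&
          Nat.ble (ix ((u + 183 - w1 i - w1 j - w1 l) % 61)) 29) ||
        (Nat.ble (ps PT (k1 i + k1 j + k1 l + k1 (ix ((u + 183 - w1 i - w1 j - w1 l) % 61))) + 1) N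
          &&
        Nat.beq (dc DC (ps PT (k1 i + k1 j + k1 l + k1 (ix ((u + 183 - w1 i - w1 j - w1 l) % 61)))))
          (i + 32 * j + 1024 * l + 32768 * ix ((u + 183 - w1 i - w1 j - w1 l) % 61))))

/-- check of the quadrics -/
def ckQ : Bool :=
  (List.range 61).all fun c =>
    ((QS c).all fun A => A.all fun a => Nat.ble (a % 32) 29 && Nat.ble (a / 32) 29 &&
      Nat.beq (w2 a % 61) c) &&
    (List.range 30).all fun i => (List.range 30).all fun j => !(Nat.beq ((w1 i + w1 j + c) % 61) 0) ||
      (QS c).all fun A => Nat.beq ((A.map fun a => tb (k2 a + k1 i + k1 j)).sum % 2) 0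

/-! ### Degree five -/

/-- the term of the unknown `30 y + a` -/
def sd (u y K4 a : ℕ) : ℕ :=
  if ix ((w1 a + w1 y + 61 - u) % 61) < 30 then
    tb (K4 + 16383 * k1 a + k1 (ix ((w1 a + w1 y + 61 - u) % 61))) * 2 ^ (30 * y + a) else 0

/-- one side of the equation -/
def side (u y K4 z i j l : ℕ) : ℕ :=
  Nat.xor (Nat.xor (sd u y K4 z) (sd u y K4 i)) (Nat.xor (Nat.xor (sd u y K4 j) (sd u y K4 l))
    (if w1 y = u then tb K4 * 2 ^ 900 else 0))

/-- the row of the equation for the variables `y`, `z` and the monomial `x_i x_j x_l` -/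
def row5 (u y z i j l : ℕ) : ℕ :=
  Nat.xor (side u y (k1 z + k1 i + k1 j + k1 l) z i j l)
    (side u z (k1 y + k1 i + k1 j + k1 l) y i j l)

/-- the row of a code -/
def rw5 (u c : ℕ) : ℕ := row5 u (c % 32) (c / 32 % 32) (c / 1024 % 32) (c / 32768 % 32) (c / 1048576)

/-- the code is valid -/
def ok5 (u c : ℕ) : Bool :=
  Nat.ble (c % 32) 29 && Nat.ble (c / 32 % 32) 29 && Nat.ble (c / 1024 % 32) 29 &&
    Nat.ble (c / 32768 % 32) 29 && Nat.ble (c / 1048576) 29 &&
    Nat.beq ((w1 (c % 32) + w1 (c / 32 % 32) + w1 (c / 1024 % 32) + w1 (c / 32768 % 32) +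
      w1 (c / 1048576)) % 61) u

/-- the set of the unknowns -/
def F5 (u : ℕ) : ℕ :=
  ((List.range 30).map fun y => ((List.range 30).map fun a =>
    if ix ((w1 a + w1 y + 61 - u) % 61) < 30 then 2 ^ (30 * y + a) else 0).sum).sum +
    if ix u < 30 then 2 ^ 900 else 0

/-- the index different from the one of `u` -/
def oth (u : ℕ) : ℕ := if ix u = 0 then 1 else 0

/-- unit rows -/
def un5 (u : ℕ) : List ℕ :=
  if ix u < 30 then [2 ^ (30 * oth u + ix u), 2 ^ (30 * ix u + oth u)] else []

/-! ### Degree six -/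

/-- number of `a` in `L` times the value of `L` without `a`, `K` the key sum of `L` -/
def dt (a K : ℕ) (L : List ℕ) : ℕ := L.count a * tb (K + 16383 * k1 a)

/-- check of one witness: `s = [i, j, l, m]` -/
def ok6 (u y z i j l m : ℕ) : Bool :=
  Nat.ble z 29 && Nat.ble i 29 && Nat.ble j 29 && Nat.ble l 29 && Nat.ble m 29 &&
  Nat.beq ((w1 y + w1 z + w1 i + w1 j + w1 l + w1 m) % 61) u &&
  Nat.beq (dt (ix ((u + 61 - w1 y) % 61)) (k1 z + k1 i + k1 j + k1 l + k1 m) [z, i, j, l, m] % 2) 1 &&
  (Nat.ble 30 (ix ((u + 61 - w1 z) % 61)) ||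
    Nat.beq (dt (ix ((u + 61 - w1 z) % 61)) (k1 y + k1 i + k1 j + k1 l + k1 m) [y, i, j, l, m] % 2) 0)

/-- check of all witnesses in degree six -/
def ck6 : Bool :=
  (List.range 61).all fun u => (List.range 30).all fun y =>
    Nat.ble 30 (ix ((u + 61 - w1 y) % 61)) ||
      ok6 u y (((WT6.getD u []).getD y 0) % 32) (((WT6.getD u []).getD y 0) / 32 % 32)
        (((WT6.getD u []).getD y 0) / 1024 % 32) (((WT6.getD u []).getD y 0) / 32768 % 32)
        (((WT6.getD u []).getD y 0) / 1048576)

/-! ### Degree three -/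

/-- the sorted triples of weight `c` (codes `i + 32 j + 1024 l`) -/
def LT (c : ℕ) : List ℕ :=
  (List.range 30).flatMap fun i => ((List.range 30).filter fun j =>
    Nat.ble i j && Nat.ble j (ix ((c + 122 - w1 i - w1 j) % 61)) &&
      Nat.ble (ix ((c + 122 - w1 i - w1 j) % 61)) 29).map fun j =>
      i + 32 * j + 1024 * ix ((c + 122 - w1 i - w1 j) % 61)

/-- value of `Φ(x_a x_b ∂_y x_i x_j x_l)`, `t` the code of `i, j, l` -/
def v3 (y a b t : ℕ) : ℕ :=
  (([t % 32, t / 32 % 32, t / 1024].count y) *
    tb (k1 (t % 32) + k1 (t / 32 % 32) + k1 (t / 1024) + 16383 * k1 y + k1 a + k1 b)) % 2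

/-- the row of the equation of `y`, `x_a x_b` -/
def row3 (l : List ℕ) (y a b : ℕ) : ℕ := l.foldr (fun t r => Nat.xor r (v3 y a b t * 2 ^ t)) 0

/-- the code is valid -/
def ok3 (c t : ℕ) : Bool :=
  Nat.ble (t % 32) 29 && Nat.ble (t / 32 % 32) 29 && Nat.ble (t / 1024) 29 &&
    Nat.beq ((c + w1 (t / 32 % 32) + w1 (t / 1024)) % 61) (w1 (t % 32))

/-- the set of the unknowns -/
def F3 (l : List ℕ) : ℕ := l.foldr (fun t r => r + 2 ^ t) 0

/-! ### Degrees one and two -/

/-- check of the witnesses in degree one -/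
def ck1 : Bool :=
  (List.range 30).all fun i => (dl (WT1.getD i 0)).all (fun j => Nat.ble j 29) &&
    Nat.beq (tau [i, (WT1.getD i 0) % 32, (WT1.getD i 0) / 32 % 32, (WT1.getD i 0) / 1024]) 1

/-- check of the witnesses in degree two -/
def ck2 : Bool :=
  (List.range 30).all fun i => Nat.ble ((WT2.getD i 0) % 32) 29 && Nat.ble ((WT2.getD i 0) / 32) 29 &&
    Nat.beq (tau [i, i, (WT2.getD i 0) % 32, (WT2.getD i 0) / 32]) 1

/-! ### Symmetry -/

/-- the functional is invariant under `i ↦ i + 2` -/
def ckS : Bool :=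
  (List.range 30).all fun i => (List.range 30).all fun j => !(Nat.ble i j) ||
    (List.range 30).all fun l => !(Nat.ble j l) ||
      (!(Nat.ble (ix ((183 - w1 i - w1 j - w1 l) % 61)) 29) ||
        Nat.beq (tb (k1 i + k1 j + k1 l + k1 (ix ((183 - w1 i - w1 j - w1 l) % 61))))
          (tb (k1 ((i + 2) % 30) + k1 ((j + 2) % 30) + k1 ((l + 2) % 30) +
            k1 ((ix ((183 - w1 i - w1 j - w1 l) % 61) + 2) % 30))))

end Helper94.RG2
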