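import Pool.Agent.Helper94.RG2.Defs

/-!
Project RG2 (MP_16b052_ag, characteristic two): kernel computations, all weights.
-/

namespace Helper94.RG2

theorem ckQ_true : ckQ = true := by decide +kernel

theorem ck6_true : ck6 = true := by decide +kernel

theorem ck1_true : ck1 = true := by decide +kernel

theorem ck2_true : ck2 = true := by decide +kernel

theorem ckS_true : ckS = true := by decide +kernel

end Helper94.RG2
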