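import Pool.Agent.Helper94.RG2.Defs

/-!
Project RG2 (MP_16b052_ag, characteristic two): kernel computations, weight 0.
-/

namespace Helper94.RG2

theorem ckP_0 : ckP 0 690 PT0 DC0 = true := by decide +kernel

theorem ckF_0 : ckF FR0 = true := by decide +kernel

theorem okF_0 : okF 0 FR0 = true := by decide +kernel

theorem subs4_0 : subs
    0x3ffffffffffffffffffffffffffffffffffffffffffffffffffffffffffffffffffffffffffffffffffffffffffffffffffffffffffffffffffffffffffffffffffffffffffffffffffffffffffffffffffffffffffff
    (rows4 PT0 0 61 (fr4 PT0 FR0)) = true := by decide +kernel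

theorem elim4_0 : elim
    0x3ffffffffffffffffffffffffffffffffffffffffffffffffffffffffffffffffffffffffffffffffffffffffffffffffffffffffffffffffffffffffffffffffffffffffffffffffffffffffffffffffffffffffffff
    1200 (rows4 PT0 0 61 (fr4 PT0 FR0)) 0 = true := by decide +kernel

end Helper94.RG2
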