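import Pool.Agent.Helper94.RG2.Defs

/-!
Project RG2 (MP_16b052_ag, characteristic two): kernel computations, weight 1.
-/

namespace Helper94.RG2

theorem ckP_1 : ckP 1 673 PT1 DC1 = true := by decide +kernel

theorem ckF_1 : ckF FR1 = true := by decide +kernel

theorem okF_1 : okF 1 FR1 = true := by decide +kernel

theorem subs4_1 : subs
    0x1ffffffffffffffffffffffffffffffffffffffffffffffffffffffffffffffffffffffffffffffffffffffffffffffffffffffffffffffffffffffffffffffffffffffffffffffffffffffffffffffffffffffff
    (rows4 PT1 1 61 (fr4 PT1 FR1)) = true := by decide +kernel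

theorem elim4_1 : elim
    0x1ffffffffffffffffffffffffffffffffffffffffffffffffffffffffffffffffffffffffffffffffffffffffffffffffffffffffffffffffffffffffffffffffffffffffffffffffffffffffffffffffffffffff
    1200 (rows4 PT1 1 61 (fr4 PT1 FR1)) 0 = true := by decide +kernel

end Helper94.RG2
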