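import Pool.Agent.Helper94.RG2.Defs

/-!
Project RG2 (MP_16b052_ag, characteristic two): kernel computations, weight 2.
-/

namespace Helper94.RG2

theorem ckP_2 : ckP 2 668 PT2 DC2 = true := by decide +kernel

theorem ckF_2 : ckF FR2 = true := by decide +kernel

theorem okF_2 : okF 2 FR2 = true := by decide +kernel

theorem subs4_2 : subs
    0xfffffffffffffffffffffffffffffffffffffffffffffffffffffffffffffffffffffffffffffffffffffffffffffffffffffffffffffffffffffffffffffffffffffffffffffffffffffffffffffffffffffff
    (rows4 PT2 2 61 (fr4 PT2 FR2)) = true := by decide +kernel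

theorem elim4_2 : elim
    0xfffffffffffffffffffffffffffffffffffffffffffffffffffffffffffffffffffffffffffffffffffffffffffffffffffffffffffffffffffffffffffffffffffffffffffffffffffffffffffffffffffffff
    1200 (rows4 PT2 2 61 (fr4 PT2 FR2)) 0 = true := by decide +kernel

end Helper94.RG2
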