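import Pool.Agent.Helper94.RG2.Defs

/-!
Project RG2 (MP_16b052_ag, characteristic two): kernel computations, weight 4.
-/

namespace Helper94.RG2

theorem ckP_4 : ckP 4 673 PT4 DC4 = true := by decide +kernel

theorem ckF_4 : ckF FR4 = true := by decide +kernel

theorem okF_4 : okF 4 FR4 = true := by decide +kernel

theorem subs4_4 : subs
    0x1ffffffffffffffffffffffffffffffffffffffffffffffffffffffffffffffffffffffffffffffffffffffffffffffffffffffffffffffffffffffffffffffffffffffffffffffffffffffffffffffffffffffff
    (rows4 PT4 4 61 (fr4 PT4 FR4)) = true := by decide +kernel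

theorem elim4_4 : elim
    0x1ffffffffffffffffffffffffffffffffffffffffffffffffffffffffffffffffffffffffffffffffffffffffffffffffffffffffffffffffffffffffffffffffffffffffffffffffffffffffffffffffffffffff
    1200 (rows4 PT4 4 61 (fr4 PT4 FR4)) 0 = true := by decide +kernel

end Helper94.RG2
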