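import Pool.Agent.Helper94.RG2.Defs

/-!
Project RG2 (MP_16b052_ag, characteristic two): kernel computations, weight 4.
-/

namespace Helper94.RG2

theorem ok5_4 : RF4.all (ok5 4) = true := by decide +kernel

theorem subs5_4 : subs (F5 4) (un5 4 ++ RF4.map (rw5 4)) = true := by decide +kernel

theorem elim5_4 : elim (F5 4) 500 (un5 4 ++ RF4.map (rw5 4)) 0 = true := by decide +kernel

theorem ok3_4 : RT4.all (ok3 4) = true := by decide +kernel

theorem subs3_4 : subs (F3 (LT 4))
    (RT4.map fun t => row3 (LT 4) (t % 32) (t / 32 % 32) (t / 1024)) = true := by decide +kernel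

theorem elim3_4 : elim (F3 (LT 4)) 200
    (RT4.map fun t => row3 (LT 4) (t % 32) (t / 32 % 32) (t / 1024)) 0 = true := by
  decide +kernel

end Helper94.RG2
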