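import Pool.Agent.Helper94.RG2.Defs

/-!
Project RG2 (MP_16b052_ag, characteristic two): kernel computations, weight 8.
-/

namespace Helper94.RG2

theorem ok5_8 : RF8.all (ok5 8) = true := by decide +kernel

theorem subs5_8 : subs (F5 8) (un5 8 ++ RF8.map (rw5 8)) = true := by decide +kernel

theorem elim5_8 : elim (F5 8) 500 (un5 8 ++ RF8.map (rw5 8)) 0 = true := by decide +kernel

theorem ok3_8 : RT8.all (ok3 8) = true := by decide +kernel

theorem subs3_8 : subs (F3 (LT 8))
    (RT8.map fun t => row3 (LT 8) (t % 32) (t / 32 % 32) (t / 1024)) = true := by decide +kernel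

theorem elim3_8 : elim (F3 (LT 8)) 200
    (RT8.map fun t => row3 (LT 8) (t % 32) (t / 32 % 32) (t / 1024)) 0 = true := by
  decide +kernel

end Helper94.RG2
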