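import Pool.Agent.Helper94.RG2.St

/-!
Project RG2 (MP_16b052_ag, characteristic two), module D12: degrees one and two.
-/

namespace Helper94.RG2

open MvPolynomial Helper49.RA Finset

universe u

namespace D12aux

/-- the exponent of a list at a variable -/
lemma fs_apply (a : ℕ) (ha : a < 30) (L : List ℕ) (hL : Lt L) :
    fs L (Fin.ofNat 30 a) = L.count a := by
  induction L with
  | nil => rfl
  | cons i L ih =>
    have hi : i < 30 := hL i (by simp)
    rw [fs_cons, Finsupp.add_apply, ih (fun j hj => hL j (List.mem_cons_of_mem _ hj))]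
    by_cases h : i = a
    · subst h
      rw [Finsupp.single_eq_same, List.count_cons_self, add_comm]
    · rw [Finsupp.single_eq_of_ne (fun h2 => h (ofNat_inj ha hi h2).symm),
        List.count_cons_of_ne (fun h2 => h h2), zero_add]

lemma lt1 {i : ℕ} (hi : i < 30) : Lt [i] := Lt.cons hi (fun j hj => absurd hj (by simp))

lemma lt2 {i j : ℕ} (hi : i < 30) (hj : j < 30) : Lt [i, j] := Lt.cons hi (lt1 hj)

lemma fs1 {i j : ℕ} (hi : i < 30) (hj : j < 30) (h : fs [i] = fs [j]) : i = j := by
  have h1 := DFunLike.congr_fun h (Fin.ofNat 30 i)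
  rw [fs_apply i hi _ (lt1 hi), fs_apply i hi _ (lt1 hj)] at h1
  by_contra hne
  rw [List.count_singleton_self, List.count_singleton] at h1
  simp [Ne.symm hne] at h1

lemma fs2 {i j c d : ℕ} (hi : i < 30) (hj : j < 30) (hc : c < 30) (hd : d < 30)
    (h : fs [c, d] = fs [i, j]) : (c = i ∧ d = j) ∨ (c = j ∧ d = i) := by
  have h1 := DFunLike.congr_fun h (Fin.ofNat 30 i)
  have h2 := DFunLike.congr_fun h (Fin.ofNat 30 j)
  rw [fs_apply i hi _ (lt2 hc hd), fs_apply i hi _ (lt2 hi hj)] at h1
  rw [fs_apply j hj _ (lt2 hc hd), fs_apply j hj _ (lt2 hi hj)] at h2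
  simp only [List.count_cons, List.count_nil, beq_iff_eq] at h1 h2
  by_cases e1 : c = i <;> by_cases e2 : d = i <;> by_cases e3 : c = j <;> by_cases e4 : d = j <;>
    simp_all

section

variable {k : Type u} [Field k]

lemma coeff_mono (L L' : List ℕ) :
    coeff (fs L) (mono k L') = if fs L' = fs L then (1 : k) else 0 := by
  rw [mono_eq, coeff_monomial]

lemma coeff_self (L : List ℕ) : coeff (fs L) (mono k L) = (1 : k) := by
  rw [coeff_mono, if_pos rfl]

/-- the coefficient of `x_i x_j` -/
lemma coeff_pd {i j : ℕ} (hi : i < 30) (hj : j < 30) (hij : i ≠ j)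
    {s : MvPolynomial (Fin 30) k} (hs : s.IsHomogeneous 2) :
    coeff (fs [i, j]) s = coeff (fs [j]) (pderiv (Fin.ofNat 30 i) s) := by
  refine eq_of_mono (lcoeff k (fs [i, j]))
    ((lcoeff k (fs [j])) ∘ₗ (pderiv (R := k) (Fin.ofNat 30 i)).toLinearMap) 2 ?_ s hs
  intro L h2 hL
  match L, h2, hL with
  | [c, d], _, hL =>
    have hc : c < 30 := hL c (by simp)
    have hd : d < 30 := hL d (by simp)
    change coeff (fs [i, j]) (mono k [c, d]) =
      coeff (fs [j]) (pderiv (Fin.ofNat 30 i) (mono k [c, d]))
    rw [pd_mono i hi _ hL, coeff_smul, coeff_mono, coeff_mono, smul_eq_mul]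
    by_cases h1 : c = i
    · subst h1
      rw [List.erase_cons_head]
      by_cases h3 : d = c
      · subst h3
        rw [if_neg, if_neg, mul_zero]
        · intro h; exact hij (fs1 hd hj h)
        · intro h
          rcases fs2 hd hj hd hd h with h | h
          · exact hij h.2
          · exact hij h.1
      · rw [List.count_cons_self, List.count_cons_of_ne (fun h => h3 h), List.count_nil]
        by_cases h4 : d = j
        · subst h4
          simp
        · rw [if_neg, if_neg, mul_zero]
          · intro h; exact h4 (fs1 hd hj h)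
          · intro h
            rcases fs2 hc hj hc hd h with h | h
            · exact h4 h.2
            · exact h3 h.2
    · rw [List.count_cons_of_ne (fun h => h1 h), List.erase_cons_tail (by simpa using h1)]
      by_cases h3 : d = i
      · subst h3
        rw [List.count_cons_self, List.count_nil, List.erase_cons_head]
        by_cases h4 : c = j
        · subst h4
          have : fs [c, d] = fs [d, c] := fs_perm (List.Perm.swap _ _ _)
          rw [if_pos this]
          simp
        · rw [if_neg, if_neg, mul_zero]
          · intro h; exact h4 (fs1 hc hj h)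
          · intro h
            rcases fs2 hd hj hc hd h with h | h
            · exact h1 h.1
            · exact h4 h.1
      · rw [List.count_cons_of_ne (fun h => h3 h), List.count_nil, Nat.cast_zero, zero_mul, if_neg]
        intro h
        rcases fs2 hi hj hc hd h with h | h
        · exact h1 h.1
        · exact h3 h.2

lemma tau_one {i : ℕ} {L : List ℕ} (h : tau (i :: L) = 1) : (w1 i + ws L) % 61 = 0 := by
  by_contra hc
  have : tau (i :: L) = 0 := tau_zero (by rw [ws_cons]; exact hc)
  omega

/-- degree one -/
lemma p1 (h1 : ck1 = true) (Φ : MvPolynomial (Fin 30) k →ₗ[k] k) (hΦ : IsF k Φ) : P1 Φ := by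
  intro s hs hI
  refine eq_zero_of_coeff hs ?_
  intro L hL1 hL
  match L, hL1, hL with
  | [i], _, hL =>
    have hi : i < 30 := hL i (by simp)
    have hw : ∀ i < 30, WT1.getD i 0 < 32768 := by decide +kernel
    have hw1 := hw i hi
    unfold ck1 at h1
    rw [List.all_eq_true] at h1
    have h2 := h1 i (List.mem_range.2 hi)
    rw [Bool.and_eq_true, List.all_eq_true] at h2
    obtain ⟨h3, h4⟩ := h2
    replace h4 := Nat.eq_of_beq_eq_true h4
    generalize WT1.getD i 0 = c at *
    have ha : c % 32 < 30 := by
      have := Nat.le_of_ble_eq_true (h3 (c % 32) (by unfold dl; simp))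
      omega
    have hb : c / 32 % 32 < 30 := by
      have := Nat.le_of_ble_eq_true (h3 (c / 32 % 32) (by unfold dl; simp))
      omega
    have hd : c / 1024 < 30 := by
      have := Nat.le_of_ble_eq_true (h3 (c / 1024 % 32) (by unfold dl; simp))
      omega
    have hLt : Lt [c % 32, c / 32 % 32, c / 1024] := Lt.cons ha (Lt.cons hb (lt1 hd))
    have key : coeff (fs [i]) s = Φ (s * mono k [c % 32, c / 32 % 32, c / 1024]) := by
      refine eq_of_mono (lcoeff k (fs [i]))
        (Φ ∘ₗ LinearMap.mulRight k (mono k [c % 32, c / 32 % 32, c / 1024])) 1 ?_ s hs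
      intro L' hL1' hL'
      match L', hL1', hL' with
      | [j], _, hL' =>
        have hj : j < 30 := hL' j (by simp)
        change coeff (fs [i]) (mono k [j]) =
          Φ (mono k [j] * mono k [c % 32, c / 32 % 32, c / 1024])
        rw [← mono_append, List.singleton_append, coeff_mono, hΦ.four _ rfl (Lt.cons hj hLt)]
        by_cases hji : j = i
        · subst hji
          rw [if_pos rfl, h4, Nat.cast_one]
        · rw [if_neg (fun h => hji (fs1 hj hi h)), tau_zero, Nat.cast_zero]
          intro h5
          rw [ws_cons] at h5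
          have h6 := tau_one h4
          have h7 := w1_lt i
          have h8 := w1_lt j
          exact hji (w1_inj hj hi (by omega))
    rw [key]
    exact hI _

/-- degree two -/
lemma p2 (h1 : ck1 = true) (h2 : ck2 = true) (Φ : MvPolynomial (Fin 30) k →ₗ[k] k)
    (hΦ : IsF k Φ) : P2 Φ := by
  intro s hs hI hpd
  have hoff : ∀ i j, i < 30 → j < 30 → i ≠ j → coeff (fs [i, j]) s = 0 := by
    intro i j hi hj hij
    have h3 : pderiv (Fin.ofNat 30 i) s = 0 := p1 h1 Φ hΦ _ hs.pderiv (hpd i hi)
    rw [coeff_pd hi hj hij hs, h3, coeff_zero]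
  have hsum : s = ∑ i ∈ range 30, coeff (fs [i, i]) s • mono k [i, i] := by
    rw [← sub_eq_zero]
    refine eq_zero_of_coeff (d := 2) ?_ ?_
    · refine hs.sub ?_
      refine IsHomogeneous.sum _ _ _ fun i _ => ?_
      rw [smul_eq_C_mul]
      have h5 := (isHomogeneous_C (Fin 30) (coeff (fs [i, i]) s)).mul (mono_hom (k := k) [i, i])
      rwa [Nat.zero_add] at h5
    · intro L hL1 hL
      match L, hL1, hL with
      | [c, d], _, hL =>
        have hc : c < 30 := hL c (by simp)
        have hd : d < 30 := hL d (by simp)
        rw [coeff_sub, coeff_sum, sub_eq_zero]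
        by_cases hcd : c = d
        · subst hcd
          rw [Finset.sum_eq_single c]
          · rw [coeff_smul, coeff_self, smul_eq_mul, mul_one]
          · intro j hj hjc
            have hj' : j < 30 := Finset.mem_range.1 hj
            rw [coeff_smul, coeff_mono, if_neg, smul_zero]
            intro h
            rcases fs2 hc hc hj' hj' h with h | h
            · exact hjc h.1
            · exact hjc h.1
          · intro h
            exact absurd (Finset.mem_range.2 hc) h
        · rw [hoff c d hc hd hcd, Finset.sum_eq_zero]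
          intro j hj
          have hj' : j < 30 := Finset.mem_range.1 hj
          rw [coeff_smul, coeff_mono, if_neg, smul_zero]
          intro h
          rcases fs2 hc hd hj' hj' h with h | h
          · exact hcd (h.1.symm.trans h.2)
          · exact hcd (h.2.symm.trans h.1)
  have hdiag : ∀ i < 30, coeff (fs [i, i]) s = 0 := by
    intro i hi
    unfold ck2 at h2
    rw [List.all_eq_true] at h2
    have h3 := h2 i (List.mem_range.2 hi)
    rw [Bool.and_eq_true, Bool.and_eq_true] at h3
    obtain ⟨⟨h4, h5⟩, h6⟩ := h3
    replace h4 := Nat.le_of_ble_eq_true h4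
    replace h5 := Nat.le_of_ble_eq_true h5
    replace h6 := Nat.eq_of_beq_eq_true h6
    generalize WT2.getD i 0 = c at *
    have hLt : Lt [c % 32, c / 32] := lt2 (by omega) (by omega)
    have h7 : Φ (s * mono k [c % 32, c / 32]) = 0 := hI _
    rw [hsum, Finset.sum_mul, map_sum, Finset.sum_eq_single i] at h7
    · rw [smul_mul_assoc, map_smul, ← mono_append] at h7
      change _ • Φ (mono k [i, i, c % 32, c / 32]) = 0 at h7
      rwa [hΦ.four _ rfl (Lt.cons hi (Lt.cons hi hLt)), h6, Nat.cast_one, smul_eq_mul,
        mul_one] at h7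
    · intro j hj hji
      have hj' : j < 30 := Finset.mem_range.1 hj
      rw [smul_mul_assoc, map_smul, ← mono_append]
      change _ • Φ (mono k [j, j, c % 32, c / 32]) = 0
      rw [hΦ.four _ rfl (Lt.cons hj' (Lt.cons hj' hLt)), tau_zero, Nat.cast_zero, smul_zero]
      intro h8
      rw [ws_cons, ws_cons] at h8
      have h9 := tau_one h6
      rw [ws_cons] at h9
      have h10 := w1_lt i
      have h11 := w1_lt j
      exact hji (w1_inj hj' hi (by omega))
    · intro h
      exact absurd (Finset.mem_range.2 hi) h
  rw [hsum]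
  exact Finset.sum_eq_zero fun i hi => by rw [hdiag i (Finset.mem_range.1 hi), zero_smul]

end

end D12aux

theorem d12 : StD12.{u} := fun h1 h2 _ _ Φ hΦ =>
  ⟨D12aux.p1 h1 Φ hΦ, D12aux.p2 h1 h2 Φ hΦ⟩

end Helper94.RG2
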