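import Pool.Agent.Helper94.RG2.St

set_option autoImplicit false

/-!
Project RG2 (MP_16b052_ag, characteristic two), module D3: degree three in one weight.
-/

namespace Helper94.RG2

open MvPolynomial Helper49.RA Finset

universe u

namespace D3aux

variable {k : Type u} [Field k]

/-- the functional `s ↦ Φ (x_a x_b ∂_y s)` -/
noncomputable def psi (Φ : MvPolynomial (Fin 30) k →ₗ[k] k) (y a b : ℕ) :
    MvPolynomial (Fin 30) k →ₗ[k] k :=
  Φ ∘ₗ LinearMap.mulLeft k (mono k [a, b]) ∘ₗ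
    (pderiv (Fin.ofNat 30 y) : Derivation k (MvPolynomial (Fin 30) k)
        (MvPolynomial (Fin 30) k)).toLinearMap

theorem psi_apply (Φ : MvPolynomial (Fin 30) k →ₗ[k] k) (y a b : ℕ)
    (s : MvPolynomial (Fin 30) k) :
    psi Φ y a b s = Φ (mono k [a, b] * pderiv (Fin.ofNat 30 y) s) := rfl

theorem digits {i j l : ℕ} (hi : i < 30) (hj : j < 30) :
    (i + 32 * j + 1024 * l) % 32 = i ∧ (i + 32 * j + 1024 * l) / 32 % 32 = j ∧
      (i + 32 * j + 1024 * l) / 1024 = l := by
  refine ⟨?_, ?_, ?_⟩ <;> omega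

/-- value of the functional at a monomial of degree three -/
theorem psi_mono {Φ : MvPolynomial (Fin 30) k →ₗ[k] k} (hΦ : IsF k Φ) {y a b : ℕ}
    (hy : y < 30) (ha : a < 30) (hb : b < 30) {i j l : ℕ} (hi : i < 30) (hj : j < 30)
    (hl : l < 30) :
    psi Φ y a b (mono k [i, j, l]) =
      (([i, j, l].count y : ℕ) : k) * ((tau ([a, b] ++ [i, j, l].erase y) : ℕ) : k) := by
  have hL : Lt [i, j, l] := Lt.cons hi (Lt.cons hj (Lt.cons hl (fun i hi => absurd hi (by simp))))
  have hab : Lt [a, b] := Lt.cons ha (Lt.cons hb (fun i hi => absurd hi (by simp)))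
  rw [psi_apply, pd_mono y hy _ hL, mul_smul_comm, map_smul, smul_eq_mul, ← mono_append]
  by_cases h : y ∈ [i, j, l]
  · rw [hΦ.four]
    · rw [List.length_append, List.length_erase_of_mem h]
      rfl
    · exact hab.append (hL.erase y)
  · rw [List.count_eq_zero_of_not_mem h, Nat.cast_zero, zero_mul, zero_mul]

/-- comparison with the table -/
theorem term (h2 : (2 : k) = 0) {Φ : MvPolynomial (Fin 30) k →ₗ[k] k} (hΦ : IsF k Φ)
    {c y a b : ℕ} (hc : c < 61) (hy : y < 30) (ha : a < 30) (hb : b < 30)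
    (hw : (c + w1 a + w1 b) % 61 = w1 y) {i j l : ℕ} (hi : i < 30) (hj : j < 30)
    (hl : l < 30) :
    psi Φ y a b (mono k [i, j, l]) =
      if (w1 i + w1 j + w1 l) % 61 = c then
        ((v3 y a b (i + 32 * j + 1024 * l) : ℕ) : k) else 0 := by
  obtain ⟨d1, d2, d3⟩ := digits (l := l) hi hj
  have hv : v3 y a b (i + 32 * j + 1024 * l) = (([i, j, l].count y) *
      tb (k1 i + k1 j + k1 l + 16383 * k1 y + k1 a + k1 b)) % 2 := by
    unfold v3
    rw [d1, d2, d3]
  rw [psi_mono hΦ hy ha hb hi hj hl, hv, ← cast_par h2, Nat.cast_mul]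
  by_cases h : y ∈ [i, j, l]
  · have e1 := ws_erase h
    have e2 : ws ([a, b] ++ [i, j, l].erase y) = w1 a + w1 b + ws ([i, j, l].erase y) := by
      rw [ws_append, ws_cons, ws_cons, ws_nil, add_zero]
    have e3 : ws [i, j, l] = w1 i + w1 j + w1 l := by
      rw [ws_cons, ws_cons, ws_cons, ws_nil]
      omega
    rw [e3] at e1
    by_cases hwc : (w1 i + w1 j + w1 l) % 61 = c
    · rw [if_pos hwc]
      have e4 : ws ([a, b] ++ [i, j, l].erase y) % 61 = 0 := by
        rw [e2]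
        omega
      rw [tau_eq e4, ks_append, ks_cons, ks_cons, ks_nil]
      have e5 : ks [i, j, l] = k1 i + k1 j + k1 l := by
        rw [ks_cons, ks_cons, ks_cons, ks_nil]
        omega
      have e6 := tb_erase h (k1 a + k1 b)
      rw [e5, ← add_assoc] at e6
      rw [e6]
      congr 3
      omega
    · rw [if_neg hwc]
      have e4 : ws ([a, b] ++ [i, j, l].erase y) % 61 ≠ 0 := by
        rw [e2]
        omega
      rw [tau_zero e4, Nat.cast_zero, mul_zero]
  · rw [List.count_eq_zero_of_not_mem h, Nat.cast_zero, zero_mul, zero_mul, ite_self]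

end D3aux

/-- D3 -/
theorem d3 : StEng.{u} → StExp3.{u} → StRow3.{u} → StF3 → StD3.{u} := by
  intro hEng hExp hRow hF k _ h2 Φ hΦ c n RT hc hok hsub hel s hs hds L h3 hL hw
  have hrow : ∀ r ∈ RT.map fun t => row3 (LT c) (t % 32) (t / 32 % 32) (t / 1024),
      ev 32768 (fun t => coeff (fs [t % 32, t / 32 % 32, t / 1024]) s) r = 0 := by
    intro r hr
    obtain ⟨t, ht, rfl⟩ := List.mem_map.1 hr
    have ht1 := List.all_eq_true.1 hok t ht
    unfold ok3 at ht1
    rw [Bool.and_eq_true, Bool.and_eq_true, Bool.and_eq_true] at ht1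
    have hy : t % 32 < 30 := Nat.lt_succ_of_le (Nat.le_of_ble_eq_true ht1.1.1.1)
    have ha : t / 32 % 32 < 30 := Nat.lt_succ_of_le (Nat.le_of_ble_eq_true ht1.1.1.2)
    have hb : t / 1024 < 30 := Nat.lt_succ_of_le (Nat.le_of_ble_eq_true ht1.1.2)
    have hwt : (c + w1 (t / 32 % 32) + w1 (t / 1024)) % 61 = w1 (t % 32) :=
      Nat.eq_of_beq_eq_true ht1.2
    have hzero : D3aux.psi Φ (t % 32) (t / 32 % 32) (t / 1024) s = 0 := by
      rw [D3aux.psi_apply, mul_comm]
      exact hds _ hy _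
    rw [hRow k h2 c hc]
    rw [hExp k (D3aux.psi Φ (t % 32) (t / 32 % 32) (t / 1024)) s hs] at hzero
    refine Eq.trans ?_ hzero
    refine Finset.sum_congr rfl fun i hi => Finset.sum_congr rfl fun j hj =>
      Finset.sum_congr rfl fun l hl => ?_
    have hi' := Finset.mem_range.1 hi
    have hj' := Finset.mem_range.1 hj
    have hl' := Finset.mem_range.1 hl
    obtain ⟨d1, d2, d3⟩ := D3aux.digits (l := l) hi' hj'
    rw [D3aux.term h2 hΦ hc hy ha hb hwt hi' hj' hl']
    simp only [d1, d2, d3]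
    by_cases h1 : i ≤ j ∧ j ≤ l
    · by_cases h4 : (w1 i + w1 j + w1 l) % 61 = c
      · rw [if_pos ⟨h1, h4⟩, if_pos h1, if_pos h4, mul_comm]
      · rw [if_neg (fun h => h4 h.2), if_pos h1, if_neg h4, mul_zero]
    · rw [if_neg (fun h => h1 h.1), if_neg h1]
  obtain ⟨hF1, hF2⟩ := hF c hc
  have hz := hEng k h2 32768 (fun t => coeff (fs [t % 32, t / 32 % 32, t / 1024]) s)
    (F3 (LT c)) n _ hF1 hsub hel hrow
  obtain ⟨i, j, l, hij, hjl, hl, hp⟩ := sorted3 h3 hL
  have hwL : (w1 i + w1 j + w1 l) % 61 = c := by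
    rw [ws_perm hp, ws_cons, ws_cons, ws_cons, ws_nil] at hw
    omega
  have h5 := hz _ (hF2 i j l hij hjl hl hwL)
  obtain ⟨d1, d2, d3⟩ := D3aux.digits (i := i) (j := j) (l := l) (by omega) (by omega)
  simp only [d1, d2, d3] at h5
  rw [fs_perm hp]
  exact h5

end Helper94.RG2
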