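import Pool.Agent.Helper94.RG2.St

set_option autoImplicit false

/-!
Project RG2 (MP_16b052_ag, characteristic two), module D4: degree four in one weight.
-/

namespace Helper94.RG2

open MvPolynomial Helper49.RA Finset

universe u

namespace D4aux

variable {k : Type u} [Field k]

theorem exp1 (G : MvPolynomial (Fin 30) k →ₗ[k] k) (t : MvPolynomial (Fin 30) k) : ∀ A : List ℕ,
    G (qp k A * t) = (A.map fun a => G (mono k [a % 32, a / 32] * t)).sum := by
  intro A
  induction A with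
  | nil => rw [qp_nil, zero_mul, map_zero, List.map_nil, List.sum_nil]
  | cons a A ih => rw [qp_cons, add_mul, map_add, ih, List.map_cons, List.sum_cons]

theorem exp2 (G : MvPolynomial (Fin 30) k →ₗ[k] k) (s : MvPolynomial (Fin 30) k) : ∀ B : List ℕ,
    G (s * qp k B) = (B.map fun b => G (s * mono k [b % 32, b / 32])).sum := by
  intro B
  induction B with
  | nil => rw [qp_nil, mul_zero, map_zero, List.map_nil, List.sum_nil]
  | cons a A ih => rw [qp_cons, mul_add, map_add, ih, List.map_cons, List.sum_cons]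

theorem ev_two_pow (N : ℕ) (g : ℕ → k) (q : ℕ) (hq : q < N) : ev N g (2 ^ q) = g q := by
  unfold ev
  rw [Finset.sum_eq_single q]
  · rw [Nat.testBit_two_pow_self, if_pos rfl]
  · intro p _ hp
    rw [Nat.testBit_two_pow_of_ne (Ne.symm hp), if_neg (by simp)]
  · intro h
    exact absurd (Finset.mem_range.2 hq) h

/-- the product of two quadrics of the lists -/
theorem prod {u N PT c d : ℕ} {G : MvPolynomial (Fin 30) k →ₗ[k] k} {g : ℕ → k}
    (hg : ∀ L : List ℕ, L.length = 4 → Lt L → ws L % 61 = u →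
      ps PT (ks L) < N ∧ G (mono k L) = g (ps PT (ks L)))
    (hcd : (c + d) % 61 = u) {A B : List ℕ}
    (hA : ∀ a ∈ A, a % 32 < 30 ∧ a / 32 < 30 ∧ w2 a % 61 = c)
    (hB : ∀ a ∈ B, a % 32 < 30 ∧ a / 32 < 30 ∧ w2 a % 61 = d) :
    G (qp k A * qp k B) = (A.map fun a => (B.map fun b => g (ps PT (k2 a + k2 b))).sum).sum := by
  rw [exp1]
  apply congrArg
  apply List.map_congr_left
  intro a ha
  rw [exp2]
  apply congrArg
  apply List.map_congr_left
  intro b hb
  obtain ⟨a1, a2, a3⟩ := hA a ha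
  obtain ⟨b1, b2, b3⟩ := hB b hb
  have hL : Lt [a % 32, a / 32, b % 32, b / 32] :=
    Lt.cons a1 (Lt.cons a2 (Lt.cons b1 (Lt.cons b2 (fun i hi => absurd hi (by simp)))))
  have hwa : w2 a = w1 (a % 32) + w1 (a / 32) := rfl
  have hwb : w2 b = w1 (b % 32) + w1 (b / 32) := rfl
  have hka : k2 a = k1 (a % 32) + k1 (a / 32) := rfl
  have hkb : k2 b = k1 (b % 32) + k1 (b / 32) := rfl
  have hw : ws [a % 32, a / 32, b % 32, b / 32] % 61 = u := by
    rw [ws_cons, ws_cons, ws_cons, ws_cons, ws_nil]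
    omega
  have hk : ks [a % 32, a / 32, b % 32, b / 32] = k2 a + k2 b := by
    rw [ks_cons, ks_cons, ks_cons, ks_cons, ks_nil, hka, hkb]
    omega
  have h1 := (hg _ rfl hL hw).2
  rw [hk] at h1
  rw [← h1, ← mono_append]
  rfl

/-- the subtracted functional vanishes on products of two quadrics of the ideal -/
theorem van {Φ : MvPolynomial (Fin 30) k →ₗ[k] k} {q q' : MvPolynomial (Fin 30) k}
    (hq : q ∈ annI Φ) (hq' : q' ∈ annI Φ) (a b : ℕ) :
    Φ (x k b * pderiv (Fin.ofNat 30 a) (q * q')) = 0 := by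
  have e1 : x k b * pderiv (Fin.ofNat 30 a) (q * q') =
      q * (x k b * pderiv (Fin.ofNat 30 a) q') + q' * (x k b * pderiv (Fin.ofNat 30 a) q) := by
    rw [Derivation.leibniz, smul_eq_mul, smul_eq_mul]
    ring
  rw [e1, map_add, hq, hq', add_zero]

end D4aux

/-- D4 -/
theorem d4 : StEng.{u} → StPos.{u} → StRow4.{u} → StQ.{u} → StTri.{u} → StD4.{u} := by
  intro hEng hPos hRow hQ hTri hck k _ h2 Φ hΦ u N PT DC n FR hu hN hP hF hok hsub hel G hG
  obtain ⟨m, c, hmc⟩ := hTri k h2 Φ hΦ u FR hF hok G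
  let V : MvPolynomial (Fin 30) k →ₗ[k] k :=
    (∑ a ∈ range 30, ∑ b ∈ range 30, m a b • (Φ ∘ₗ LinearMap.mulLeft k (x k b) ∘ₗ
      (pderiv (Fin.ofNat 30 a) : Derivation k (MvPolynomial (Fin 30) k)
        (MvPolynomial (Fin 30) k)).toLinearMap)) + c • Φ
  have hV : ∀ s, V s = ∑ a ∈ range 30, ∑ b ∈ range 30,
      m a b * Φ (x k b * pderiv (Fin.ofNat 30 a) s) + c * Φ s := by
    intro s
    show ((∑ a ∈ range 30, ∑ b ∈ range 30, m a b • (Φ ∘ₗ LinearMap.mulLeft k (x k b) ∘ₗ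
      (pderiv (Fin.ofNat 30 a) : Derivation k (MvPolynomial (Fin 30) k)
        (MvPolynomial (Fin 30) k)).toLinearMap)) + c • Φ) s = _
    rw [LinearMap.add_apply, LinearMap.sum_apply]
    simp only [LinearMap.sum_apply, LinearMap.smul_apply, smul_eq_mul]
    rfl
  have hG' : ∀ s, (G - V) s = G s - V s := fun s => LinearMap.sub_apply _ _ _
  have hK : K4 Φ (G - V) := by
    intro q q' hq hq' hqi hqi'
    rw [hG', hG q q' hq hq' hqi hqi', hV, hqi q', mul_zero, add_zero, zero_sub, neg_eq_zero]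
    refine Finset.sum_eq_zero fun a _ => Finset.sum_eq_zero fun b _ => ?_
    rw [D4aux.van hqi hqi', mul_zero]
  obtain ⟨g, hg⟩ := hPos k u N PT DC hu hP (G - V)
  have hprod : ∀ c d : ℕ, c < 61 → d < 61 → (c + d) % 61 = u → ∀ A ∈ QS c, ∀ B ∈ QS d,
      (A.map fun a => (B.map fun b => g (ps PT (k2 a + k2 b))).sum).sum = 0 := by
    intro c d hc hd hcd A hA B hB
    obtain ⟨hA1, hA2⟩ := hQ hck k h2 Φ hΦ c hc A hA
    obtain ⟨hB1, hB2⟩ := hQ hck k h2 Φ hΦ d hd B hB
    rw [← D4aux.prod hg hcd hA1 hB1]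
    exact hK _ _ (qp_hom A) (qp_hom B) hA2 hB2
  have hfree : ∀ p ∈ FR, (dl p.2).length = 4 ∧ Lt (dl p.2) ∧ ws (dl p.2) % 61 = u := by
    intro p hp
    unfold okF at hok
    have h3 := List.all_eq_true.1 hok p hp
    rw [Bool.and_eq_true, Bool.and_eq_true] at h3
    refine ⟨rfl, ?_, ?_⟩
    · intro i hi
      have h4 := List.all_eq_true.1 h3.1.2 i hi
      exact of_decide_eq_true h4
    · exact eq_of_beq h3.2
  have hrow : ∀ r ∈ rows4 PT u 61 (fr4 PT FR), ev 1024 g r = 0 := by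
    intro r hr
    rcases hRow k h2 g PT u hu hprod (fr4 PT FR) r hr with h3 | h3
    · unfold fr4 at h3
      obtain ⟨p, hp, rfl⟩ := List.mem_map.1 h3
      obtain ⟨p1, p2, p3⟩ := hfree p hp
      obtain ⟨g1, g2⟩ := hg _ p1 p2 p3
      rw [D4aux.ev_two_pow 1024 g _ (lt_of_lt_of_le g1 hN), ← g2, hG', hV, hmc p hp, sub_self]
    · exact h3
  have hlt : 2 ^ N - 1 < 2 ^ 1024 :=
    lt_of_lt_of_le (Nat.sub_lt (Nat.two_pow_pos N) Nat.one_pos)
      (Nat.pow_le_pow_right (by norm_num) hN)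
  have hz := hEng k h2 1024 g (2 ^ N - 1) n _ hlt hsub hel hrow
  refine ⟨m, c, fun L h4 hL hw => ?_⟩
  obtain ⟨g1, g2⟩ := hg L h4 hL hw
  have h5 : (2 ^ N - 1).testBit (ps PT (ks L)) = true := by
    rw [Nat.testBit_two_pow_sub_one]
    exact decide_eq_true g1
  rw [hz _ h5, hG', sub_eq_zero] at g2
  rw [g2, hV]

end Helper94.RG2
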