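import Pool.Agent.Helper94.RG2.St

/-!
Project RG2, module D5: degree five in one weight.
-/

namespace Helper94.RG2

open MvPolynomial Helper49.RA Finset

universe u

namespace D5aux

variable {k : Type u} [Field k]

lemma zero_of {G : MvPolynomial (Fin 30) k →ₗ[k] k} {u : ℕ} {z : ℕ → k} (hR : Rep5 G u z)
    (hz : ∀ y < 30, ∀ a < 30, ix ((w1 a + w1 y + 61 - u) % 61) < 30 → z (30 * y + a) = 0)
    (h9 : ix u < 30 → z 900 = 0) (L : List ℕ) (h5 : L.length = 5) (hL : Lt L)
    (hw : ws L % 61 = u) : G (mono k L) = 0 := by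
  match L, h5 with
  | y :: L', h5 =>
    have hy : y < 30 := hL y (by simp)
    have hL' : Lt L' := fun j hj => hL j (List.mem_cons_of_mem _ hj)
    have h4 : L'.length = 4 := by
      rw [List.length_cons] at h5
      omega
    rw [ws_cons] at hw
    rw [mono_cons, hR y hy L' h4 hL' hw]
    have h1 : (L'.map fun a =>
        if ix ((w1 a + w1 y + 61 - u) % 61) < 30 then
          z (30 * y + a) *
            ((tb (ks L' + 16383 * k1 a + k1 (ix ((w1 a + w1 y + 61 - u) % 61))) : ℕ) : k)
        else 0).sum = 0 := by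
      apply List.sum_eq_zero
      intro t ht
      obtain ⟨a, ha, rfl⟩ := List.mem_map.1 ht
      split_ifs with h
      · rw [hz y hy a (hL' a ha) h, zero_mul]
      · rfl
    rw [h1, zero_add]
    split_ifs with h
    · have h2 : ix u < 30 := by
        rw [← h, ix_w1 y hy]
        exact hy
      rw [h9 h2, zero_mul]
    · rfl

lemma ev_two_pow (z : ℕ → k) {p : ℕ} (hp : p < 1024) : ev 1024 z (2 ^ p) = z p := by
  unfold ev
  rw [Finset.sum_eq_single_of_mem p (Finset.mem_range.2 hp)]
  · rw [if_pos]
    rw [Nat.testBit_two_pow]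
    exact decide_eq_true rfl
  · intro q _ hq
    rw [if_neg]
    rw [Nat.testBit_two_pow]
    simpa using fun h => hq h.symm

lemma oth_lt (u : ℕ) : oth u < 30 := by
  unfold oth
  split_ifs <;> omega

lemma oth_ne (u : ℕ) : oth u ≠ ix u := by
  unfold oth
  split_ifs with h <;> omega

end D5aux

open D5aux in
theorem d5 : StEng.{u} → StD5A.{u} → StD5B.{u} → StD5C.{u} → StD5.{u} := by
  intro hE hA hB hC k _ h2 Φ hΦ hP u n RF hu hF hbit h900 hok hsub hel G hG
  obtain ⟨z, hz⟩ := hA k Φ hΦ hP u hu G hG
  have hok' : ∀ c ∈ RF, ok5 u c = true := List.all_eq_true.1 hok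
  by_cases hv : ix u < 30
  · have ho := oth_lt u
    have hn := oth_ne u
    set l0 := z (30 * oth u + ix u) with hl0
    set e0 := z (30 * ix u + oth u) with he0
    have hz' := hB k h2 Φ hΦ u hu hv G z hz l0 e0
    have hun : un5 u = [2 ^ (30 * oth u + ix u), 2 ^ (30 * ix u + oth u)] := if_pos hv
    have hrow : ∀ r ∈ un5 u ++ RF.map (rw5 u), ev 1024 (cor (ix u) l0 e0 z) r = 0 := by
      intro r hr
      rcases List.mem_append.1 hr with h | h
      · rw [hun] at h
        rcases List.mem_cons.1 h with h | h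
        · rw [h, ev_two_pow _ (by omega)]
          unfold cor
          rw [if_neg (by omega), if_pos (by omega), if_neg (by omega), sub_zero, ← hl0, sub_self]
        · rw [List.mem_singleton] at h
          rw [h, ev_two_pow _ (by omega)]
          unfold cor
          rw [if_neg (by omega), if_neg (by omega), if_pos (by omega), sub_zero, ← he0, sub_self]
      · obtain ⟨c, hc, rfl⟩ := List.mem_map.1 h
        exact hC k h2 u hu _ _ hz' c (hok' c hc)
    have hzero := hE k h2 1024 (cor (ix u) l0 e0 z) (F5 u) n _ hF hsub hel hrow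
    refine ⟨fun a => if a = ix u then l0 else 0, fun L h5 hL hw => ?_⟩
    have h1 := zero_of hz' (fun y hy a ha h => hzero _ (hbit y hy a ha h))
      (fun h => hzero _ (h900 h)) L h5 hL hw
    rw [LinearMap.sub_apply, LinearMap.smul_apply, smul_eq_mul] at h1
    have h3 : G (mono k L) = l0 * Φ (pderiv (Fin.ofNat 30 (ix u)) (mono k L)) := sub_eq_zero.1 h1
    rw [h3, Finset.sum_eq_single_of_mem (ix u) (Finset.mem_range.2 hv)]
    · show _ = (if ix u = ix u then l0 else 0) * _
      rw [if_pos rfl]
    · intro a _ ha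
      show (if a = ix u then l0 else 0) * _ = 0
      rw [if_neg ha, zero_mul]
  · have hun : un5 u = [] := if_neg hv
    have hrow : ∀ r ∈ un5 u ++ RF.map (rw5 u), ev 1024 z r = 0 := by
      intro r hr
      rcases List.mem_append.1 hr with h | h
      · rw [hun] at h
        exact absurd h (by simp)
      · obtain ⟨c, hc, rfl⟩ := List.mem_map.1 h
        exact hC k h2 u hu _ _ hz c (hok' c hc)
    have hzero := hE k h2 1024 z (F5 u) n _ hF hsub hel hrow
    refine ⟨fun _ => 0, fun L h5 hL hw => ?_⟩
    rw [zero_of hz (fun y hy a ha h => hzero _ (hbit y hy a ha h))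
      (fun h => absurd h hv) L h5 hL hw]
    simp

end Helper94.RG2
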