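import Pool.Agent.Helper94.RG2.St

set_option autoImplicit false

/-!
Project RG2 (MP_16b052_ag, characteristic two), module D5A: representation of `G` in degree five.
-/

namespace Helper94.RG2

open MvPolynomial Helper49.RA Finset

universe u

namespace D5Aaux

variable {k : Type u} [Field k]

/-- sum over the entries of a list -/
theorem sum_count (f : ℕ → k) : ∀ L : List ℕ, Lt L →
    ∑ a ∈ range 30, (L.count a : k) * f a = (L.map f).sum := by
  intro L
  induction L with
  | nil =>
    intro _
    simp
  | cons i L ih =>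
    intro hL
    have hi : i < 30 := hL i (by simp)
    have hL' : Lt L := fun j hj => hL j (List.mem_cons_of_mem _ hj)
    rw [List.map_cons, List.sum_cons, ← ih hL']
    have h1 : ∀ a ∈ range 30, ((i :: L).count a : k) * f a =
        (if i = a then f a else 0) + (L.count a : k) * f a := by
      intro a _
      rw [List.count_cons]
      by_cases h : i = a
      · rw [if_pos h, if_pos (by simpa using h)]
        push_cast
        ring
      · rw [if_neg h, if_neg (by simpa using h)]
        push_cast
        ring
    rw [Finset.sum_congr rfl h1, Finset.sum_add_distrib, Finset.sum_ite_eq,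
      if_pos (Finset.mem_range.2 hi)]

/-- the inner sum -/
theorem inner {Φ : MvPolynomial (Fin 30) k →ₗ[k] k} (hΦ : IsF k Φ) {u y a : ℕ} (hu : u < 61)
    (ha : a < 30) {L : List ℕ} (h4 : L.length = 4) (hL : Lt L) (hw : (w1 y + ws L) % 61 = u)
    (m : ℕ → k) :
    ∑ b ∈ range 30, m b * Φ (x k b * pderiv (Fin.ofNat 30 a) (mono k L)) =
      (L.count a : k) * (if ix ((w1 a + w1 y + 61 - u) % 61) < 30 then
        m (ix ((w1 a + w1 y + 61 - u) % 61)) *
          ((tb (ks L + 16383 * k1 a + k1 (ix ((w1 a + w1 y + 61 - u) % 61))) : ℕ) : k)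
      else 0) := by
  have hpd : ∀ b ∈ range 30, m b * Φ (x k b * pderiv (Fin.ofNat 30 a) (mono k L)) =
      m b * ((L.count a : k) * ((tau (b :: L.erase a) : ℕ) : k)) := by
    intro b hb
    rw [hΦ.pd ha (Finset.mem_range.1 hb) h4 hL]
  rw [Finset.sum_congr rfl hpd]
  by_cases hm : a ∈ L
  · have he := ws_erase hm
    have hwy := w1_lt y
    have hwa := w1_lt a
    set t := (w1 a + w1 y + 61 - u) % 61 with ht
    have htlt : t < 61 := Nat.mod_lt _ (by norm_num)
    have hz : ∀ b, w1 b ≠ t → tau (b :: L.erase a) = 0 := by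
      intro b hb
      apply tau_zero
      rw [ws_cons]
      intro h0
      apply hb
      have hwb := w1_lt b
      omega
    by_cases hix : ix t < 30
    · rw [if_pos hix]
      have hwi : w1 (ix t) = t := w1_ix t htlt hix
      rw [Finset.sum_eq_single (ix t)]
      · have h5 : tau (ix t :: L.erase a) = tb (ks L + 16383 * k1 a + k1 (ix t)) := by
          rw [tau_eq, tb_erase hm, ks_cons, Nat.add_comm]
          rw [ws_cons, hwi]
          omega
        rw [h5]
        ring
      · intro b hb hne
        have hb' := Finset.mem_range.1 hb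
        have h6 : w1 b ≠ t := by
          intro h7
          apply hne
          rw [← h7, ix_w1 b hb']
        rw [hz b h6, Nat.cast_zero, mul_zero, mul_zero]
      · intro h7
        exact absurd (Finset.mem_range.2 hix) h7
    · rw [if_neg hix, mul_zero]
      refine Finset.sum_eq_zero fun b hb => ?_
      have hb' := Finset.mem_range.1 hb
      have h6 : w1 b ≠ t := by
        intro h7
        apply hix
        rw [← h7, ix_w1 b hb']
        exact hb'
      rw [hz b h6, Nat.cast_zero, mul_zero, mul_zero]
  · rw [List.count_eq_zero_of_not_mem hm, Nat.cast_zero, zero_mul]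
    refine Finset.sum_eq_zero fun b _ => ?_
    rw [zero_mul, mul_zero]

end D5Aaux

/-- D5A -/
theorem d5a : StD5A.{u} := by
  intro k _ Φ hΦ hP u hu G hG
  have hy : ∀ y : ℕ, ∃ (m : ℕ → ℕ → k) (c : k), ∀ L : List ℕ, L.length = 4 → Lt L →
      ws L % 61 = (u + 61 - w1 y) % 61 → G (x k y * mono k L) =
        ∑ a ∈ range 30, ∑ b ∈ range 30,
          m a b * Φ (x k b * pderiv (Fin.ofNat 30 a) (mono k L)) + c * Φ (mono k L) := by
    intro y
    have hK : K4 Φ (G ∘ₗ LinearMap.mulLeft k (x k y)) := by
      intro q q' hq hq' hqi hqi'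
      rw [LinearMap.comp_apply, LinearMap.mulLeft_apply,
        show x k y * (q * q') = q * (x k y * q') by ring]
      refine hG q (x k y * q') hq ?_ hqi ?_
      · exact (x_hom y).mul hq'
      · exact Ideal.mul_mem_left _ _ hqi'
    exact hP ((u + 61 - w1 y) % 61) (Nat.mod_lt _ (by norm_num)) _ hK
  choose m c hmc using hy
  refine ⟨fun p => if p = 900 then c (ix u) else
    m (p / 30) (p % 30) (ix ((w1 (p % 30) + w1 (p / 30) + 61 - u) % 61)), ?_⟩
  intro y hy30 L h4 hL hw
  have hwy := w1_lt y
  have hwL : ws L % 61 = (u + 61 - w1 y) % 61 := by omega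
  rw [hmc y L h4 hL hwL]
  congr 1
  · rw [Finset.sum_congr rfl fun a ha =>
      D5Aaux.inner hΦ hu (Finset.mem_range.1 ha) h4 hL hw (m y a), D5Aaux.sum_count _ L hL]
    apply congrArg
    apply List.map_congr_left
    intro a ha
    have ha30 : a < 30 := hL a ha
    have e1 : 30 * y + a ≠ 900 := by omega
    have e2 : (30 * y + a) / 30 = y := by omega
    have e3 : (30 * y + a) % 30 = a := by omega
    simp only [if_neg e1, e2, e3]
  · by_cases h : w1 y = u
    · rw [if_pos h]
      have h0 : ws L % 61 = 0 := by omega
      have hix : ix u = y := by rw [← h]; exact ix_w1 y hy30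
      simp only [if_true, hix]
      rw [hΦ.four L h4 hL, tau_eq h0]
    · rw [if_neg h]
      have h0 : ws L % 61 ≠ 0 := by omega
      rw [hΦ.zero h4 hL h0, mul_zero]

end Helper94.RG2
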