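import Pool.Agent.Helper94.RG2.St

/-!
Project RG2 (MP_16b052_ag), module D5B: correction of the representation.
-/

namespace Helper94.RG2

open MvPolynomial Helper49.RA Finset

universe u

namespace D5Baux

theorem sum_aux {k : Type u} [Field k] (v : ℕ) (l e T : k) (L : List ℕ) :
    (L.map fun a => ((if a = v then l else 0) + e) * T).sum =
      ((L.count v : k) * l + (L.length : k) * e) * T := by
  induction L with
  | nil => simp
  | cons b L ih =>
    rw [List.map_cons, List.sum_cons, ih, List.length_cons]
    by_cases h : b = v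
    · rw [if_pos h, h, List.count_cons_self]
      push_cast
      ring
    · rw [if_neg h, List.count_cons_of_ne h]
      push_cast
      ring

theorem sum_congr' {k : Type u} [Field k] {f g : ℕ → k} {L : List ℕ} (h : ∀ a ∈ L, f a = g a) :
    (L.map f).sum = (L.map g).sum := by
  rw [List.map_congr_left h]

end D5Baux

open D5Baux in
theorem d5b : StD5B.{u} := by
  intro k _ h2 Φ hΦ u hu hv G z hR l e y hy L h4 hL hw
  obtain ⟨v, hvdef⟩ : ∃ v, v = ix u := ⟨_, rfl⟩
  rw [← hvdef] at hv ⊢
  have hwv : w1 v = u := by rw [hvdef]; exact w1_ix u hu (hvdef ▸ hv)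
  have hG := hR y hy L h4 hL hw
  have hyL : Lt (y :: L) := Lt.cons hy hL
  have h5 : (y :: L).length = 5 := by rw [List.length_cons, h4]
  have hpd := hΦ.pd5 hv h5 hyL
  rw [mono_cons] at hpd
  have hLHS : (G - l • (Φ ∘ₗ (pderiv (Fin.ofNat 30 v)).toLinearMap)) (x k y * mono k L) =
      G (x k y * mono k L) - l * (((y :: L).count v : k) * ((tau ((y :: L).erase v) : ℕ) : k)) := by
    rw [← hpd]
    rfl
  rw [hLHS, hG]
  have hsplit : (L.map fun a =>
      if ix ((w1 a + w1 y + 61 - u) % 61) < 30 then
        z (30 * y + a) * ((tb (ks L + 16383 * k1 a + k1 (ix ((w1 a + w1 y + 61 - u) % 61))) : ℕ) : k)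
      else 0).sum = (L.map fun a =>
      if ix ((w1 a + w1 y + 61 - u) % 61) < 30 then
        cor v l e z (30 * y + a) *
          ((tb (ks L + 16383 * k1 a + k1 (ix ((w1 a + w1 y + 61 - u) % 61))) : ℕ) : k)
      else 0).sum + (L.map fun a =>
      if ix ((w1 a + w1 y + 61 - u) % 61) < 30 then
        ((if a = v then l else 0) + (if y = v then e else 0)) *
          ((tb (ks L + 16383 * k1 a + k1 (ix ((w1 a + w1 y + 61 - u) % 61))) : ℕ) : k)
      else 0).sum := by
    rw [← List.sum_map_add]
    apply sum_congr'
    intro a ha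
    have ha30 := hL a ha
    have e1 : (30 * y + a) % 30 = a := by omega
    have e2 : (30 * y + a) / 30 = y := by omega
    have e3 : 30 * y + a ≠ 900 := by omega
    have e4 : cor v l e z (30 * y + a) =
        z (30 * y + a) - (if a = v then l else 0) - (if y = v then e else 0) := by
      unfold cor
      rw [if_neg e3, e1, e2]
    rw [e4]
    split_ifs <;> ring
  rw [hsplit]
  have hc9 : cor v l e z 900 = z 900 - l := if_pos rfl
  rw [hc9]
  have hmain : l * (((y :: L).count v : k) * ((tau ((y :: L).erase v) : ℕ) : k)) =
      (L.map fun a =>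
      if ix ((w1 a + w1 y + 61 - u) % 61) < 30 then
        ((if a = v then l else 0) + (if y = v then e else 0)) *
          ((tb (ks L + 16383 * k1 a + k1 (ix ((w1 a + w1 y + 61 - u) % 61))) : ℕ) : k)
      else 0).sum + if w1 y = u then l * ((tb (ks L) : ℕ) : k) else 0 := by
    by_cases hyv : y = v
    · rw [hyv] at hw ⊢
      rw [hwv] at hw ⊢
      have hwL : ws L % 61 = 0 := by omega
      have hg : ∀ a ∈ L, (if ix ((w1 a + u + 61 - u) % 61) < 30 then
          ((if a = v then l else 0) + (if v = v then e else 0)) *
            ((tb (ks L + 16383 * k1 a + k1 (ix ((w1 a + u + 61 - u) % 61))) : ℕ) : k)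
          else 0) = ((if a = v then l else 0) + e) * ((tb (ks L) : ℕ) : k) := by
        intro a ha
        have ha30 := hL a ha
        have e1 : (w1 a + u + 61 - u) % 61 = w1 a := by
          have := w1_lt a
          omega
        have e2 : tb (ks L + 16383 * k1 a + k1 a) = tb (ks L) := tb_mod (by omega)
        rw [e1, ix_w1 a ha30, if_pos ha30, if_pos rfl, e2]
      rw [sum_congr' hg, sum_aux, if_pos rfl, List.count_cons_self, List.erase_cons_head,
        tau_eq hwL, h4]
      have h44 : ((4 : ℕ) : k) = 0 := by
        have : ((4 : ℕ) : k) = 2 * 2 := by norm_num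
        rw [this, h2, zero_mul]
      rw [h44]
      push_cast
      ring
    · have hwy : w1 y ≠ u := by
        intro h
        exact hyv (w1_inj hy hv (h.trans hwv.symm))
      have hyu := w1_lt y
      have eβ : (w1 v + w1 y + 61 - u) % 61 = w1 y := by rw [hwv]; omega
      have hg : ∀ a ∈ L, (if ix ((w1 a + w1 y + 61 - u) % 61) < 30 then
          ((if a = v then l else 0) + (if y = v then e else 0)) *
            ((tb (ks L + 16383 * k1 a + k1 (ix ((w1 a + w1 y + 61 - u) % 61))) : ℕ) : k)
          else 0) = ((if a = v then l else 0) + 0) *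
            ((tb (ks L + 16383 * k1 v + k1 y) : ℕ) : k) := by
        intro a ha
        rw [if_neg hyv]
        by_cases hav : a = v
        · rw [hav, eβ, ix_w1 y hy, if_pos hy]
        · rw [if_neg hav, add_zero, zero_mul, zero_mul]
          split_ifs <;> rfl
      rw [sum_congr' hg, sum_aux, if_neg hwy, List.count_cons_of_ne hyv, add_zero,
        List.erase_cons_tail (by simpa using hyv)]
      by_cases hvL : v ∈ L
      · have e1 := ws_erase hvL
        have e2 : ws (y :: L.erase v) % 61 = 0 := by
          rw [ws_cons]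
          rw [hwv] at e1
          omega
        rw [tau_eq e2, ks_cons, tb_erase hvL, Nat.add_comm (k1 y)]
        ring
      · rw [List.count_eq_zero_of_not_mem hvL, Nat.cast_zero]
        ring
  rw [hmain]
  split_ifs <;> ring

end Helper94.RG2
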