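import Pool.Agent.Helper94.RG2.St

/-!
Project RG2 (MP_16b052_ag): module D5C, the rows of degree five vanish on the representation of a
functional.
-/

namespace Helper94.RG2

open MvPolynomial Helper49.RA Finset

universe u

namespace D5Caux

section

variable {k : Type u} [Field k]

lemma ev_zero (N : ℕ) (g : ℕ → k) : ev N g 0 = 0 := by
  unfold ev
  apply Finset.sum_eq_zero
  intro p _
  rw [Nat.zero_testBit]
  exact if_neg Bool.false_ne_true

lemma ev_xor (h2 : (2 : k) = 0) (N : ℕ) (g : ℕ → k) (a b : ℕ) :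
    ev N g (Nat.xor a b) = ev N g a + ev N g b := by
  unfold ev
  rw [← Finset.sum_add_distrib]
  apply Finset.sum_congr rfl
  intro p _
  have h : (Nat.xor a b).testBit p = Bool.xor (a.testBit p) (b.testBit p) := Nat.testBit_xor a b p
  rw [h]
  cases a.testBit p <;> cases b.testBit p <;> simp [add_self h2]

lemma ev_pow (N : ℕ) (g : ℕ → k) {p : ℕ} (hp : p < N) : ev N g (2 ^ p) = g p := by
  unfold ev
  rw [Finset.sum_eq_single p]
  · rw [Nat.testBit_two_pow_self]
    exact if_pos rfl
  · intro q _ hq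
    rw [Nat.testBit_two_pow_of_ne (Ne.symm hq)]
    exact if_neg Bool.false_ne_true
  · intro h
    exact absurd (Finset.mem_range.2 hp) h

lemma ev_mul (N : ℕ) (g : ℕ → k) {p t : ℕ} (hp : p < N) (ht : t < 2) :
    ev N g (t * 2 ^ p) = g p * ((t : ℕ) : k) := by
  rcases (by omega : t = 0 ∨ t = 1) with h | h
  · rw [h, Nat.zero_mul, ev_zero, Nat.cast_zero, mul_zero]
  · rw [h, Nat.one_mul, ev_pow N g hp, Nat.cast_one, mul_one]

lemma ev_sd (u : ℕ) (z : ℕ → k) {y a : ℕ} (hy : y < 30) (ha : a < 30) (K : ℕ) :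
    ev 1024 z (sd u y K a) = if ix ((w1 a + w1 y + 61 - u) % 61) < 30 then
      z (30 * y + a) * ((tb (K + 16383 * k1 a + k1 (ix ((w1 a + w1 y + 61 - u) % 61))) : ℕ) : k)
      else 0 := by
  unfold sd
  split_ifs with h
  · exact ev_mul 1024 z (by omega) (tb_lt _)
  · exact ev_zero _ _

lemma ev_last (u : ℕ) (z : ℕ → k) (y K : ℕ) :
    ev 1024 z (if w1 y = u then tb K * 2 ^ 900 else 0) =
      if w1 y = u then z 900 * ((tb K : ℕ) : k) else 0 := by
  split_ifs with h
  · exact ev_mul 1024 z (by norm_num) (tb_lt _)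
  · exact ev_zero _ _

lemma ev_side (h2 : (2 : k) = 0) {u : ℕ} {G : MvPolynomial (Fin 30) k →ₗ[k] k} {z : ℕ → k}
    (hG : Rep5 G u z) {y a i j l : ℕ} (hy : y < 30) (ha : a < 30) (hi : i < 30) (hj : j < 30)
    (hl : l < 30) (hw : (w1 y + w1 a + w1 i + w1 j + w1 l) % 61 = u) :
    ev 1024 z (side u y (k1 a + k1 i + k1 j + k1 l) a i j l) =
      G (x k y * mono k [a, i, j, l]) := by
  have hL : Lt [a, i, j, l] := by
    intro b hb
    simp only [List.mem_cons, List.not_mem_nil, or_false] at hb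
    rcases hb with h | h | h | h <;> rw [h] <;> assumption
  have hK : ks [a, i, j, l] = k1 a + k1 i + k1 j + k1 l := by
    rw [ks_cons, ks_cons, ks_cons, ks_cons, ks_nil]
    omega
  have hW : (w1 y + ws [a, i, j, l]) % 61 = u := by
    rw [ws_cons, ws_cons, ws_cons, ws_cons, ws_nil, ← hw]
    congr 1
    omega
  rw [hG y hy [a, i, j, l] rfl hL hW, hK]
  unfold side
  rw [ev_xor h2, ev_xor h2, ev_xor h2, ev_xor h2, ev_last, ev_sd u z hy ha, ev_sd u z hy hi,
    ev_sd u z hy hj, ev_sd u z hy hl]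
  rw [List.map_cons, List.map_cons, List.map_cons, List.map_cons, List.map_nil, List.sum_cons,
    List.sum_cons, List.sum_cons, List.sum_cons, List.sum_nil]
  ring

end

end D5Caux

open D5Caux in
theorem d5c : StD5C.{u} := by
  intro k _ h2 u _ G z hG c hc
  unfold ok5 at hc
  simp only [Bool.and_eq_true] at hc
  obtain ⟨⟨⟨⟨⟨h0, h1⟩, h3⟩, h4⟩, h5⟩, h6⟩ := hc
  have h0 := Nat.le_of_ble_eq_true h0
  have h1 := Nat.le_of_ble_eq_true h1
  have h3 := Nat.le_of_ble_eq_true h3
  have h4 := Nat.le_of_ble_eq_true h4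
  have h5 := Nat.le_of_ble_eq_true h5
  have h6 := Nat.eq_of_beq_eq_true h6
  unfold rw5 row5
  generalize c % 32 = y at *
  generalize c / 32 % 32 = a at *
  generalize c / 1024 % 32 = i at *
  generalize c / 32768 % 32 = j at *
  generalize c / 1048576 = l at *
  rw [ev_xor h2, ev_side h2 hG (by omega) (by omega) (by omega) (by omega) (by omega) h6,
    ev_side h2 hG (by omega) (by omega) (by omega) (by omega) (by omega)
      (by rw [← h6]; congr 1; omega)]
  have hm : x k y * mono k [a, i, j, l] = x k a * mono k [y, i, j, l] := by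
    rw [mono_cons, mono_cons (i := y), mul_left_comm]
  rw [hm]
  exact add_self h2 _

end Helper94.RG2
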