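import Pool.Agent.Helper94.RG2.St

/-!
Project RG2, module D6: degree six.
-/

namespace Helper94.RG2

open MvPolynomial Helper49.RA Finset

universe u

namespace D6aux

variable {k : Type u} [Field k] {Φ : MvPolynomial (Fin 30) k →ₗ[k] k}

/-- the index which belongs to the weight `u` and the variable `y` -/
def ay (u y : ℕ) : ℕ := ix ((u + 61 - w1 y) % 61)

lemma k5 {G : MvPolynomial (Fin 30) k →ₗ[k] k} (hG : ∀ s ∈ annI Φ ^ 2, G s = 0) (y : ℕ) :
    K5 Φ (G ∘ₗ LinearMap.mulLeft k (x k y)) := by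
  intro q t _ _ hq ht
  show G (x k y * (q * t)) = 0
  apply hG
  apply Ideal.mul_mem_left
  rw [pow_two]
  exact Ideal.mul_mem_mul hq ht

lemma term (hΦ : IsF k Φ) {u y a : ℕ} (hu : u < 61) (ha : a < 30) {L : List ℕ} (h5 : L.length = 5)
    (hL : Lt L) (hw : (w1 y + ws L) % 61 = u) :
    Φ (pderiv (Fin.ofNat 30 a) (mono k L)) =
      if a = ay u y then ((dt a (ks L) L : ℕ) : k) else 0 := by
  have hy := w1_lt y
  have hwa := w1_lt a
  rw [hΦ.pd5 ha h5 hL]
  unfold dt
  by_cases hm : a ∈ L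
  · have he := ws_erase hm
    split_ifs with h
    · have h1 : w1 a = (u + 61 - w1 y) % 61 := by
        have h2 : ix ((u + 61 - w1 y) % 61) < 30 := by
          have : ix ((u + 61 - w1 y) % 61) = a := h.symm
          rw [this]
          exact ha
        have h3 := w1_ix _ (Nat.mod_lt _ (by norm_num)) h2
        have h4 : ix ((u + 61 - w1 y) % 61) = a := h.symm
        rw [h4] at h3
        exact h3
      have h2 : ws (L.erase a) % 61 = 0 := by omega
      have h3 := tb_erase hm 0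
      rw [Nat.add_zero, Nat.add_zero] at h3
      rw [tau_eq h2, h3, Nat.cast_mul]
    · have h2 : ws (L.erase a) % 61 ≠ 0 := by
        intro h0
        apply h
        have h1 : w1 a = (u + 61 - w1 y) % 61 := by omega
        unfold ay
        rw [← h1, ix_w1 a ha]
      rw [tau_zero h2, Nat.cast_zero, mul_zero]
  · rw [List.count_eq_zero_of_not_mem hm, Nat.zero_mul, Nat.cast_zero, zero_mul]
    split_ifs <;> rfl

lemma val (hΦ : IsF k Φ) {G : MvPolynomial (Fin 30) k →ₗ[k] k} {l : ℕ → k} {y : ℕ}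
    (hl : ∀ s : MvPolynomial (Fin 30) k, s.IsHomogeneous 5 →
      (G ∘ₗ LinearMap.mulLeft k (x k y)) s =
        ∑ a ∈ range 30, l a * Φ (pderiv (Fin.ofNat 30 a) s))
    {u : ℕ} (hu : u < 61) {L : List ℕ} (h5 : L.length = 5) (hL : Lt L)
    (hw : (w1 y + ws L) % 61 = u) :
    G (x k y * mono k L) =
      if ay u y < 30 then l (ay u y) * ((dt (ay u y) (ks L) L : ℕ) : k) else 0 := by
  have hh : (mono k L).IsHomogeneous 5 := by
    have := mono_hom (k := k) L
    rwa [h5] at this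
  have h1 := hl _ hh
  rw [LinearMap.comp_apply, LinearMap.mulLeft_apply] at h1
  rw [h1]
  have h2 : ∀ a ∈ range 30, l a * Φ (pderiv (Fin.ofNat 30 a) (mono k L)) =
      if a = ay u y then l a * ((dt a (ks L) L : ℕ) : k) else 0 := by
    intro a ha
    rw [term hΦ hu (Finset.mem_range.1 ha) h5 hL hw, mul_ite, mul_zero]
  rw [Finset.sum_congr rfl h2, Finset.sum_ite_eq' (range 30) (ay u y)]
  by_cases h : ay u y < 30
  · rw [if_pos (Finset.mem_range.2 h), if_pos h]
  · rw [if_neg (fun h' => h (Finset.mem_range.1 h')), if_neg h]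

lemma wit (hck : ck6 = true) {u y : ℕ} (hu : u < 61) (hy : y < 30) (hb : ay u y < 30) :
    ∃ z i j l m : ℕ, ok6 u y z i j l m = true := by
  unfold ck6 at hck
  have h1 := List.all_eq_true.1 (List.all_eq_true.1 hck u (List.mem_range.2 hu)) y
    (List.mem_range.2 hy)
  rw [Bool.or_eq_true] at h1
  rcases h1 with h1 | h1
  · exfalso
    have h2 : 30 ≤ ay u y := Nat.le_of_ble_eq_true h1
    omega
  · exact ⟨_, _, _, _, _, h1⟩

lemma lam (hck : ck6 = true) (h2 : (2 : k) = 0) (hΦ : IsF k Φ)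
    {G : MvPolynomial (Fin 30) k →ₗ[k] k} {l : ℕ → ℕ → k}
    (hl : ∀ (y : ℕ) (s : MvPolynomial (Fin 30) k), s.IsHomogeneous 5 →
      (G ∘ₗ LinearMap.mulLeft k (x k y)) s =
        ∑ a ∈ range 30, l y a * Φ (pderiv (Fin.ofNat 30 a) s))
    {u y : ℕ} (hu : u < 61) (hy : y < 30) (hb : ay u y < 30) : l y (ay u y) = 0 := by
  obtain ⟨z, i, j, n, m, hok⟩ := wit hck hu hy hb
  unfold ok6 at hok
  rw [Bool.and_eq_true, Bool.and_eq_true, Bool.and_eq_true, Bool.and_eq_true, Bool.and_eq_true,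
    Bool.and_eq_true, Bool.and_eq_true] at hok
  obtain ⟨⟨⟨⟨⟨⟨⟨hz, hi⟩, hj⟩, hn⟩, hm⟩, hw⟩, hodd⟩, hev⟩ := hok
  have hz' : z < 30 := Nat.lt_succ_of_le (Nat.le_of_ble_eq_true hz)
  have hi' : i < 30 := Nat.lt_succ_of_le (Nat.le_of_ble_eq_true hi)
  have hj' : j < 30 := Nat.lt_succ_of_le (Nat.le_of_ble_eq_true hj)
  have hn' : n < 30 := Nat.lt_succ_of_le (Nat.le_of_ble_eq_true hn)
  have hm' : m < 30 := Nat.lt_succ_of_le (Nat.le_of_ble_eq_true hm)
  have hw' : (w1 y + w1 z + w1 i + w1 j + w1 n + w1 m) % 61 = u := Nat.eq_of_beq_eq_true hw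
  have hodd' : dt (ay u y) (k1 z + k1 i + k1 j + k1 n + k1 m) [z, i, j, n, m] % 2 = 1 :=
    Nat.eq_of_beq_eq_true hodd
  have hLt : ∀ t : ℕ, t < 30 → Lt [t, i, j, n, m] := by
    intro t ht q hq
    simp only [List.mem_cons, List.not_mem_nil, or_false] at hq
    rcases hq with rfl | rfl | rfl | rfl | rfl <;> assumption
  have hks : ∀ t : ℕ, ks [t, i, j, n, m] = k1 t + k1 i + k1 j + k1 n + k1 m := by
    intro t
    simp only [ks_cons, ks_nil]
    omega
  have hws : ∀ t : ℕ, ws [t, i, j, n, m] = w1 t + w1 i + w1 j + w1 n + w1 m := by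
    intro t
    simp only [ws_cons, ws_nil]
    omega
  have e1 : G (x k y * mono k [z, i, j, n, m]) = l y (ay u y) := by
    rw [val hΦ (hl y) hu rfl (hLt z hz') (by rw [hws]; rw [← hw']; congr 1; ring), if_pos hb, hks,
      cast_one_of_odd h2 hodd', mul_one]
  have e2 : G (x k z * mono k [y, i, j, n, m]) = 0 := by
    rw [val hΦ (hl z) hu rfl (hLt y hy) (by rw [hws]; rw [← hw']; congr 1; ring)]
    split_ifs with h
    · rw [Bool.or_eq_true] at hev
      rcases hev with hev | hev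
      · exfalso
        have h3 : 30 ≤ ay u z := Nat.le_of_ble_eq_true hev
        omega
      · have h3 : dt (ay u z) (k1 y + k1 i + k1 j + k1 n + k1 m) [y, i, j, n, m] % 2 = 0 :=
          Nat.eq_of_beq_eq_true hev
        rw [hks, cast_zero_of_even h2 h3, mul_zero]
    · rfl
  have e3 : x k y * mono k [z, i, j, n, m] = x k z * mono k [y, i, j, n, m] := by
    rw [mono_cons, mono_cons y, mul_left_comm]
  rw [← e1, e3, e2]

end D6aux

open D6aux in
/-- D6: degree six. -/
theorem d6 : StD6.{u} := by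
  intro hck k _ h2 Φ hΦ hH G hG s hs
  choose l hl using fun y => hH (G ∘ₗ LinearMap.mulLeft k (x k y)) (k5 hG y)
  refine LinearMap.mem_ker.1 (mem_of_mono (LinearMap.ker G) 6 (fun M hM hLt => ?_) s hs)
  rw [LinearMap.mem_ker]
  match M, hM with
  | y :: L, hM =>
    have hy : y < 30 := hLt y (by simp)
    have hL : Lt L := fun j hj => hLt j (List.mem_cons_of_mem _ hj)
    have h5 : L.length = 5 := by
      rw [List.length_cons] at hM
      omega
    have hu : (w1 y + ws L) % 61 < 61 := Nat.mod_lt _ (by norm_num)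
    rw [mono_cons, val hΦ (hl y) hu h5 hL rfl]
    split_ifs with h
    · rw [lam hck h2 hΦ hl hu hy h, zero_mul]
    · rfl

end Helper94.RG2
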