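import Pool.Agent.Helper94.RG2.St

/-!
# ENG: soundness of the elimination
-/

namespace Helper94.RG2

open MvPolynomial Helper49.RA Finset

universe u

namespace Engaux

theorem subs_cons (F v : ℕ) (l : List ℕ) : subs F (v :: l) =
    (Bool.rec false (subs F l) (Nat.beq (Nat.land v F) v) : Bool) := rfl

theorem subs_mem {F : ℕ} : ∀ {l : List ℕ}, subs F l = true → ∀ v ∈ l, v &&& F = v := by
  intro l
  induction l with
  | nil =>
    intro _ v hv
    exact absurd hv (by simp)
  | cons a l ih =>
    intro h v hv
    rw [subs_cons] at h
    cases hb : Nat.beq (Nat.land a F) a with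
    | false => rw [hb] at h; exact absurd h Bool.false_ne_true
    | true =>
      rw [hb] at h
      rcases List.mem_cons.1 hv with h1 | h1
      · rw [h1]
        exact Nat.eq_of_beq_eq_true hb
      · exact ih h v h1

theorem bit_of_and {v F : ℕ} (h : v &&& F = v) {p : ℕ} (hp : v.testBit p = true) :
    F.testBit p = true := by
  rw [← h, Nat.testBit_and] at hp
  simp only [Bool.and_eq_true] at hp
  exact hp.2

theorem ev_xor {k : Type u} [Field k] (h2 : (2 : k) = 0) (N : ℕ) (g : ℕ → k) (v r : ℕ) :
    ev N g (v ^^^ r) = ev N g v + ev N g r := by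
  unfold ev
  rw [← Finset.sum_add_distrib]
  apply Finset.sum_congr rfl
  intro p _
  rw [Nat.testBit_xor]
  cases hv : v.testBit p <;> cases hr : r.testBit p
  · simp
  · simp
  · simp
  · simp [add_self h2]

theorem and_odd (s : ℕ) : (2 * s + 1) &&& (2 * s) = 2 * s := by
  apply Nat.eq_of_testBit_eq
  intro i
  rw [Nat.testBit_and]
  cases i with
  | zero =>
    rw [Nat.testBit_zero, Nat.testBit_zero]
    have h1 : (2 * s) % 2 = 0 := by omega
    rw [h1]
    simp
  | succ i =>
    rw [Nat.testBit_succ, Nat.testBit_succ]
    have h1 : (2 * s + 1) / 2 = s := by omega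
    have h2 : (2 * s) / 2 = s := by omega
    rw [h1, h2, Bool.and_self]

theorem and_even (s t : ℕ) : (2 * s) &&& (2 * t + 1) = 2 * (s &&& t) := by
  apply Nat.eq_of_testBit_eq
  intro i
  rw [Nat.testBit_and]
  cases i with
  | zero =>
    rw [Nat.testBit_zero, Nat.testBit_zero, Nat.testBit_zero]
    have h1 : (2 * s) % 2 = 0 := by omega
    have h2 : (2 * (s &&& t)) % 2 = 0 := by omega
    rw [h1, h2]
    simp
  | succ i =>
    rw [Nat.testBit_succ, Nat.testBit_succ, Nat.testBit_succ]
    have h1 : (2 * t + 1) / 2 = t := by omega
    have h2 : (2 * s) / 2 = s := by omega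
    have h3 : (2 * (s &&& t)) / 2 = s &&& t := by omega
    rw [h1, h2, h3, Nat.testBit_and]

theorem lb_eq (r : ℕ) : lb r = r - (r &&& (r - 1)) := rfl

theorem lb_spec : ∀ r : ℕ, r ≠ 0 → ∃ b : ℕ, lb r = 2 ^ b ∧ r.testBit b = true := by
  intro r
  induction r using Nat.strong_induction_on with
  | _ r ih =>
    intro hr
    rcases Nat.even_or_odd' r with ⟨s, hs | hs⟩
    · have hs0 : s ≠ 0 := by omega
      obtain ⟨b, hb1, hb2⟩ := ih s (by omega) hs0
      refine ⟨b + 1, ?_, ?_⟩
      · rw [lb_eq] at hb1 ⊢
        have h1 : r - 1 = 2 * (s - 1) + 1 := by omega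
        rw [h1, hs, and_even, pow_succ]
        have h2 : s &&& (s - 1) ≤ s := Nat.and_le_left
        omega
      · rw [Nat.testBit_succ, hs]
        have h2 : (2 * s) / 2 = s := by omega
        rw [h2]
        exact hb2
    · refine ⟨0, ?_, ?_⟩
      · rw [lb_eq, hs]
        have h1 : 2 * s + 1 - 1 = 2 * s := by omega
        rw [h1, and_odd]
        have : 2 * s + 1 - 2 * s = 1 := by omega
        rw [this, pow_zero]
      · rw [Nat.testBit_zero, hs]
        have : (2 * s + 1) % 2 = 1 := by omega
        rw [this]
        rfl

theorem clr_nil (r p : ℕ) (acc : List ℕ) : clr r p [] acc = acc := rfl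

theorem clr_cons (r p v : ℕ) (l acc : List ℕ) : clr r p (v :: l) acc =
    (Nat.rec (clr r p l (v :: acc)) (fun _ _ => clr r p l ((v ^^^ r) :: acc)) (v &&& p) :
      List ℕ) := rfl

theorem clr_mem (r p : ℕ) : ∀ (l acc : List ℕ) (w : ℕ), w ∈ clr r p l acc →
    w ∈ acc ∨ ∃ v ∈ l, (v &&& p = 0 ∧ w = v) ∨ (v &&& p ≠ 0 ∧ w = v ^^^ r) := by
  intro l
  induction l with
  | nil =>
    intro acc w hw
    exact Or.inl hw
  | cons v l ih =>
    intro acc w hw
    rw [clr_cons] at hw
    cases hv : (v &&& p) with
    | zero =>
      rw [hv] at hw
      rcases ih _ w hw with h1 | ⟨v', hv', h1⟩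
      · rcases List.mem_cons.1 h1 with h2 | h2
        · exact Or.inr ⟨v, by simp, Or.inl ⟨hv, h2⟩⟩
        · exact Or.inl h2
      · exact Or.inr ⟨v', List.mem_cons_of_mem _ hv', h1⟩
    | succ n =>
      rw [hv] at hw
      rcases ih _ w hw with h1 | ⟨v', hv', h1⟩
      · rcases List.mem_cons.1 h1 with h2 | h2
        · exact Or.inr ⟨v, by simp, Or.inr ⟨by rw [hv]; exact Nat.succ_ne_zero n, h2⟩⟩
        · exact Or.inl h2
      · exact Or.inr ⟨v', List.mem_cons_of_mem _ hv', h1⟩

theorem elim_zero (F : ℕ) (l : List ℕ) (m : ℕ) : elim F 0 l m = Nat.beq m F := rfl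

theorem elim_nil (F n : ℕ) (m : ℕ) : elim F (n + 1) [] m = Nat.beq m F := rfl

theorem elim_cons (F n r : ℕ) (rest : List ℕ) (m : ℕ) : elim F (n + 1) (r :: rest) m =
    (Nat.rec (elim F n rest m)
      (fun _ _ => elim F n (clr r (lb r) rest []) (m + lb r)) r : Bool) := rfl

theorem and_pow_zero {v b : ℕ} (h : v &&& 2 ^ b = 0) : v.testBit b = false := by
  have h1 : (v &&& 2 ^ b).testBit b = false := by rw [h]; exact Nat.zero_testBit b
  rw [Nat.testBit_and, Nat.testBit_two_pow_self, Bool.and_true] at h1
  exact h1

theorem and_pow_ne {v b : ℕ} (h : v &&& 2 ^ b ≠ 0) : v.testBit b = true := by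
  by_contra hc
  apply h
  apply Nat.eq_of_testBit_eq
  intro i
  rw [Nat.testBit_and, Nat.zero_testBit]
  by_cases hi : i = b
  · subst hi
    rw [Bool.not_eq_true] at hc
    rw [hc, Bool.false_and]
  · have h2 : (2 ^ b).testBit i = false := by
      rw [Nat.testBit_two_pow]
      simp only [decide_eq_false_iff_not]
      exact fun h => hi h.symm
    rw [h2, Bool.and_false]

theorem add_pow : ∀ {b m : ℕ} (h : m.testBit b = false) (i : ℕ),
    (m + 2 ^ b).testBit i = (m.testBit i || decide (b = i)) := by
  intro b
  induction b with
  | zero =>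
    intro m h i
    have h0 : m % 2 = 0 := by
      rw [Nat.testBit_zero] at h
      simp only [decide_eq_false_iff_not] at h
      omega
    cases i with
    | zero =>
      rw [Nat.testBit_zero, Nat.testBit_zero]
      have h1 : (m + 2 ^ 0) % 2 = 1 := by
        rw [pow_zero]
        omega
      rw [h1]
      simp
    | succ i =>
      rw [Nat.testBit_succ, Nat.testBit_succ]
      have h1 : (m + 2 ^ 0) / 2 = m / 2 := by
        rw [pow_zero]
        omega
      rw [h1]
      simp
  | succ b ih =>
    intro m h i
    rw [Nat.testBit_succ] at h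
    have hp : (2 : ℕ) ^ (b + 1) = 2 * 2 ^ b := by
      rw [pow_succ, mul_comm]
    cases i with
    | zero =>
      rw [Nat.testBit_zero, Nat.testBit_zero]
      have h1 : (m + 2 ^ (b + 1)) % 2 = m % 2 := by
        rw [hp]
        omega
      rw [h1]
      simp
    | succ i =>
      rw [Nat.testBit_succ, Nat.testBit_succ]
      have : (m + 2 ^ (b + 1)) / 2 = m / 2 + 2 ^ b := by
        rw [hp]
        omega
      rw [this, ih h i]
      simp

theorem main {k : Type u} [Field k] (h2 : (2 : k) = 0) (N : ℕ) (g : ℕ → k) (F : ℕ)
    (hF : F < 2 ^ N) : ∀ (n : ℕ) (l : List ℕ) (m : ℕ), elim F n l m = true →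
    (∀ v ∈ l, ev N g v = 0 ∧ (∀ p, v.testBit p = true → F.testBit p = true ∧
      m.testBit p = false)) →
    ∀ p, F.testBit p = true → m.testBit p = false → g p = 0 := by
  intro n
  induction n with
  | zero =>
    intro l m he _ p hp hm
    rw [elim_zero] at he
    rw [Nat.eq_of_beq_eq_true he, hp] at hm
    exact absurd hm (by decide)
  | succ n ih =>
    intro l m he hl
    cases l with
    | nil =>
      intro p hp hm
      rw [elim_nil] at he
      rw [Nat.eq_of_beq_eq_true he, hp] at hm
      exact absurd hm (by decide)
    | cons r rest =>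
      have hrest : ∀ v ∈ rest, ev N g v = 0 ∧ (∀ p, v.testBit p = true → F.testBit p = true ∧
          m.testBit p = false) := fun v hv => hl v (List.mem_cons_of_mem _ hv)
      rw [elim_cons] at he
      by_cases hr : r = 0
      · subst hr
        exact ih rest m he hrest
      · obtain ⟨r', hr'⟩ := Nat.exists_eq_succ_of_ne_zero hr
        obtain ⟨b, hb1, hb2⟩ := lb_spec r hr
        have he2 : elim F n (clr r (lb r) rest []) (m + lb r) = true := by
          rw [hr'] at he
          rw [hr']
          exact he
        rw [hb1] at he2
        obtain ⟨hr0, hrb⟩ := hl r (by simp)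
        obtain ⟨hFb, hmb⟩ := hrb b hb2
        have hih := ih _ _ he2 (by
          intro w hw
          rcases clr_mem r (2 ^ b) rest [] w hw with h3 | ⟨v, hv, h3 | h3⟩
          · exact absurd h3 (by simp)
          · rw [h3.2]
            refine ⟨(hrest v hv).1, fun p hp => ⟨((hrest v hv).2 p hp).1, ?_⟩⟩
            rw [add_pow hmb, ((hrest v hv).2 p hp).2, Bool.false_or]
            simp only [decide_eq_false_iff_not]
            intro hbp
            have := and_pow_zero h3.1
            rw [hbp, hp] at this
            exact absurd this (by decide)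
          · rw [h3.2]
            refine ⟨?_, fun p hp => ?_⟩
            · rw [ev_xor h2, (hrest v hv).1, hr0, add_zero]
            · rw [Nat.testBit_xor] at hp
              have hvb := and_pow_ne h3.1
              have hcase : v.testBit p = true ∨ r.testBit p = true := by
                cases hv1 : v.testBit p <;> cases hr1 : r.testBit p
                · rw [hv1, hr1] at hp
                  exact absurd hp (by decide)
                · exact Or.inr rfl
                · exact Or.inl rfl
                · exact Or.inl rfl
              have hFm : F.testBit p = true ∧ m.testBit p = false := by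
                rcases hcase with h4 | h4
                · exact (hrest v hv).2 p h4
                · exact hrb p h4
              refine ⟨hFm.1, ?_⟩
              rw [add_pow hmb, hFm.2, Bool.false_or]
              simp only [decide_eq_false_iff_not]
              intro hbp
              rw [← hbp, hvb, hb2] at hp
              exact absurd hp (by decide))
        have hgb : g b = 0 := by
          have h5 : ev N g r = g b := by
            unfold ev
            rw [Finset.sum_eq_single b]
            · rw [hb2]
              simp
            · intro p _ hpb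
              cases hrp : r.testBit p with
              | false => simp
              | true =>
                rw [if_pos rfl]
                obtain ⟨h6, h7⟩ := hrb p hrp
                apply hih p h6
                rw [add_pow hmb, h7, Bool.false_or]
                simp only [decide_eq_false_iff_not]
                exact fun h => hpb h.symm
            · intro hb
              exfalso
              apply hb
              rw [Finset.mem_range]
              by_contra hc
              have h8 : F < 2 ^ b := lt_of_lt_of_le hF (Nat.pow_le_pow_right (by norm_num)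
                (not_lt.1 hc))
              rw [Nat.testBit_lt_two_pow h8] at hFb
              exact absurd hFb (by decide)
          rw [← h5]
          exact hr0
        intro p hp hm
        by_cases hpb : p = b
        · rw [hpb]
          exact hgb
        · apply hih p hp
          rw [add_pow hmb, hm, Bool.false_or]
          simp only [decide_eq_false_iff_not]
          exact fun h => hpb h.symm

end Engaux

theorem eng : StEng.{u} := by
  intro k _ h2 N g F n l hF hs he hl p hp
  refine Engaux.main h2 N g F hF n l 0 he ?_ p hp (Nat.zero_testBit p)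
  intro v hv
  exact ⟨hl v hv, fun q hq => ⟨Engaux.bit_of_and (Engaux.subs_mem hs v hv) hq,
    Nat.zero_testBit q⟩⟩

end Helper94.RG2
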