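import Pool.Agent.Helper94.RG2.St

/-!
Project RG2 (MP_16b052_ag), module EXP3: expansion of a linear functional in degree three.
-/

namespace Helper94.RG2

open MvPolynomial Helper49.RA Finset

universe u

namespace Exp3aux

lemma fs_count (L : List ℕ) (hL : Lt L) (a : ℕ) (ha : a < 30) : fs L (Fin.ofNat 30 a) = L.count a := by
  induction L with
  | nil =>
    rw [List.count_nil]
    rfl
  | cons i L ih =>
    have hL' : Lt L := fun j hj => hL j (List.mem_cons_of_mem _ hj)
    have hi : i < 30 := hL i (by simp)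
    rw [fs_cons, Finsupp.add_apply, ih hL']
    by_cases h : i = a
    · subst h
      rw [Finsupp.single_eq_same, List.count_cons_self, add_comm]
    · have h2 : Fin.ofNat 30 i ≠ Fin.ofNat 30 a := fun h3 => h (ofNat_inj hi ha h3)
      rw [Finsupp.single_apply, if_neg h2, zero_add, List.count_cons_of_ne h]

lemma perm_of_fs {L L' : List ℕ} (hL : Lt L) (hL' : Lt L') (h : fs L = fs L') : L.Perm L' := by
  rw [List.perm_iff_count]
  intro a
  by_cases ha : a < 30
  · rw [← fs_count L hL a ha, ← fs_count L' hL' a ha, h]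
  · rw [List.count_eq_zero_of_not_mem (fun hm => ha (hL a hm)),
      List.count_eq_zero_of_not_mem (fun hm => ha (hL' a hm))]

lemma lt3 {i j l : ℕ} (hi : i < 30) (hj : j < 30) (hl : l < 30) : Lt [i, j, l] := by
  intro a ha
  simp only [List.mem_cons, List.not_mem_nil, or_false] at ha
  rcases ha with h | h | h
  · rw [h]; exact hi
  · rw [h]; exact hj
  · rw [h]; exact hl

lemma sorted_eq {i j l i0 j0 l0 : ℕ} (h1 : i ≤ j) (h2 : j ≤ l) (h3 : i0 ≤ j0) (h4 : j0 ≤ l0)
    (h : [i, j, l].Perm [i0, j0, l0]) : i = i0 ∧ j = j0 ∧ l = l0 := by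
  have hs := h.sum_eq
  simp only [List.sum_cons, List.sum_nil] at hs
  have a1 : i ∈ [i0, j0, l0] := h.subset (by simp)
  have a2 : i0 ∈ [i, j, l] := h.symm.subset (by simp)
  have a3 : l ∈ [i0, j0, l0] := h.subset (by simp)
  have a4 : l0 ∈ [i, j, l] := h.symm.subset (by simp)
  simp only [List.mem_cons, List.not_mem_nil, or_false] at a1 a2 a3 a4
  have e1 : i = i0 := by omega
  have e2 : l = l0 := by omega
  exact ⟨e1, by omega, e2⟩

end Exp3aux

open Exp3aux in
/-- EXP3 -/
theorem exp3 : StExp3.{u} := by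
  intro k _ ψ s hs
  have h := eq_of_mono ψ (∑ i ∈ range 30, ∑ j ∈ range 30, ∑ l ∈ range 30,
    (if i ≤ j ∧ j ≤ l then ψ (mono k [i, j, l]) else 0) • lcoeff k (fs [i, j, l])) 3 ?_ s hs
  · rw [h]
    simp only [LinearMap.sum_apply, LinearMap.smul_apply, smul_eq_mul, lcoeff_apply]
    refine sum_congr rfl fun i _ => sum_congr rfl fun j _ => sum_congr rfl fun l _ => ?_
    split_ifs
    · rw [mul_comm]
    · rw [zero_mul]
  · intro L hL3 hL
    obtain ⟨i0, j0, l0, h1, h2, h3, h4⟩ := sorted3 hL3 hL
    rw [mono_perm h4]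
    simp only [LinearMap.sum_apply, LinearMap.smul_apply, smul_eq_mul, lcoeff_apply]
    have key : ∀ i ∈ range 30, ∀ j ∈ range 30, ∀ l ∈ range 30,
        (if i ≤ j ∧ j ≤ l then ψ (mono k [i, j, l]) else 0) * coeff (fs [i, j, l]) (mono k [i0, j0, l0]) =
        if i = i0 then (if j = j0 then (if l = l0 then ψ (mono k [i0, j0, l0]) else 0) else 0) else 0 := by
      intro i hi j hj l hl
      rw [mem_range] at hi hj hl
      rw [mono_eq [i0, j0, l0], coeff_monomial]
      by_cases hc : i = i0 ∧ j = j0 ∧ l = l0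
      · obtain ⟨rfl, rfl, rfl⟩ := hc
        rw [if_pos ⟨h1, h2⟩, if_pos rfl, if_pos rfl, if_pos rfl, if_pos rfl, mul_one]
        rw [mono_eq]
      · have hr : (if i = i0 then (if j = j0 then (if l = l0 then ψ (monomial (fs [i0, j0, l0]) 1) else 0) else 0) else 0) =
            (0 : k) := by
          split_ifs with c1 c2 c3
          · exact absurd ⟨c1, c2, c3⟩ hc
          · rfl
          · rfl
          · rfl
        rw [hr]
        by_cases hij : i ≤ j ∧ j ≤ l
        · have hne : fs [i0, j0, l0] ≠ fs [i, j, l] := by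
            intro he
            apply hc
            exact sorted_eq hij.1 hij.2 h1 h2
              (perm_of_fs (lt3 (by omega) (by omega) (by omega)) (lt3 hi hj hl) he).symm
          rw [if_neg hne, mul_zero]
        · rw [if_neg hij, zero_mul]
    rw [sum_congr rfl fun i hi => sum_congr rfl fun j hj => sum_congr rfl fun l hl => key i hi j hj l hl]
    have hi0 : i0 ∈ range 30 := mem_range.2 (by omega)
    have hj0 : j0 ∈ range 30 := mem_range.2 (by omega)
    have hl0 : l0 ∈ range 30 := mem_range.2 (by omega)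
    rw [sum_eq_single i0, sum_eq_single j0, sum_eq_single l0]
    · rw [if_pos rfl, if_pos rfl, if_pos rfl]
    · intro b _ hb
      rw [if_pos rfl, if_pos rfl, if_neg hb]
    · intro hb
      exact absurd hl0 hb
    · intro b _ hb
      refine sum_eq_zero fun l _ => ?_
      rw [if_pos rfl, if_neg hb]
    · intro hb
      exact absurd hj0 hb
    · intro b _ hb
      refine sum_eq_zero fun j _ => sum_eq_zero fun l _ => ?_
      rw [if_neg hb]
    · intro hb
      exact absurd hi0 hb

end Helper94.RG2
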