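import Pool.Agent.Helper94.RG2.St

/-!
Project RG2 (MP_16b052_ag, characteristic two): module F3, the set of unknowns in degree three.
-/

namespace Helper94.RG2

open Finset

namespace F3aux

/-- adding a power of two whose bit is not set -/
lemma testBit_add : ∀ (t r p : ℕ), r.testBit t = false →
    (r + 2 ^ t).testBit p = (r.testBit p || decide (p = t)) := by
  intro t
  induction t with
  | zero =>
    intro r p hr
    rw [Nat.testBit_zero] at hr
    have hr2 : r % 2 = 0 := by
      have : ¬ r % 2 = 1 := of_decide_eq_false hr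
      omega
    cases p with
    | zero =>
      rw [Nat.testBit_zero, Nat.testBit_zero]
      have h1 : (r + 2 ^ 0) % 2 = 1 := by
        rw [pow_zero]; omega
      rw [h1]
      simp
    | succ p =>
      rw [Nat.testBit_succ, Nat.testBit_succ]
      have h1 : (r + 2 ^ 0) / 2 = r / 2 := by
        rw [pow_zero]; omega
      rw [h1]
      simp
  | succ t ih =>
    intro r p hr
    rw [Nat.testBit_succ] at hr
    cases p with
    | zero =>
      rw [Nat.testBit_zero, Nat.testBit_zero]
      have h1 : (r + 2 ^ (t + 1)) % 2 = r % 2 := by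
        rw [pow_succ]; omega
      rw [h1]
      simp
    | succ p =>
      rw [Nat.testBit_succ, Nat.testBit_succ]
      have h1 : (r + 2 ^ (t + 1)) / 2 = r / 2 + 2 ^ t := by
        rw [pow_succ]; omega
      rw [h1, ih (r / 2) p hr]
      simp

lemma F3_nil : F3 [] = 0 := rfl

lemma F3_cons (t : ℕ) (l : List ℕ) : F3 (t :: l) = F3 l + 2 ^ t := rfl

/-- the bits of the set of a list -/
lemma testBit_F3 : ∀ (l : List ℕ), l.Nodup → ∀ p, (F3 l).testBit p = true ↔ p ∈ l := by
  intro l
  induction l with
  | nil =>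
    intro _ p
    rw [F3_nil]
    simp
  | cons t l ih =>
    intro hl p
    rw [List.nodup_cons] at hl
    have h1 : (F3 l).testBit t = false := by
      cases h : (F3 l).testBit t with
      | false => rfl
      | true => exact absurd ((ih hl.2 t).1 h) hl.1
    rw [F3_cons, testBit_add t (F3 l) p h1, Bool.or_eq_true, decide_eq_true_eq, ih hl.2 p,
      List.mem_cons]
    tauto

/-- members of the list of codes -/
lemma mem_LT {c t : ℕ} : t ∈ LT c ↔ ∃ i < 30, ∃ j < 30, i ≤ j ∧
    j ≤ ix ((c + 122 - w1 i - w1 j) % 61) ∧ ix ((c + 122 - w1 i - w1 j) % 61) ≤ 29 ∧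
    i + 32 * j + 1024 * ix ((c + 122 - w1 i - w1 j) % 61) = t := by
  unfold LT
  rw [List.mem_flatMap]
  constructor
  · rintro ⟨i, hi, h⟩
    rw [List.mem_map] at h
    obtain ⟨j, hj, h⟩ := h
    rw [List.mem_filter] at hj
    obtain ⟨hj1, hj2⟩ := hj
    rw [Bool.and_eq_true, Bool.and_eq_true] at hj2
    exact ⟨i, List.mem_range.1 hi, j, List.mem_range.1 hj1, Nat.le_of_ble_eq_true hj2.1.1,
      Nat.le_of_ble_eq_true hj2.1.2, Nat.le_of_ble_eq_true hj2.2, h⟩
  · rintro ⟨i, hi, j, hj, h1, h2, h3, h4⟩
    refine ⟨i, List.mem_range.2 hi, ?_⟩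
    rw [List.mem_map]
    refine ⟨j, ?_, h4⟩
    rw [List.mem_filter]
    refine ⟨List.mem_range.2 hj, ?_⟩
    rw [Bool.and_eq_true, Bool.and_eq_true]
    exact ⟨⟨Nat.ble_eq_true_of_le h1, Nat.ble_eq_true_of_le h2⟩, Nat.ble_eq_true_of_le h3⟩

/-- the codes are distinct -/
lemma nodup_LT (c : ℕ) : (LT c).Nodup := by
  unfold LT
  rw [List.nodup_flatMap]
  constructor
  · intro i hi
    have hi' := List.mem_range.1 hi
    refine List.Nodup.map_on ?_ (List.Nodup.filter _ List.nodup_range)
    intro j hj j' hj' h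
    have h1 := List.mem_range.1 (List.mem_filter.1 hj).1
    have h2 := List.mem_range.1 (List.mem_filter.1 hj').1
    omega
  · refine List.Pairwise.imp_of_mem ?_ (List.nodup_range (n := 30))
    intro i i' hi hi' hne
    have h1 := List.mem_range.1 hi
    have h2 := List.mem_range.1 hi'
    intro t ht ht'
    rw [List.mem_map] at ht ht'
    obtain ⟨j, hj, ht⟩ := ht
    obtain ⟨j', hj', ht'⟩ := ht'
    apply hne
    omega

end F3aux

open F3aux in
theorem f3 : StF3 := by
  intro c hc
  have hb := testBit_F3 (LT c) (nodup_LT c)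
  constructor
  · refine Nat.lt_pow_two_of_testBit _ ?_
    intro p hp
    cases h : (F3 (LT c)).testBit p with
    | false => rfl
    | true =>
      exfalso
      obtain ⟨i, hi, j, hj, h1, h2, h3, h4⟩ := mem_LT.1 ((hb p).1 h)
      omega
  · intro i j l hij hjl hl hw
    rw [hb, mem_LT]
    have hwi := w1_lt i
    have hwj := w1_lt j
    have hwl := w1_lt l
    have h1 : (c + 122 - w1 i - w1 j) % 61 = w1 l := by omega
    refine ⟨i, by omega, j, by omega, hij, ?_⟩
    rw [h1, ix_w1 l hl]
    exact ⟨hjl, by omega, rfl⟩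

end Helper94.RG2
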