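import Pool.Agent.Helper94.RG2.St

/-!
Project RG2 (MP_16b052_ag), module H4: from the weights to degree four.
-/

namespace Helper94.RG2

open MvPolynomial Helper49.RA Finset

universe u

namespace H4aux

variable {k : Type u} [Field k]

lemma weight {L : List ℕ} {a b : ℕ} (ha : a ∈ L) (h : ws (b :: L.erase a) % 61 = 0) :
    (w1 a + 61 - w1 b) % 61 = ws L % 61 := by
  have h1 := ws_erase ha
  rw [ws_cons] at h
  have h2 := w1_lt b
  omega

lemma term {Φ : MvPolynomial (Fin 30) k →ₗ[k] k} (hΦ : IsF k Φ) (m : ℕ → ℕ → ℕ → k)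
    {L : List ℕ} (h4 : L.length = 4) (hL : Lt L) {a b : ℕ} (ha : a < 30) (hb : b < 30) :
    m (ws L % 61) a b * Φ (x k b * pderiv (Fin.ofNat 30 a) (mono k L)) =
      m ((w1 a + 61 - w1 b) % 61) a b * Φ (x k b * pderiv (Fin.ofNat 30 a) (mono k L)) := by
  rw [hΦ.pd ha hb h4 hL]
  by_cases h1 : a ∈ L
  · by_cases h2 : ws (b :: L.erase a) % 61 = 0
    · rw [weight h1 h2]
    · rw [tau_zero h2, Nat.cast_zero, mul_zero, mul_zero, mul_zero]
  · rw [List.count_eq_zero_of_not_mem h1, Nat.cast_zero, zero_mul, mul_zero, mul_zero]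

/-- the right side as a linear map -/
noncomputable def rmap (Φ : MvPolynomial (Fin 30) k →ₗ[k] k) (m : ℕ → ℕ → k) (c : k) :
    MvPolynomial (Fin 30) k →ₗ[k] k :=
  (∑ a ∈ range 30, ∑ b ∈ range 30,
    m a b • (Φ ∘ₗ LinearMap.mulLeft k (x k b) ∘ₗ (pderiv (Fin.ofNat 30 a)).toLinearMap)) + c • Φ

lemma rmap_apply (Φ : MvPolynomial (Fin 30) k →ₗ[k] k) (m : ℕ → ℕ → k) (c : k)
    (s : MvPolynomial (Fin 30) k) : rmap Φ m c s = ∑ a ∈ range 30, ∑ b ∈ range 30,
      m a b * Φ (x k b * pderiv (Fin.ofNat 30 a) s) + c * Φ s := by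
  unfold rmap
  rw [LinearMap.add_apply, LinearMap.smul_apply, smul_eq_mul, LinearMap.sum_apply]
  congr 1

end H4aux

open H4aux in
theorem h4 : StH4.{u} := by
  intro k _ Φ hΦ hP G hG
  have h1 : ∀ u : ℕ, ∃ (m : ℕ → ℕ → k) (c : k), u < 61 → ∀ L : List ℕ, L.length = 4 → Lt L →
      ws L % 61 = u → G (mono k L) = ∑ a ∈ range 30, ∑ b ∈ range 30,
        m a b * Φ (x k b * pderiv (Fin.ofNat 30 a) (mono k L)) + c * Φ (mono k L) := by
    intro u
    by_cases hu : u < 61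
    · obtain ⟨m, c, h⟩ := hP u hu G hG
      exact ⟨m, c, fun _ => h⟩
    · exact ⟨fun _ _ => 0, 0, fun h => absurd h hu⟩
  choose m c h using h1
  refine ⟨fun a b => m ((w1 a + 61 - w1 b) % 61) a b, c 0, fun s hs => ?_⟩
  have h2 := eq_of_mono G (rmap Φ (fun a b => m ((w1 a + 61 - w1 b) % 61) a b) (c 0)) 4 (by
    intro L hL4 hL
    rw [rmap_apply, h (ws L % 61) (Nat.mod_lt _ (by norm_num)) L hL4 hL rfl]
    congr 1
    · refine Finset.sum_congr rfl fun a ha => Finset.sum_congr rfl fun b hb => ?_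
      exact term hΦ m hL4 hL (Finset.mem_range.1 ha) (Finset.mem_range.1 hb)
    · by_cases h0 : ws L % 61 = 0
      · rw [h0]
      · rw [hΦ.zero hL4 hL h0, mul_zero, mul_zero]) s hs
  rw [h2, rmap_apply]

end Helper94.RG2
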