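import Pool.Agent.Helper94.RG2.St

/-!
Project RG2 (MP_16b052_ag), module H5: from the weights to degree five.
-/

namespace Helper94.RG2

open MvPolynomial Helper49.RA Finset

universe u

namespace H5aux

variable {k : Type u} [Field k]

lemma term {Φ : MvPolynomial (Fin 30) k →ₗ[k] k} (hΦ : IsF k Φ) (m : ℕ → ℕ → k)
    {L : List ℕ} (h5 : L.length = 5) (hL : Lt L) {a : ℕ} (ha : a < 30) :
    m (ws L % 61) a * Φ (pderiv (Fin.ofNat 30 a) (mono k L)) =
      m (w1 a) a * Φ (pderiv (Fin.ofNat 30 a) (mono k L)) := by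
  rw [hΦ.pd5 ha h5 hL]
  by_cases h1 : a ∈ L
  · by_cases h2 : ws (L.erase a) % 61 = 0
    · have h3 : ws L % 61 = w1 a := by
        have h4 := ws_erase h1
        have h6 := w1_lt a
        omega
      rw [h3]
    · rw [tau_zero h2, Nat.cast_zero, mul_zero, mul_zero, mul_zero]
  · rw [List.count_eq_zero_of_not_mem h1, Nat.cast_zero, zero_mul, mul_zero, mul_zero]

/-- the right side as a linear map -/
noncomputable def rmap (Φ : MvPolynomial (Fin 30) k →ₗ[k] k) (l : ℕ → k) :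
    MvPolynomial (Fin 30) k →ₗ[k] k :=
  ∑ a ∈ range 30, l a • (Φ ∘ₗ (pderiv (Fin.ofNat 30 a)).toLinearMap)

lemma rmap_apply (Φ : MvPolynomial (Fin 30) k →ₗ[k] k) (l : ℕ → k)
    (s : MvPolynomial (Fin 30) k) :
    rmap Φ l s = ∑ a ∈ range 30, l a * Φ (pderiv (Fin.ofNat 30 a) s) := by
  unfold rmap
  rw [LinearMap.sum_apply]
  refine Finset.sum_congr rfl fun a _ => ?_
  rfl

end H5aux

open H5aux in
theorem h5 : StH5.{u} := by
  intro k _ Φ hΦ hP G hG
  have h1 : ∀ u : ℕ, ∃ l : ℕ → k, u < 61 → ∀ L : List ℕ, L.length = 5 → Lt L →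
      ws L % 61 = u → G (mono k L) = ∑ a ∈ range 30,
        l a * Φ (pderiv (Fin.ofNat 30 a) (mono k L)) := by
    intro u
    by_cases hu : u < 61
    · obtain ⟨l, h⟩ := hP u hu G hG
      exact ⟨l, fun _ => h⟩
    · exact ⟨fun _ => 0, fun h => absurd h hu⟩
  choose l h using h1
  refine ⟨fun a => l (w1 a) a, fun s hs => ?_⟩
  have h2 := eq_of_mono G (rmap Φ (fun a => l (w1 a) a)) 5 (by
    intro L hL5 hL
    rw [rmap_apply, h (ws L % 61) (Nat.mod_lt _ (by norm_num)) L hL5 hL rfl]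
    exact Finset.sum_congr rfl fun a ha => term hΦ l hL5 hL (Finset.mem_range.1 ha)) s hs
  rw [h2, rmap_apply]

end Helper94.RG2
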