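import Pool.Agent.Helper94.RG2.St

/-!
Project RG2, module INV: the functional is invariant under the shift `rho`.
-/

namespace Helper94.RG2

open MvPolynomial Helper49.RA Finset

universe u

namespace Invaux

/-- the shift of indices -/
def sh (i : ℕ) : ℕ := (i + 2) % 30

lemma ofNat_sh (i : ℕ) : (Fin.ofNat 30 i + 2 : Fin 30) = Fin.ofNat 30 (sh i) := by
  apply Fin.ext
  rw [Fin.val_add]
  show (i % 30 + 2) % 30 = ((i + 2) % 30) % 30
  omega

lemma rho_x {k : Type u} [Field k] (i : ℕ) : rho (x k i) = x k (sh i) := by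
  unfold rho x
  rw [rename_X, ofNat_sh]

lemma rho_mono {k : Type u} [Field k] (L : List ℕ) : rho (mono k L) = mono k (L.map sh) := by
  induction L with
  | nil => exact map_one _
  | cons i L ih => rw [mono_cons, map_mul, ih, rho_x, List.map_cons, mono_cons]

lemma sh_lt (i : ℕ) : sh i < 30 := Nat.mod_lt _ (by norm_num)

lemma Lt_sh (L : List ℕ) : Lt (L.map sh) := by
  intro i hi
  obtain ⟨j, _, rfl⟩ := List.mem_map.1 hi
  exact sh_lt j

lemma ws_sh {L : List ℕ} (hL : Lt L) : ws (L.map sh) % 61 = (16 * ws L) % 61 := by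
  induction L with
  | nil => rfl
  | cons i L ih =>
    have hi : i < 30 := hL i (by simp)
    have hL' : Lt L := fun j hj => hL j (List.mem_cons_of_mem _ hj)
    have h1 : w1 (sh i) = (16 * w1 i) % 61 := w1_add_two i hi
    have h2 := ih hL'
    rw [List.map_cons, ws_cons, ws_cons, h1]
    omega

theorem spec (h : ckS = true) (i j l m : ℕ) (hij : i ≤ j)
    (hjl : j ≤ l) (hl : l < 30) (hm : m < 30)
    (hmix : ix ((183 - w1 i - w1 j - w1 l) % 61) = m) :
    tb (k1 i + k1 j + k1 l + k1 m) = tb (k1 (sh i) + k1 (sh j) + k1 (sh l) + k1 (sh m)) := by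
  unfold ckS at h
  have h1 := List.all_eq_true.1 h i (List.mem_range.2 (by omega))
  have h2 := List.all_eq_true.1 h1 j (List.mem_range.2 (by omega))
  have e1 : Nat.ble i j = true := Nat.ble_eq_true_of_le hij
  rw [e1, Bool.not_true, Bool.false_or] at h2
  have h3 := List.all_eq_true.1 h2 l (List.mem_range.2 (by omega))
  have e2 : Nat.ble j l = true := Nat.ble_eq_true_of_le hjl
  have e4 : Nat.ble m 29 = true := Nat.ble_eq_true_of_le (by omega)
  rw [e2, Bool.not_true, Bool.false_or, hmix, e4, Bool.not_true, Bool.false_or] at h3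
  exact Nat.eq_of_beq_eq_true h3

lemma tau_sh (h : ckS = true) {L : List ℕ} (h4 : L.length = 4) (hL : Lt L) :
    tau (L.map sh) = tau L := by
  by_cases hw : ws L % 61 = 0
  · have hw' : ws (L.map sh) % 61 = 0 := by
      rw [ws_sh hL]
      omega
    rw [tau_eq hw, tau_eq hw']
    obtain ⟨i, j, l, m, hij, hjl, hlm, hm, hp⟩ := sorted4 h4 hL
    have e1 : ws L = w1 i + (w1 j + (w1 l + (w1 m + 0))) := by
      rw [ws_perm hp, ws_cons, ws_cons, ws_cons, ws_cons, ws_nil]
    have e2 : ks L = k1 i + k1 j + k1 l + k1 m := by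
      rw [ks_perm hp, ks_cons, ks_cons, ks_cons, ks_cons, ks_nil]
      ring
    have e2' : ks (L.map sh) = k1 (sh i) + k1 (sh j) + k1 (sh l) + k1 (sh m) := by
      rw [ks_perm (hp.map sh), List.map_cons, List.map_cons, List.map_cons, List.map_cons,
        List.map_nil, ks_cons, ks_cons, ks_cons, ks_cons, ks_nil]
      ring
    have b1 := w1_lt i
    have b2 := w1_lt j
    have b3 := w1_lt l
    have b4 := w1_lt m
    have e3 : (183 - w1 i - w1 j - w1 l) % 61 = w1 m := by
      rw [e1] at hw
      omega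
    have e4 : ix ((183 - w1 i - w1 j - w1 l) % 61) = m := by
      rw [e3]
      exact ix_w1 m hm
    rw [e2, e2']
    exact (spec h i j l m hij hjl (by omega) hm e4).symm
  · have hw' : ws (L.map sh) % 61 ≠ 0 := by
      rw [ws_sh hL]
      omega
    rw [tau_zero hw, tau_zero hw']

lemma inj2 : Function.Injective fun i : Fin 30 => i + 2 := fun a b h => by
  have h' : a + 2 = b + 2 := h
  exact add_right_cancel h'

lemma phi_rho (h : ckS = true) {k : Type u} [Field k] {Φ : MvPolynomial (Fin 30) k →ₗ[k] k}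
    (hΦ : IsF k Φ) (s : MvPolynomial (Fin 30) k) : Φ (rho s) = Φ s := by
  have key : ∀ (d : ℕ) (t : MvPolynomial (Fin 30) k), t.IsHomogeneous d → Φ (rho t) = Φ t := by
    intro d t ht
    have ht' : (rho t).IsHomogeneous d := IsHomogeneous.rename_isHomogeneous ht
    by_cases hd : d = 4
    · subst hd
      refine eq_of_mono (Φ ∘ₗ (rho : MvPolynomial (Fin 30) k →ₐ[k] _).toLinearMap) Φ 4 ?_ t ht
      intro L h4 hL
      show Φ (rho (mono k L)) = Φ (mono k L)
      rw [rho_mono, hΦ.four _ (by rw [List.length_map, h4]) (Lt_sh L), hΦ.four L h4 hL,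
        tau_sh h h4 hL]
    · rw [hΦ.deg d _ ht' hd, hΦ.deg d t ht hd]
  conv_lhs => rw [← sum_homogeneousComponent s]
  conv_rhs => rw [← sum_homogeneousComponent s]
  rw [map_sum, map_sum, map_sum]
  exact Finset.sum_congr rfl fun e _ => key e _ (homogeneousComponent_isHomogeneous e s)

lemma rho_surj {k : Type u} [Field k] (t : MvPolynomial (Fin 30) k) :
    ∃ t' : MvPolynomial (Fin 30) k, rho t' = t := by
  refine ⟨rename (fun i : Fin 30 => i - 2) t, ?_⟩
  unfold rho
  rw [rename_rename]
  have h : ((fun i : Fin 30 => i + 2) ∘ fun i : Fin 30 => i - 2) = id := by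
    funext i
    exact sub_add_cancel i 2
  rw [h, rename_id_apply]

lemma pd_rho {k : Type u} [Field k] (j : Fin 30) (s : MvPolynomial (Fin 30) k) :
    pderiv (j + 2) (rho s) = rho (pderiv j s) := by
  unfold rho
  exact pderiv_rename inj2 j s

end Invaux

open Invaux in
theorem inv : StInv.{u} := by
  intro h k _
  refine ⟨fun Φ hΦ => ⟨fun s => phi_rho h hΦ s, fun s hs t => ?_⟩, fun L => rho_mono L,
    fun j s => pd_rho j s⟩
  obtain ⟨t', rfl⟩ := rho_surj t
  rw [← map_mul, phi_rho h hΦ]
  exact hs t'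

end Helper94.RG2
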