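import Pool.Agent.Helper94.RG2.St

/-!
Project RG2, module PHI: existence of the functional.
-/

namespace Helper94.RG2

open MvPolynomial Helper49.RA Finset

universe u

namespace Phiaux

/-- the value at an exponent -/
noncomputable def val (m : Fin 30 →₀ ℕ) : ℕ :=
  if m.degree = 4 then tv (∑ i : Fin 30, m i * w1 i) (∑ i : Fin 30, m i * k1 i) else 0

/-- the functional -/
noncomputable def phi0 (k : Type u) [Field k] : MvPolynomial (Fin 30) k →ₗ[k] k :=
  (basisMonomials (Fin 30) k).constr k (fun m => ((val m : ℕ) : k))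

lemma phi0_monomial (k : Type u) [Field k] (m : Fin 30 →₀ ℕ) :
    phi0 k (monomial m 1) = ((val m : ℕ) : k) := by
  have h := (basisMonomials (Fin 30) k).constr_basis k (fun m => ((val m : ℕ) : k)) m
  rwa [coe_basisMonomials] at h

lemma degree_fs (L : List ℕ) : (fs L).degree = L.length := by
  induction L with
  | nil => exact map_zero _
  | cons i L ih => rw [fs_cons, map_add, Finsupp.degree_single, ih, List.length_cons, Nat.add_comm]

lemma sum_fs (f : ℕ → ℕ) (L : List ℕ) (hL : Lt L) :
    ∑ i : Fin 30, fs L i * f i = (L.map f).sum := by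
  induction L with
  | nil =>
    have h : fs [] = 0 := rfl
    rw [h]
    simp
  | cons j L ih =>
    have hL' : Lt L := fun j hj => hL j (List.mem_cons_of_mem _ hj)
    have hj : j < 30 := hL j (by simp)
    have hv : (Fin.ofNat 30 j).val = j := Nat.mod_eq_of_lt hj
    rw [List.map_cons, List.sum_cons, ← ih hL', fs_cons]
    have h1 : ∀ i : Fin 30, (Finsupp.single (Fin.ofNat 30 j) 1 + fs L : Fin 30 →₀ ℕ) i * f i =
        (if Fin.ofNat 30 j = i then f i else 0) + fs L i * f i := by
      intro i
      rw [Finsupp.add_apply, Finsupp.single_apply, add_mul]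
      congr 1
      split_ifs
      · rw [one_mul]
      · rw [zero_mul]
    rw [Finset.sum_congr rfl fun i _ => h1 i, Finset.sum_add_distrib, Finset.sum_ite_eq,
      if_pos (Finset.mem_univ _), hv]

end Phiaux

open Phiaux

theorem phi : StPhi.{u} := by
  intro k _
  refine ⟨phi0 k, ?_, ?_⟩
  · intro L h4 hL
    rw [mono_eq, phi0_monomial]
    unfold Phiaux.val
    rw [degree_fs, if_pos h4, sum_fs w1 L hL, sum_fs k1 L hL]
    rfl
  · intro d s hs hd
    rw [s.as_sum, map_sum]
    refine Finset.sum_eq_zero fun m hm => ?_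
    have hc : coeff m s ≠ 0 := mem_support_iff.1 hm
    have h1 := degree_of_hom hs hc
    have h2 : monomial m (coeff m s) = coeff m s • monomial m (1 : k) := by
      rw [smul_monomial, smul_eq_mul, mul_one]
    rw [h2, map_smul, phi0_monomial]
    unfold Phiaux.val
    rw [if_neg (by rw [h1]; exact hd), Nat.cast_zero, smul_zero]

end Helper94.RG2
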