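import Pool.Agent.Helper94.RG2.St

/-!
# POS: the table gives the values of `G` in weight `u`
-/

namespace Helper94.RG2

open MvPolynomial Helper49.RA Finset

universe u

namespace Posaux


theorem spec {v N PT DC : ℕ} (h : ckP v N PT DC = true) (i j l m : ℕ) (hij : i ≤ j)
    (hjl : j ≤ l) (hlm : l ≤ m) (hm : m < 30)
    (hmix : ix ((v + 183 - w1 i - w1 j - w1 l) % 61) = m) :
    ps PT (k1 i + k1 j + k1 l + k1 m) + 1 ≤ N ∧
      dc DC (ps PT (k1 i + k1 j + k1 l + k1 m)) = i + 32 * j + 1024 * l + 32768 * m := by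
  unfold ckP at h
  have h1 := List.all_eq_true.1 h i (List.mem_range.2 (by omega))
  have h2 := List.all_eq_true.1 h1 j (List.mem_range.2 (by omega))
  have e1 : Nat.ble i j = true := Nat.ble_eq_true_of_le hij
  rw [e1, Bool.not_true, Bool.false_or] at h2
  have h3 := List.all_eq_true.1 h2 l (List.mem_range.2 (by omega))
  have e2 : Nat.ble j l = true := Nat.ble_eq_true_of_le hjl
  have e3 : Nat.ble l m = true := Nat.ble_eq_true_of_le hlm
  have e4 : Nat.ble m 29 = true := Nat.ble_eq_true_of_le (by omega)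
  rw [e2, Bool.not_true, Bool.false_or, hmix, e3, e4, Bool.and_true, Bool.not_true,
    Bool.false_or, Bool.and_eq_true] at h3
  exact ⟨Nat.le_of_ble_eq_true h3.1, Nat.eq_of_beq_eq_true h3.2⟩

theorem dl_code {i j l m : ℕ} (hi : i < 32) (hj : j < 32) (hl : l < 32) :
    dl (i + 32 * j + 1024 * l + 32768 * m) = [i, j, l, m] := by
  unfold dl
  have h1 : (i + 32 * j + 1024 * l + 32768 * m) % 32 = i := by omega
  have h2 : (i + 32 * j + 1024 * l + 32768 * m) / 32 % 32 = j := by omega
  have h3 : (i + 32 * j + 1024 * l + 32768 * m) / 1024 % 32 = l := by omega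
  have h4 : (i + 32 * j + 1024 * l + 32768 * m) / 32768 = m := by omega
  rw [h1, h2, h3, h4]

end Posaux

theorem pos : StPos.{u} := by
  intro k _ v N PT DC hv hck G
  refine ⟨fun n => G (mono k (dl (dc DC n))), ?_⟩
  intro L hL hLt hw
  obtain ⟨i, j, l, m, hij, hjl, hlm, hm, hp⟩ := sorted4 hL hLt
  have e1 : ws L = w1 i + (w1 j + (w1 l + (w1 m + 0))) := by
    rw [ws_perm hp, ws_cons, ws_cons, ws_cons, ws_cons, ws_nil]
  have e2 : ks L = k1 i + k1 j + k1 l + k1 m := by
    rw [ks_perm hp, ks_cons, ks_cons, ks_cons, ks_cons, ks_nil]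
    ring
  have b1 := w1_lt i
  have b2 := w1_lt j
  have b3 := w1_lt l
  have b4 := w1_lt m
  have e3 : (v + 183 - w1 i - w1 j - w1 l) % 61 = w1 m := by
    rw [e1] at hw
    omega
  have e4 : ix ((v + 183 - w1 i - w1 j - w1 l) % 61) = m := by
    rw [e3]
    exact ix_w1 m hm
  obtain ⟨s1, s2⟩ := Posaux.spec hck i j l m hij hjl hlm hm e4
  rw [e2]
  refine ⟨s1, ?_⟩
  show G (mono k L) = G (mono k (dl (dc DC (ps PT (k1 i + k1 j + k1 l + k1 m)))))
  rw [s2, Posaux.dl_code (by omega) (by omega) (by omega), mono_perm hp]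

end Helper94.RG2
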