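import Pool.Agent.Helper94.RG2.St

/-!
Project RG2 (MP_16b052_ag), module Q: the quadrics of the lists are in the ideal.
-/

namespace Helper94.RG2

open MvPolynomial Helper49.RA Finset

universe u

namespace Qaux

lemma check (hck : ckQ = true) {c : ℕ} (hc : c < 61) {A : List ℕ} (hA : A ∈ QS c) :
    (∀ a ∈ A, a % 32 < 30 ∧ a / 32 < 30 ∧ w2 a % 61 = c) ∧
      ∀ i < 30, ∀ j < 30, (w1 i + w1 j + c) % 61 = 0 →
        (A.map fun a => tb (k2 a + k1 i + k1 j)).sum % 2 = 0 := by
  have h1 := List.all_eq_true.1 hck c (List.mem_range.2 hc)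
  rw [Bool.and_eq_true] at h1
  refine ⟨?_, ?_⟩
  · intro a ha
    have h2 := List.all_eq_true.1 (List.all_eq_true.1 h1.1 A hA) a ha
    rw [Bool.and_eq_true, Bool.and_eq_true] at h2
    have h3 := Nat.le_of_ble_eq_true h2.1.1
    have h4 := Nat.le_of_ble_eq_true h2.1.2
    have h5 := Nat.eq_of_beq_eq_true h2.2
    exact ⟨by omega, by omega, h5⟩
  · intro i hi j hj hij
    have h2 := List.all_eq_true.1 (List.all_eq_true.1 h1.2 i (List.mem_range.2 hi)) j
      (List.mem_range.2 hj)
    rw [Bool.or_eq_true] at h2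
    rcases h2 with h2 | h2
    · exfalso
      rw [hij] at h2
      exact absurd h2 (by decide)
    · exact Nat.eq_of_beq_eq_true (List.all_eq_true.1 h2 A hA)

lemma tau_val {a i j : ℕ} (h : (w1 i + w1 j + w2 a) % 61 = 0) :
    tau [a % 32, a / 32, i, j] = tb (k2 a + k1 i + k1 j) := by
  have hw : w2 a = w1 (a % 32) + w1 (a / 32) := rfl
  have hk : k2 a = k1 (a % 32) + k1 (a / 32) := rfl
  rw [tau_eq]
  · rw [ks_cons, ks_cons, ks_cons, ks_cons, ks_nil, hk]
    congr 1
    omega
  · rw [ws_cons, ws_cons, ws_cons, ws_cons, ws_nil]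
    omega

lemma tau_val0 {a i j : ℕ} (h : (w1 i + w1 j + w2 a) % 61 ≠ 0) :
    tau [a % 32, a / 32, i, j] = 0 := by
  have hw : w2 a = w1 (a % 32) + w1 (a / 32) := rfl
  apply tau_zero
  rw [ws_cons, ws_cons, ws_cons, ws_cons, ws_nil]
  omega

lemma phi_sum {k : Type u} [Field k] {Φ : MvPolynomial (Fin 30) k →ₗ[k] k} (hΦ : IsF k Φ)
    (A : List ℕ) (hA : ∀ a ∈ A, a % 32 < 30 ∧ a / 32 < 30) {i j : ℕ} (hi : i < 30) (hj : j < 30) :
    Φ (qp k A * mono k [i, j]) = (((A.map fun a => tau [a % 32, a / 32, i, j]).sum : ℕ) : k) := by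
  induction A with
  | nil =>
    rw [qp_nil, zero_mul, map_zero, List.map_nil, List.sum_nil, Nat.cast_zero]
  | cons a A ih =>
    have h1 := hA a (by simp)
    rw [qp_cons, add_mul, map_add, ih (fun b hb => hA b (List.mem_cons_of_mem _ hb)),
      ← mono_append, List.map_cons, List.sum_cons, Nat.cast_add]
    congr 1
    refine hΦ.four _ rfl ?_
    exact Lt.cons h1.1 (Lt.cons h1.2 (Lt.cons hi (Lt.cons hj (fun _ h => absurd h (by simp)))))

end Qaux

theorem qq : StQ.{u} := by
  intro hck k _ h2 Φ hΦ c hc A hA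
  obtain ⟨hA1, hA2⟩ := Qaux.check hck hc hA
  refine ⟨hA1, hΦ.mem_ann (d := 2) (by norm_num) (qp_hom A) ?_⟩
  intro L hL1 hL2
  match L, hL1, hL2 with
  | [i, j], _, hL2 =>
    have hi : i < 30 := hL2 i (by simp)
    have hj : j < 30 := hL2 j (by simp)
    rw [Qaux.phi_sum hΦ A (fun a ha => ⟨(hA1 a ha).1, (hA1 a ha).2.1⟩) hi hj]
    by_cases h : (w1 i + w1 j + c) % 61 = 0
    · have h3 : (A.map fun a => tau [a % 32, a / 32, i, j]) =
          A.map fun a => tb (k2 a + k1 i + k1 j) := by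
        refine List.map_congr_left fun a ha => ?_
        apply Qaux.tau_val
        have := (hA1 a ha).2.2
        omega
      rw [h3]
      exact cast_zero_of_even h2 (hA2 i hi j hj h)
    · have h3 : (A.map fun a => tau [a % 32, a / 32, i, j]) = A.map fun _ => 0 := by
        refine List.map_congr_left fun a ha => ?_
        apply Qaux.tau_val0
        have := (hA1 a ha).2.2
        omega
      rw [h3, List.map_const', List.sum_replicate, smul_zero, Nat.cast_zero]

end Helper94.RG2
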