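import Pool.Agent.Helper94.RG2.St

/-!
Project RG2 (MP_16b052_ag, characteristic two), module ROW3: evaluation of the rows in degree three.
-/

namespace Helper94.RG2

open Finset

universe u

namespace Row3aux

variable {k : Type u} [Field k]

lemma ev_zero (N : ℕ) (g : ℕ → k) : ev N g 0 = 0 := by
  unfold ev
  apply Finset.sum_eq_zero
  intro p _
  rw [Nat.zero_testBit]
  exact if_neg (by simp)

lemma ev_xor (h2 : (2 : k) = 0) (N : ℕ) (g : ℕ → k) (a b : ℕ) :
    ev N g (Nat.xor a b) = ev N g a + ev N g b := by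
  have hs : ∀ z : k, z + z = 0 := fun z => by rw [← two_mul, h2, zero_mul]
  unfold ev
  rw [← Finset.sum_add_distrib]
  apply Finset.sum_congr rfl
  intro p _
  have h : (Nat.xor a b).testBit p = Bool.xor (a.testBit p) (b.testBit p) := Nat.testBit_xor a b p
  rw [h]
  cases a.testBit p <;> cases b.testBit p <;> simp [hs]

lemma ev_pow (N : ℕ) (g : ℕ → k) {p : ℕ} (hp : p < N) : ev N g (2 ^ p) = g p := by
  unfold ev
  rw [Finset.sum_eq_single p]
  · rw [Nat.testBit_two_pow_self]
    exact if_pos rfl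
  · intro q _ hq
    rw [Nat.testBit_two_pow_of_ne (Ne.symm hq)]
    exact if_neg (by simp)
  · intro h
    exact absurd (Finset.mem_range.2 hp) h

lemma ev_mul (N : ℕ) (g : ℕ → k) {p t : ℕ} (hp : p < N) (ht : t < 2) :
    ev N g (t * 2 ^ p) = ((t : ℕ) : k) * g p := by
  rcases (by omega : t = 0 ∨ t = 1) with h | h
  · rw [h, Nat.zero_mul, ev_zero, Nat.cast_zero, zero_mul]
  · rw [h, Nat.one_mul, ev_pow N g hp, Nat.cast_one, one_mul]

lemma ev_row3 (h2 : (2 : k) = 0) (f : ℕ → k) (y a b : ℕ) (l : List ℕ) (hl : ∀ t ∈ l, t < 32768) :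
    ev 32768 f (row3 l y a b) = (l.map fun t => ((v3 y a b t : ℕ) : k) * f t).sum := by
  induction l with
  | nil => exact ev_zero _ _
  | cons t l ih =>
    have h1 : row3 (t :: l) y a b = Nat.xor (row3 l y a b) (v3 y a b t * 2 ^ t) := rfl
    have hv : v3 y a b t < 2 := Nat.mod_lt _ (by norm_num)
    rw [h1, ev_xor h2, ih (fun s hs => hl s (List.mem_cons_of_mem _ hs)),
      ev_mul 32768 f (hl t List.mem_cons_self) hv, List.map_cons, List.sum_cons, add_comm]

lemma sum_flat (F : ℕ → List ℕ) (h : ℕ → k) (l : List ℕ) :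
    ((l.flatMap F).map h).sum = (l.map fun i => ((F i).map h).sum).sum := by
  induction l with
  | nil => rfl
  | cons a l ih =>
    rw [List.flatMap_cons, List.map_append, List.sum_append, ih, List.map_cons, List.sum_cons]

lemma sum_filter (p : ℕ → Bool) (g : ℕ → k) (l : List ℕ) :
    ((l.filter p).map g).sum = (l.map fun j => if p j = true then g j else 0).sum := by
  induction l with
  | nil => rfl
  | cons a l ih =>
    rw [List.map_cons, List.sum_cons, List.filter_cons]
    by_cases hp : p a = true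
    · rw [if_pos hp, if_pos hp, List.map_cons, List.sum_cons, ih]
    · rw [if_neg hp, if_neg hp, ih, zero_add]

lemma sum_rng (g : ℕ → k) (n : ℕ) : ((List.range n).map g).sum = ∑ i ∈ range n, g i := by
  induction n with
  | zero => simp
  | succ n ih =>
    rw [List.range_succ, List.map_append, List.sum_append, ih, Finset.sum_range_succ,
      List.map_cons, List.map_nil, List.sum_cons, List.sum_nil, add_zero]

lemma mem_LT {c t : ℕ} (h : t ∈ LT c) : t < 32768 := by
  unfold LT at h
  rw [List.mem_flatMap] at h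
  obtain ⟨i, hi, h⟩ := h
  rw [List.mem_map] at h
  obtain ⟨j, hj, rfl⟩ := h
  rw [List.mem_filter] at hj
  have h1 := List.mem_range.1 hi
  have h2 := List.mem_range.1 hj.1
  have h3 := hj.2
  rw [Bool.and_eq_true, Bool.and_eq_true] at h3
  have h4 := Nat.le_of_ble_eq_true h3.2
  omega

end Row3aux

open Row3aux in
/-- evaluation of the rows in degree three -/
theorem row3s : StRow3.{u} := by
  intro k _ h2 c hc f y a b
  rw [ev_row3 h2 f y a b (LT c) (fun t ht => mem_LT ht)]
  unfold LT
  rw [sum_flat, sum_rng]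
  apply Finset.sum_congr rfl
  intro i hi
  rw [List.map_map, Row3aux.sum_filter, sum_rng]
  apply Finset.sum_congr rfl
  intro j hj
  have hi' := Finset.mem_range.1 hi
  have hj' := Finset.mem_range.1 hj
  have hwi := w1_lt i
  have hwj := w1_lt j
  have hv : (c + 122 - w1 i - w1 j) % 61 < 61 := Nat.mod_lt _ (by norm_num)
  by_cases hp : (Nat.ble i j && Nat.ble j (ix ((c + 122 - w1 i - w1 j) % 61)) &&
      Nat.ble (ix ((c + 122 - w1 i - w1 j) % 61)) 29) = true
  · rw [if_pos hp]
    rw [Bool.and_eq_true, Bool.and_eq_true] at hp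
    obtain ⟨⟨p1, p2⟩, p3⟩ := hp
    have q1 := Nat.le_of_ble_eq_true p1
    have q2 := Nat.le_of_ble_eq_true p2
    have q3 := Nat.le_of_ble_eq_true p3
    have q4 : w1 (ix ((c + 122 - w1 i - w1 j) % 61)) = (c + 122 - w1 i - w1 j) % 61 :=
      w1_ix _ hv (by omega)
    rw [Finset.sum_eq_single (ix ((c + 122 - w1 i - w1 j) % 61))]
    · rw [if_pos ⟨⟨q1, q2⟩, by rw [q4]; omega⟩]
      rfl
    · intro l hl hne
      apply if_neg
      rintro ⟨_, h⟩
      apply hne
      have hl' := Finset.mem_range.1 hl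
      have hwl := w1_lt l
      have : w1 l = (c + 122 - w1 i - w1 j) % 61 := by omega
      rw [← this, ix_w1 l hl']
    · intro h
      exact absurd (Finset.mem_range.2 (by omega)) h
  · rw [if_neg hp]
    symm
    apply Finset.sum_eq_zero
    intro l hl
    apply if_neg
    rintro ⟨⟨h1, h2'⟩, h⟩
    apply hp
    have hl' := Finset.mem_range.1 hl
    have hwl := w1_lt l
    have h3 : w1 l = (c + 122 - w1 i - w1 j) % 61 := by omega
    rw [Bool.and_eq_true, Bool.and_eq_true, ← h3, ix_w1 l hl']
    exact ⟨⟨Nat.ble_eq_true_of_le h1, Nat.ble_eq_true_of_le h2'⟩,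
      Nat.ble_eq_true_of_le (by omega)⟩

end Helper94.RG2
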