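import Pool.Agent.Helper94.RG2.St

/-!
Project RG2 (MP_16b052_ag, characteristic two), module ROW4: evaluation of the rows in degree four.
-/

namespace Helper94.RG2

open MvPolynomial Helper49.RA Finset

universe u

namespace Row4aux

section

variable {k : Type u} [Field k]

lemma ev_xor (h2 : (2 : k) = 0) (N : ℕ) (g : ℕ → k) (a b : ℕ) :
    ev N g (a ^^^ b) = ev N g a + ev N g b := by
  unfold ev
  rw [← Finset.sum_add_distrib]
  refine Finset.sum_congr rfl fun p _ => ?_
  rw [Nat.testBit_xor]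
  cases a.testBit p <;> cases b.testBit p
  · simp
  · simp
  · simp
  · simp only [Bool.xor_self, Bool.false_eq_true, if_false, if_true]
    exact (add_self h2 (g p)).symm

lemma ev_two_pow (N : ℕ) (g : ℕ → k) {p : ℕ} (hp : p < N) : ev N g (2 ^ p) = g p := by
  unfold ev
  rw [Finset.sum_eq_single p]
  · rw [Nat.testBit_two_pow_self, if_pos rfl]
  · intro q _ hq
    rw [Nat.testBit_two_pow_of_ne (Ne.symm hq)]
    simp
  · intro h
    exact absurd (Finset.mem_range.2 hp) h

lemma ev_zero (N : ℕ) (g : ℕ → k) : ev N g 0 = 0 := by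
  unfold ev
  refine Finset.sum_eq_zero fun p _ => ?_
  rw [Nat.zero_testBit]
  simp

end

lemma ps_lt (PT K : ℕ) : ps PT K < 1024 := by
  unfold ps
  have h : Nat.land (Nat.shiftRight PT (Nat.mul 10 (Nat.land K 16383))) 1023 ≤ 1023 :=
    Nat.and_le_right
  omega

section

variable {k : Type u} [Field k]

lemma ev_row2 (h2 : (2 : k) = 0) (g : ℕ → k) (PT ka : ℕ) : ∀ (B : List ℕ) (acc : ℕ),
    ev 1024 g (row2 PT ka B acc) =
      ev 1024 g acc + (B.map fun b => g (ps PT (ka + k2 b))).sum := by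
  intro B
  induction B with
  | nil =>
    intro acc
    rw [List.map_nil, List.sum_nil, add_zero]
    rfl
  | cons b B ih =>
    intro acc
    have h1 : row2 PT ka (b :: B) acc = row2 PT ka B (acc ^^^ 2 ^ ps PT (ka + k2 b)) := rfl
    rw [h1, ih, ev_xor h2, ev_two_pow 1024 g (ps_lt _ _), List.map_cons, List.sum_cons, add_assoc]

lemma ev_row (h2 : (2 : k) = 0) (g : ℕ → k) (PT : ℕ) (B : List ℕ) : ∀ (A : List ℕ) (acc : ℕ),
    ev 1024 g (row PT A B acc) =
      ev 1024 g acc + (A.map fun a => (B.map fun b => g (ps PT (k2 a + k2 b))).sum).sum := by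
  intro A
  induction A with
  | nil =>
    intro acc
    rw [List.map_nil, List.sum_nil, add_zero]
    rfl
  | cons a A ih =>
    intro acc
    have h1 : row PT (a :: A) B acc = row PT A B (row2 PT (k2 a) B acc) := rfl
    rw [h1, ih, ev_row2 h2, List.map_cons, List.sum_cons, add_assoc]

end

lemma mem_prodA (PT : ℕ) (A : List ℕ) : ∀ (Bs : List (List ℕ)) (acc : List ℕ) (r : ℕ),
    r ∈ prodA PT A Bs acc → r ∈ acc ∨ ∃ B ∈ Bs, r = row PT A B 0 := by
  intro Bs
  induction Bs with
  | nil =>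
    intro acc r hr
    exact Or.inl hr
  | cons B Bs ih =>
    intro acc r hr
    have h1 : prodA PT A (B :: Bs) acc = prodA PT A Bs (row PT A B 0 :: acc) := rfl
    rw [h1] at hr
    rcases ih _ r hr with h | ⟨B', hB', h⟩
    · rcases List.mem_cons.1 h with h | h
      · exact Or.inr ⟨B, List.mem_cons_self, h⟩
      · exact Or.inl h
    · exact Or.inr ⟨B', List.mem_cons_of_mem _ hB', h⟩

lemma mem_prods (PT : ℕ) (Bs : List (List ℕ)) : ∀ (As : List (List ℕ)) (acc : List ℕ) (r : ℕ),
    r ∈ prods PT As Bs acc → r ∈ acc ∨ ∃ A ∈ As, ∃ B ∈ Bs, r = row PT A B 0 := by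
  intro As
  induction As with
  | nil =>
    intro acc r hr
    exact Or.inl hr
  | cons A As ih =>
    intro acc r hr
    have h1 : prods PT (A :: As) Bs acc = prods PT As Bs (prodA PT A Bs acc) := rfl
    rw [h1] at hr
    rcases ih _ r hr with h | ⟨A', hA', B, hB, h⟩
    · rcases mem_prodA PT A Bs acc r h with h | ⟨B, hB, h⟩
      · exact Or.inl h
      · exact Or.inr ⟨A, List.mem_cons_self, B, hB, h⟩
    · exact Or.inr ⟨A', List.mem_cons_of_mem _ hA', B, hB, h⟩

lemma mem_rows4 (PT v : ℕ) (hv : v < 61) : ∀ (n : ℕ) (acc : List ℕ) (r : ℕ), n ≤ 61 →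
    r ∈ rows4 PT v n acc → r ∈ acc ∨ ∃ c d : ℕ, c < 61 ∧ d < 61 ∧ (c + d) % 61 = v ∧
      ∃ A ∈ QS c, ∃ B ∈ QS d, r = row PT A B 0 := by
  intro n
  induction n with
  | zero =>
    intro acc r _ hr
    exact Or.inl hr
  | succ c ih =>
    intro acc r hn hr
    have h1 : rows4 PT v (c + 1) acc = Bool.rec (rows4 PT v c acc)
        (rows4 PT v c (prods PT (QS c) (QS (Nat.mod (Nat.sub (Nat.add v 61) c) 61)) acc))
        (Nat.ble c (Nat.mod (Nat.sub (Nat.add v 61) c) 61)) := rfl
    rw [h1] at hr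
    cases hb : Nat.ble c (Nat.mod (Nat.sub (Nat.add v 61) c) 61) with
    | false =>
      rw [hb] at hr
      exact ih acc r (by omega) hr
    | true =>
      rw [hb] at hr
      rcases ih _ r (by omega) hr with h | h
      · rcases mem_prods PT _ _ _ r h with h | ⟨A, hA, B, hB, h⟩
        · exact Or.inl h
        · refine Or.inr ⟨c, Nat.mod (Nat.sub (Nat.add v 61) c) 61, by omega,
            Nat.mod_lt _ (by norm_num), ?_, A, hA, B, hB, h⟩
          show (c + (v + 61 - c) % 61) % 61 = v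
          omega
      · exact Or.inr h

end Row4aux

open Row4aux in
/-- ROW4. -/
theorem row4 : StRow4.{u} := by
  intro k _ h2 g PT v hv hz acc r hr
  rcases mem_rows4 PT v hv 61 acc r le_rfl hr with h | ⟨c, d, hc, hd, hcd, A, hA, B, hB, h⟩
  · exact Or.inl h
  · right
    rw [h, ev_row h2, ev_zero, zero_add]
    exact hz c d hc hd hcd A hA B hB

end Helper94.RG2
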