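import Pool.Agent.Helper94.RG2.St
import Pool.Agent.Helper49.RA.M_GEN

/-!
Project RG2 (MP_16b052_ag, characteristic two), module SEC: the criterion.
-/

namespace Helper94.RG2

open MvPolynomial Helper49.RA Finset

universe u

namespace Secaux

variable {k : Type u} [Field k]

lemma pd_comp (s : MvPolynomial (Fin 30) k) (i : Fin 30) (d : ℕ) :
    pderiv i (homogeneousComponent (d + 1) s) = homogeneousComponent d (pderiv i s) := by
  have h1 : pderiv i s = ∑ j ∈ Finset.range (s.totalDegree + 1 + d + 1),
      pderiv i (homogeneousComponent j s) := by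
    have h2 : s = ∑ j ∈ Finset.range (s.totalDegree + 1 + d + 1), homogeneousComponent j s := by
      conv_lhs => rw [← sum_homogeneousComponent s]
      refine Finset.sum_subset (Finset.range_mono (by omega)) fun j _ hj => ?_
      refine homogeneousComponent_eq_zero _ _ ?_
      simpa using hj
    conv_lhs => rw [h2]
    rw [map_sum]
  rw [h1, map_sum, Finset.sum_eq_single (d + 1)]
  · have h3 : (pderiv i (homogeneousComponent (d + 1) s)).IsHomogeneous d :=
      (homogeneousComponent_isHomogeneous (d + 1) s).pderiv
    rw [homogeneousComponent_of_mem h3, if_pos rfl]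
  · intro j _ hj
    rcases j with _ | j
    · rw [homogeneousComponent_zero, pderiv_C, map_zero]
    · have h3 : (pderiv i (homogeneousComponent (j + 1) s)).IsHomogeneous j :=
        (homogeneousComponent_isHomogeneous (j + 1) s).pderiv
      rw [homogeneousComponent_of_mem h3, if_neg]
      omega
  · intro h
    exfalso
    apply h
    rw [Finset.mem_range]
    omega

lemma sep (J : Ideal (MvPolynomial (Fin 30) k)) (r : MvPolynomial (Fin 30) k) (hr : r ∉ J) :
    ∃ G : MvPolynomial (Fin 30) k →ₗ[k] k, G r ≠ 0 ∧ ∀ s ∈ J, G s = 0 := by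
  have hr' : r ∉ J.restrictScalars k := hr
  obtain ⟨G, h1, h2⟩ := Submodule.exists_le_ker_of_notMem hr'
  exact ⟨G, h1, fun s hs => LinearMap.mem_ker.1 (h2 hs)⟩

/-- homogeneous components of elements of the ideal are in the ideal -/
lemma comp_mem {Φ : MvPolynomial (Fin 30) k →ₗ[k] k} (hΦ : IsF k Φ)
    {s : MvPolynomial (Fin 30) k} (hs : s ∈ annI Φ) (d : ℕ) :
    homogeneousComponent d s ∈ annI Φ := by
  rcases Nat.lt_or_ge d 5 with hd | hd
  · refine hΦ.mem_ann (by omega) (homogeneousComponent_isHomogeneous d s) fun L hL1 _ => ?_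
    have h0 : Φ (s * mono k L) = 0 := hs _
    have h1 : Φ (s * mono k L) = ∑ j ∈ Finset.range (s.totalDegree + 1 + d + 1),
        Φ (homogeneousComponent j s * mono k L) := by
      have h2 : s = ∑ j ∈ Finset.range (s.totalDegree + 1 + d + 1), homogeneousComponent j s := by
        conv_lhs => rw [← sum_homogeneousComponent s]
        refine Finset.sum_subset (Finset.range_mono (by omega)) fun j _ hj => ?_
        refine homogeneousComponent_eq_zero _ _ ?_
        simpa using hj
      conv_lhs => rw [h2]
      rw [Finset.sum_mul, map_sum]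
    rw [Finset.sum_eq_single d] at h1
    · rw [← h1, h0]
    · intro j _ hj
      have h3 := (homogeneousComponent_isHomogeneous (R := k) j s).mul (mono_hom (k := k) L)
      exact hΦ.deg _ _ h3 (by omega)
    · intro h
      exfalso
      apply h
      rw [Finset.mem_range]
      omega
  · exact hΦ.mem_ann_of_five hd (homogeneousComponent_isHomogeneous d s)

end Secaux

open Secaux

theorem sec : StSec.{u} := by
  intro k _ Φ hΦ h1 h2 h3 h4 h5 h6 s hs hds
  -- degree six and above
  have hh6 : ∀ d : ℕ, ∀ r : MvPolynomial (Fin 30) k, r.IsHomogeneous (d + 6) → r ∈ annI Φ ^ 2 := by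
    intro d
    induction d with
    | zero =>
      intro r hr
      by_contra hn
      obtain ⟨G, hG1, hG2⟩ := sep _ r hn
      exact hG1 (h6 G hG2 r hr)
    | succ d ih =>
      intro r hr
      have := gen k (Fin 30) ((annI Φ ^ 2).restrictScalars k) (d + 6)
        (fun y t ht => Ideal.mul_mem_left _ _ (ih t ht)) r (by
          have e1 : d + 1 + 6 = d + 6 + 1 := by omega
          rwa [e1] at hr)
      exact this
  -- homogeneous elements
  have key : ∀ d : ℕ, ∀ r : MvPolynomial (Fin 30) k, r.IsHomogeneous d → r ∈ annI Φ →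
      (∀ i, pderiv i r ∈ annI Φ) → r ∈ annI Φ ^ 2 := by
    intro d r hr hrI hrd
    rcases Nat.lt_or_ge d 6 with hd | hd
    · interval_cases d
      · -- degree zero
        have e1 : (X 0 * r : MvPolynomial (Fin 30) k) = 0 := by
          refine h1 _ ?_ (Ideal.mul_mem_left _ _ hrI)
          exact (isHomogeneous_X k (0 : Fin 30)).mul hr
        have e2 : r = 0 := by
          rcases mul_eq_zero.1 e1 with h | h
          · exact absurd h (X_ne_zero _)
          · exact h
        rw [e2]; exact Ideal.zero_mem _
      · rw [h1 r hr hrI]; exact Ideal.zero_mem _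
      · rw [h2 r hr hrI fun a _ => hrd _]; exact Ideal.zero_mem _
      · have e2 : r = 0 := eq_zero_of_coeff hr fun L hL1 hL2 =>
          h3 (ws L % 61) (Nat.mod_lt _ (by norm_num)) r hr (fun a _ => hrd _) L hL1 hL2 rfl
        rw [e2]; exact Ideal.zero_mem _
      · by_contra hn
        obtain ⟨G, hG1, hG2⟩ := sep _ r hn
        obtain ⟨m, c, hm⟩ := h4 G fun q q' _ _ hq hq' =>
          hG2 _ (by rw [pow_two]; exact Ideal.mul_mem_mul hq hq')
        apply hG1
        rw [hm r hr, ann_zero hrI, mul_zero, add_zero]
        refine Finset.sum_eq_zero fun a _ => Finset.sum_eq_zero fun b _ => ?_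
        rw [ann_zero (Ideal.mul_mem_left _ _ (hrd _)), mul_zero]
      · by_contra hn
        obtain ⟨G, hG1, hG2⟩ := sep _ r hn
        obtain ⟨l, hl⟩ := h5 G fun q t _ _ hq ht =>
          hG2 _ (by rw [pow_two]; exact Ideal.mul_mem_mul hq ht)
        apply hG1
        rw [hl r hr]
        exact Finset.sum_eq_zero fun a _ => by rw [ann_zero (hrd _), mul_zero]
    · obtain ⟨d', rfl⟩ := Nat.exists_eq_add_of_le' hd
      exact hh6 d' r hr
  rw [← sum_homogeneousComponent s]
  refine Ideal.sum_mem _ fun d _ => ?_
  refine key d _ (homogeneousComponent_isHomogeneous d s) (comp_mem hΦ hs d) fun i => ?_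
  rcases d with _ | d
  · rw [homogeneousComponent_zero, pderiv_C]
    exact Ideal.zero_mem _
  · rw [pd_comp]
    exact comp_mem hΦ (hds i) d

end Helper94.RG2
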