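import Pool.Agent.Helper94.RG2.St

/-!
Project RG2 (MP_16b052_ag, characteristic two), module T3: transport of `P3`.
-/

namespace Helper94.RG2

open MvPolynomial Helper49.RA Finset

universe u

namespace T3aux

lemma ofNat_add_two (i : ℕ) : Fin.ofNat 30 ((i + 2) % 30) = Fin.ofNat 30 i + 2 := by
  apply Fin.ext
  rw [Fin.val_add]
  change (i + 2) % 30 % 30 = (i % 30 + 2) % 30
  omega

lemma ws_map {L : List ℕ} (hL : Lt L) :
    ws (L.map fun i => (i + 2) % 30) % 61 = (16 * ws L) % 61 := by
  induction L with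
  | nil => rfl
  | cons i L ih =>
    have hi : i < 30 := hL i (by simp)
    have h1 := ih (fun j hj => hL j (List.mem_cons_of_mem _ hj))
    have h2 := w1_add_two i hi
    rw [List.map_cons, ws_cons, ws_cons, h2]
    omega

lemma fs_map (L : List ℕ) :
    fs (L.map fun i => (i + 2) % 30) = Finsupp.mapDomain (fun i : Fin 30 => i + 2) (fs L) := by
  induction L with
  | nil => exact Finsupp.mapDomain_zero.symm
  | cons i L ih =>
    rw [List.map_cons, fs_cons, fs_cons, ih, Finsupp.mapDomain_add, Finsupp.mapDomain_single,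
      ofNat_add_two]

lemma map_back {L : List ℕ} (hL : Lt L) :
    (L.map fun i => (i + 28) % 30).map (fun i => (i + 2) % 30) = L := by
  rw [List.map_map]
  have h : ∀ i ∈ L, ((fun i => (i + 2) % 30) ∘ fun i => (i + 28) % 30) i = id i := by
    intro i hi
    have := hL i hi
    change ((i + 28) % 30 + 2) % 30 = i
    omega
  rw [List.map_congr_left h, List.map_id]

lemma lt_back (L : List ℕ) : Lt (L.map fun i => (i + 28) % 30) := by
  intro j hj
  obtain ⟨i, -, rfl⟩ := List.mem_map.1 hj
  exact Nat.mod_lt _ (by norm_num)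

end T3aux

open T3aux in
theorem t3 : StInv.{u} → StT3.{u} := by
  intro hInv hS k _ Φ hΦ u hu hP s hs hpd L hL1 hL2 hL3
  obtain ⟨i1, -, i3⟩ := hInv hS k
  obtain ⟨j1, -⟩ := i1 Φ hΦ
  have hrho : rho (rename (fun i : Fin 30 => i - 2) s) = s := by
    unfold rho
    rw [rename_rename]
    have h : (fun i : Fin 30 => i + 2) ∘ (fun i : Fin 30 => i - 2) = id := by
      funext i
      exact sub_add_cancel i 2
    rw [h, rename_id, AlgHom.id_apply]
  set s' : MvPolynomial (Fin 30) k := rename (fun i : Fin 30 => i - 2) s with hs'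
  have hs'3 : s'.IsHomogeneous 3 := hs.rename_isHomogeneous
  have hpd' : ∀ a < 30, pderiv (Fin.ofNat 30 a) s' ∈ annI Φ := by
    intro a ha t
    have h1 := hpd ((a + 2) % 30) (Nat.mod_lt _ (by norm_num))
    rw [ofNat_add_two, ← hrho, i3] at h1
    rw [← j1, map_mul]
    exact h1 (rho t)
  have hL' := hP s' hs'3 hpd' (L.map fun i => (i + 28) % 30) (by rw [List.length_map, hL1])
    (lt_back L) (by
      have h1 := ws_map (lt_back L)
      rw [map_back hL2, hL3] at h1
      omega)
  have h2 := fs_map (L.map fun i => (i + 28) % 30)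
  rw [map_back hL2] at h2
  rw [h2, ← hrho]
  unfold rho
  rw [coeff_rename_mapDomain _ (add_left_injective (2 : Fin 30))]
  exact hL'

end Helper94.RG2
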