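import Pool.Agent.Helper94.RG2.St

/-!
Project RG2 (MP_16b052_ag, characteristic two), module T4: transport of `P4`.
-/

namespace Helper94.RG2

open MvPolynomial Helper49.RA Finset

universe u

namespace T4aux

/-- the two shifts are inverse to each other -/
lemma back {i : ℕ} (hi : i < 30) : ((i + 28) % 30 + 2) % 30 = i := by omega

lemma map_back {L : List ℕ} (hL : Lt L) :
    (L.map fun i => (i + 28) % 30).map (fun i => (i + 2) % 30) = L := by
  induction L with
  | nil => rfl
  | cons i L ih =>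
    have hi : i < 30 := hL i (by simp)
    have hL' : Lt L := fun j hj => hL j (List.mem_cons_of_mem _ hj)
    rw [List.map_cons, List.map_cons, ih hL', back hi]

lemma lt_back (L : List ℕ) : Lt (L.map fun i => (i + 28) % 30) := by
  intro j hj
  obtain ⟨i, -, rfl⟩ := List.mem_map.1 hj
  exact Nat.mod_lt _ (by norm_num)

lemma ws_shift {L : List ℕ} (hL : Lt L) :
    (16 * ws L) % 61 = ws (L.map fun i => (i + 2) % 30) % 61 := by
  induction L with
  | nil => rfl
  | cons i L ih =>
    have hi : i < 30 := hL i (by simp)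
    have hL' : Lt L := fun j hj => hL j (List.mem_cons_of_mem _ hj)
    have h1 := ih hL'
    have h2 := w1_add_two i hi
    rw [List.map_cons, ws_cons, ws_cons, h2]
    omega

lemma reindex {M : Type*} [AddCommMonoid M] (f : ℕ → M) :
    ∑ a ∈ range 30, f a = ∑ a ∈ range 30, f ((a + 28) % 30) := by
  symm
  refine Finset.sum_nbij' (fun a => (a + 28) % 30) (fun a => (a + 2) % 30) ?_ ?_ ?_ ?_ ?_
  · intro a _
    exact mem_range.2 (Nat.mod_lt _ (by norm_num))
  · intro a _
    exact mem_range.2 (Nat.mod_lt _ (by norm_num))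
  · intro a ha
    exact back (mem_range.1 ha)
  · intro a ha
    have := mem_range.1 ha
    show ((a + 2) % 30 + 28) % 30 = a
    omega
  · intro a _
    rfl

lemma fin_back (a : ℕ) :
    Fin.ofNat 30 ((a + 28) % 30) + 2 = Fin.ofNat 30 a := by
  apply Fin.ext
  show (((a + 28) % 30) % 30 + 2) % 30 = a % 30
  omega

end T4aux

open T4aux in
/-- T4: transport of `P4`. -/
theorem t4 : StInv.{u} → StT4.{u} := by
  intro hI hS k _ Φ hΦ u hu hP G hG
  obtain ⟨hinv, hmono, hpd⟩ := hI hS k
  obtain ⟨h1, h2⟩ := hinv Φ hΦ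
  have hhom : ∀ (d : ℕ) (s : MvPolynomial (Fin 30) k), s.IsHomogeneous d →
      (rho (k := k) s).IsHomogeneous d := fun d s hs => hs.rename_isHomogeneous
  have hG' : K4 Φ (G ∘ₗ (rho (k := k)).toLinearMap) := by
    intro q q' hq hq' hqI hqI'
    show G (rho (q * q')) = 0
    rw [map_mul]
    exact hG _ _ (hhom 2 q hq) (hhom 2 q' hq') (h2 q hqI) (h2 q' hqI')
  obtain ⟨m, c, hmc⟩ := hP _ hG'
  refine ⟨fun a b => m ((a + 28) % 30) ((b + 28) % 30), c, fun L hL4 hLt hw => ?_⟩
  obtain ⟨L', hL'⟩ : ∃ L' : List ℕ, L' = L.map fun i => (i + 28) % 30 := ⟨_, rfl⟩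
  have hb : L'.map (fun i => (i + 2) % 30) = L := by rw [hL']; exact map_back hLt
  have hLt' : Lt L' := by rw [hL']; exact lt_back L
  have hL4' : L'.length = 4 := by rw [hL', List.length_map, hL4]
  have e1 : rho (mono k L') = mono k L := by rw [hmono, hb]
  have hw' : ws L' % 61 = u := by
    have h3 := ws_shift hLt'
    rw [hb, hw] at h3
    omega
  have e2 := hmc L' hL4' hLt' hw'
  have e3 : (G ∘ₗ (rho (k := k)).toLinearMap) (mono k L') = G (mono k L) := by
    show G (rho (mono k L')) = G (mono k L)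
    rw [e1]
  have e4 : Φ (mono k L') = Φ (mono k L) := by rw [← h1, e1]
  have hx : ∀ b < 30, rho (x k ((b + 28) % 30)) = x k b := by
    intro b hb'
    have h3 := hmono [(b + 28) % 30]
    rw [List.map_cons, List.map_nil, back hb', mono_cons, mono_cons, mono_nil, mul_one,
      mul_one] at h3
    exact h3
  rw [← e3, e2, e4]
  congr 1
  rw [reindex]
  refine Finset.sum_congr rfl fun a ha => ?_
  rw [reindex]
  refine Finset.sum_congr rfl fun b hb' => ?_
  have ha' := mem_range.1 ha
  have hb'' := mem_range.1 hb'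
  have e5 : Φ (x k ((b + 28) % 30) * pderiv (Fin.ofNat 30 ((a + 28) % 30)) (mono k L')) =
      Φ (x k b * pderiv (Fin.ofNat 30 a) (mono k L)) := by
    rw [← h1, map_mul, hx b hb'', ← hpd, fin_back a, e1]
  rw [e5]

end Helper94.RG2
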