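import Pool.Agent.Helper94.RG2.St

/-!
# T5: transport of `P5` (degree five) by the shift of the variables
-/

namespace Helper94.RG2

open MvPolynomial Helper49.RA Finset

universe u

namespace T5aux

/-- the inverse shift on indices -/
theorem back {i : ℕ} (hi : i < 30) : ((i + 28) % 30 + 2) % 30 = i := by omega

theorem forth {i : ℕ} (hi : i < 30) : ((i + 2) % 30 + 28) % 30 = i := by omega

theorem map_back {L : List ℕ} (hL : Lt L) :
    (L.map fun i => (i + 28) % 30).map (fun i => (i + 2) % 30) = L := by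
  rw [List.map_map]
  conv_rhs => rw [← List.map_id L]
  apply List.map_congr_left
  intro i hi
  exact back (hL i hi)

theorem lt_map (L : List ℕ) : Lt (L.map fun i => (i + 28) % 30) := by
  intro i hi
  obtain ⟨j, -, rfl⟩ := List.mem_map.1 hi
  exact Nat.mod_lt _ (by norm_num)

theorem ws_map {L : List ℕ} (hL : Lt L) :
    (16 * ws (L.map fun i => (i + 28) % 30)) % 61 = ws L % 61 := by
  induction L with
  | nil => rfl
  | cons i L ih =>
    have h1 := ih (fun j hj => hL j (List.mem_cons_of_mem _ hj))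
    have hi : i < 30 := hL i (by simp)
    have h2 := w1_add_two ((i + 28) % 30) (Nat.mod_lt _ (by norm_num))
    rw [back hi] at h2
    rw [List.map_cons, ws_cons, ws_cons]
    omega

theorem ofNat_two (a : ℕ) : Fin.ofNat 30 a + 2 = Fin.ofNat 30 ((a + 2) % 30) := by
  apply Fin.ext
  rw [Fin.val_add]
  show (a % 30 + 2 % 30) % 30 = (a + 2) % 30 % 30
  omega

end T5aux

open T5aux

theorem t5 : StInv.{u} → StT5.{u} := by
  intro hI hS k _ Φ hΦ u hu hP G hG
  obtain ⟨hinv, hmono, hpd⟩ := hI hS k
  obtain ⟨hphi, hann⟩ := hinv Φ hΦ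
  have hK : K5 Φ (G ∘ₗ (rho (k := k)).toLinearMap) := by
    intro q t hq ht hqa hta
    rw [LinearMap.comp_apply, AlgHom.toLinearMap_apply, map_mul]
    exact hG (rho q) (rho t) hq.rename_isHomogeneous ht.rename_isHomogeneous (hann q hqa)
      (hann t hta)
  obtain ⟨l, hl⟩ := hP _ hK
  refine ⟨fun a => l ((a + 28) % 30), ?_⟩
  intro L hL5 hLt hw
  have h1 := hl (L.map fun i => (i + 28) % 30) (by rw [List.length_map, hL5]) (lt_map L) (by
    have := ws_map hLt
    omega)
  rw [LinearMap.comp_apply, AlgHom.toLinearMap_apply, hmono, map_back hLt] at h1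
  rw [h1]
  refine Finset.sum_nbij' (fun a => (a + 2) % 30) (fun a => (a + 28) % 30) ?_ ?_ ?_ ?_ ?_
  · intro a _
    exact mem_range.2 (Nat.mod_lt _ (by norm_num))
  · intro a _
    exact mem_range.2 (Nat.mod_lt _ (by norm_num))
  · intro a ha
    exact forth (mem_range.1 ha)
  · intro a ha
    exact back (mem_range.1 ha)
  · intro a ha
    show _ = l (((a + 2) % 30 + 28) % 30) * _
    rw [forth (mem_range.1 ha), ← hphi (pderiv (Fin.ofNat 30 a) _), ← hpd, hmono, map_back hLt,
      ofNat_two]

end Helper94.RG2
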