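import Pool.Agent.Helper94.RG2.St

/-!
Project RG2 (MP_16b052_ag): module TRI, solution of the triangular system.
-/

namespace Helper94.RG2

open MvPolynomial Helper49.RA Finset

universe u

namespace Triaux

variable {k : Type u} [Field k]

/-- the combination of the statement -/
noncomputable def F (Φ : MvPolynomial (Fin 30) k →ₗ[k] k) (m : ℕ → ℕ → k) (c : k)
    (s : MvPolynomial (Fin 30) k) : k :=
  ∑ a ∈ range 30, ∑ b ∈ range 30, m a b * Φ (x k b * pderiv (Fin.ofNat 30 a) s) + c * Φ s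

/-- the functional of the number `f` -/
noncomputable def V (Φ : MvPolynomial (Fin 30) k →ₗ[k] k) (f : ℕ) :
    MvPolynomial (Fin 30) k →ₗ[k] k :=
  if f = 0 then Φ else
    Φ ∘ₗ (LinearMap.mulLeft k (x k ((f - 1) / 32))) ∘ₗ
      (pderiv (R := k) (Fin.ofNat 30 ((f - 1) % 32))).toLinearMap

/-- validity of the number `f` -/
def Ok (f : ℕ) : Prop := f = 0 ∨ ((f - 1) % 32 < 30 ∧ (f - 1) / 32 < 30)

lemma V_zero (Φ : MvPolynomial (Fin 30) k →ₗ[k] k) : V Φ 0 = Φ := if_pos rfl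

lemma V_ne (Φ : MvPolynomial (Fin 30) k →ₗ[k] k) {f : ℕ} (hf : f ≠ 0)
    (s : MvPolynomial (Fin 30) k) :
    V Φ f s = Φ (x k ((f - 1) / 32) * pderiv (Fin.ofNat 30 ((f - 1) % 32)) s) := by
  unfold V
  rw [if_neg hf]
  rfl

lemma V_mono {Φ : MvPolynomial (Fin 30) k →ₗ[k] k} (hΦ : IsF k Φ) {f : ℕ} (hf : Ok f)
    {L : List ℕ} (h4 : L.length = 4) (hL : Lt L) : V Φ f (mono k L) = ((fv f L : ℕ) : k) := by
  by_cases h0 : f = 0
  · subst h0
    rw [V_zero, hΦ.four L h4 hL]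
    rfl
  · rcases hf with h | h
    · exact absurd h h0
    · rw [V_ne Φ h0, hΦ.pd h.1 h.2 h4 hL]
      unfold fv
      rw [if_neg h0, Nat.cast_mul]

lemma add_V (Φ : MvPolynomial (Fin 30) k →ₗ[k] k) {f : ℕ} (hf : Ok f) (m : ℕ → ℕ → k)
    (c c1 : k) : ∃ (m' : ℕ → ℕ → k) (c' : k), ∀ s : MvPolynomial (Fin 30) k,
      F Φ m' c' s = c1 * V Φ f s + F Φ m c s := by
  by_cases h0 : f = 0
  · subst h0
    refine ⟨m, c + c1, fun s => ?_⟩
    rw [V_zero]
    unfold F
    ring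
  · rcases hf with h | h
    · exact absurd h h0
    · refine ⟨fun a b => m a b +
        if a = (f - 1) % 32 then (if b = (f - 1) / 32 then c1 else 0) else 0, c, fun s => ?_⟩
      rw [V_ne Φ h0]
      unfold F
      have h1 : ∑ a ∈ range 30, ∑ b ∈ range 30,
          (m a b + if a = (f - 1) % 32 then (if b = (f - 1) / 32 then c1 else 0) else 0) *
            Φ (x k b * pderiv (Fin.ofNat 30 a) s) =
          ∑ a ∈ range 30, ∑ b ∈ range 30, m a b * Φ (x k b * pderiv (Fin.ofNat 30 a) s) +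
          ∑ a ∈ range 30, ∑ b ∈ range 30,
            (if a = (f - 1) % 32 then (if b = (f - 1) / 32 then c1 else 0) else 0) *
              Φ (x k b * pderiv (Fin.ofNat 30 a) s) := by
        rw [← sum_add_distrib]
        refine sum_congr rfl fun a _ => ?_
        rw [← sum_add_distrib]
        exact sum_congr rfl fun b _ => add_mul _ _ _
      have h2 : ∑ a ∈ range 30, ∑ b ∈ range 30,
            (if a = (f - 1) % 32 then (if b = (f - 1) / 32 then c1 else 0) else 0) *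
              Φ (x k b * pderiv (Fin.ofNat 30 a) s) =
          c1 * Φ (x k ((f - 1) / 32) * pderiv (Fin.ofNat 30 ((f - 1) % 32)) s) := by
        rw [sum_eq_single_of_mem ((f - 1) % 32) (mem_range.2 h.1)]
        · rw [sum_eq_single_of_mem ((f - 1) / 32) (mem_range.2 h.2)]
          · rw [if_pos rfl, if_pos rfl]
          · intro b _ hb
            rw [if_pos rfl, if_neg hb, zero_mul]
        · intro a _ ha
          refine sum_eq_zero fun b _ => ?_
          rw [if_neg ha, zero_mul]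
      show ∑ a ∈ range 30, ∑ b ∈ range 30,
          (m a b + if a = (f - 1) % 32 then (if b = (f - 1) / 32 then c1 else 0) else 0) *
            Φ (x k b * pderiv (Fin.ofNat 30 a) s) + c * Φ s = _
      rw [h1, h2]
      ring

lemma okF_cons {u : ℕ} {p : ℕ × ℕ} {l : List (ℕ × ℕ)} (h : okF u (p :: l) = true) :
    Ok p.1 ∧ Lt (dl p.2) ∧ okF u l = true := by
  unfold okF at h ⊢
  rw [List.all_cons, Bool.and_eq_true] at h
  obtain ⟨h1, h2⟩ := h
  rw [Bool.and_eq_true, Bool.and_eq_true] at h1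
  obtain ⟨⟨h3, h4⟩, _⟩ := h1
  refine ⟨?_, ?_, h2⟩
  · rw [Bool.or_eq_true, Bool.and_eq_true] at h3
    rcases h3 with h3 | h3
    · exact Or.inl (eq_of_beq h3)
    · exact Or.inr ⟨of_decide_eq_true h3.1, of_decide_eq_true h3.2⟩
  · intro i hi
    have := List.all_eq_true.1 h4 i hi
    exact of_decide_eq_true this

lemma ckF_cons {p : ℕ × ℕ} {l : List (ℕ × ℕ)} (h : ckF (p :: l) = true) :
    fv p.1 (dl p.2) % 2 = 1 ∧ (∀ p' ∈ l, fv p'.1 (dl p.2) % 2 = 0) ∧ ckF l = true := by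
  unfold ckF at h
  rw [Bool.and_eq_true, Bool.and_eq_true] at h
  obtain ⟨⟨h1, h2⟩, h3⟩ := h
  refine ⟨eq_of_beq h1, fun p' hp' => ?_, h3⟩
  have := List.all_eq_true.1 h2 p' hp'
  exact eq_of_beq this

lemma main (h2 : (2 : k) = 0) {Φ : MvPolynomial (Fin 30) k →ₗ[k] k} (hΦ : IsF k Φ) (u : ℕ) :
    ∀ FR : List (ℕ × ℕ), ckF FR = true → okF u FR = true →
      ∀ G : MvPolynomial (Fin 30) k →ₗ[k] k, ∃ (m : ℕ → ℕ → k) (c : k),
        (∀ p ∈ FR, G (mono k (dl p.2)) = F Φ m c (mono k (dl p.2))) ∧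
        ∀ L : List ℕ, L.length = 4 → Lt L → (∀ p ∈ FR, fv p.1 L % 2 = 0) →
          F Φ m c (mono k L) = 0 := by
  intro FR
  induction FR with
  | nil =>
    intro _ _ G
    refine ⟨fun _ _ => 0, 0, fun p hp => absurd hp (by simp), fun L _ _ _ => ?_⟩
    unfold F
    simp only [zero_mul, sum_const_zero, add_zero]
  | cons p l ih =>
    intro hc ho G
    obtain ⟨h3, h4, h5⟩ := ckF_cons hc
    obtain ⟨h6, h7, h8⟩ := okF_cons ho
    obtain ⟨m, c, h9, h10⟩ := ih h5 h8 (G - G (mono k (dl p.2)) • V Φ p.1)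
    obtain ⟨m', c', h11⟩ := add_V Φ h6 m c (G (mono k (dl p.2)))
    refine ⟨m', c', fun q hq => ?_, fun L hL1 hL2 hL3 => ?_⟩
    · rw [h11]
      rcases List.mem_cons.1 hq with h | h
      · rw [h, h10 _ rfl h7 h4, V_mono hΦ h6 rfl h7, cast_one_of_odd h2 h3, mul_one, add_zero]
      · rw [← h9 q h, LinearMap.sub_apply, LinearMap.smul_apply, smul_eq_mul]
        ring
    · rw [h11, h10 L hL1 hL2 fun q hq => hL3 q (List.mem_cons_of_mem _ hq),
        V_mono hΦ h6 hL1 hL2, cast_zero_of_even h2 (hL3 p (by simp)), mul_zero, add_zero]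

end Triaux

theorem tri : StTri.{u} := by
  intro k _ h2 Φ hΦ u FR hc ho G
  obtain ⟨m, c, h, _⟩ := Triaux.main h2 hΦ u FR hc ho G
  exact ⟨m, c, h⟩

end Helper94.RG2

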