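import Pool.Agent.Helper94.RG2.Bas

/-!
Project RG2 (MP_16b052_ag, a rigid local algebra in characteristic two): statements with proofs in
the docstrings.

Notation of the docstrings: `S = MvPolynomial (Fin 30) k`, `S_d` = homogeneous of degree `d`,
`I = annI Φ = {s : Φ (s t) = 0 for all t}`, `x_i = x k i`, `m_L = mono k L` (the product of the
`x_i`, `i ∈ L`), `∂_a = pderiv (Fin.ofNat 30 a)`, `w = w1` (weights modulo `61`), `κ = k1` (keys
modulo `16384`), `ws L`, `ks L` the sums of weights and keys, `tau L = tb (ks L)` if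
`ws L % 61 = 0` and `0` otherwise.  `β(y,a) = ix ((w a + w y + 61 - u) % 61)` is the index with
`w β = w a + w y - u` modulo `61` if this is a weight of a variable, otherwise `β ≥ 30`.
The file `Bas.lean` contains the basic lemmas (`mono_cons`, `mono_perm`, `pd_mono`, `IsF.pd`,
`IsF.pd5`, `IsF.mem_ann`, `eq_of_mono`, `mem_of_mono`, `sorted3`, `sorted4`, `tb_erase`, `ws_erase`,
`ix_w1`, `w1_ix`, `cast_par`, ...).

All modules are independent: a module proves `theorem x : StX` or `theorem x : StY → StZ → StX` as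
said in its docstring, in the file `Pool/Agent/Helper94/RG2/M_X.lean`, which imports
`Pool.Agent.Helper94.RG2.St`.
-/

namespace Helper94.RG2

open MvPolynomial Helper49.RA Finset

universe u

section

variable {k : Type u} [Field k]

/-- sum of `g` over the bits of `r` -/
def ev (N : ℕ) (g : ℕ → k) (r : ℕ) : k := ∑ p ∈ range N, if r.testBit p then g p else 0

/-- `G` vanishes on the products of two quadrics of the ideal -/
def K4 (Φ G : MvPolynomial (Fin 30) k →ₗ[k] k) : Prop :=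
  ∀ q q' : MvPolynomial (Fin 30) k, q.IsHomogeneous 2 → q'.IsHomogeneous 2 → q ∈ annI Φ →
    q' ∈ annI Φ → G (q * q') = 0

/-- `G` vanishes on the products of a quadric and a cubic of the ideal -/
def K5 (Φ G : MvPolynomial (Fin 30) k →ₗ[k] k) : Prop :=
  ∀ q t : MvPolynomial (Fin 30) k, q.IsHomogeneous 2 → t.IsHomogeneous 3 → q ∈ annI Φ →
    t ∈ annI Φ → G (q * t) = 0

/-- degree one -/
def P1 (Φ : MvPolynomial (Fin 30) k →ₗ[k] k) : Prop :=
  ∀ s : MvPolynomial (Fin 30) k, s.IsHomogeneous 1 → s ∈ annI Φ → s = 0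

/-- degree two -/
def P2 (Φ : MvPolynomial (Fin 30) k →ₗ[k] k) : Prop :=
  ∀ s : MvPolynomial (Fin 30) k, s.IsHomogeneous 2 → s ∈ annI Φ →
    (∀ a < 30, pderiv (Fin.ofNat 30 a) s ∈ annI Φ) → s = 0

/-- degree three, weight `u` -/
def P3 (Φ : MvPolynomial (Fin 30) k →ₗ[k] k) (u : ℕ) : Prop :=
  ∀ s : MvPolynomial (Fin 30) k, s.IsHomogeneous 3 →
    (∀ a < 30, pderiv (Fin.ofNat 30 a) s ∈ annI Φ) →
    ∀ L : List ℕ, L.length = 3 → Lt L → ws L % 61 = u → coeff (fs L) s = 0

/-- degree four, weight `u` -/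
def P4 (Φ : MvPolynomial (Fin 30) k →ₗ[k] k) (u : ℕ) : Prop :=
  ∀ G : MvPolynomial (Fin 30) k →ₗ[k] k, K4 Φ G → ∃ (m : ℕ → ℕ → k) (c : k),
    ∀ L : List ℕ, L.length = 4 → Lt L → ws L % 61 = u →
      G (mono k L) = ∑ a ∈ range 30, ∑ b ∈ range 30,
        m a b * Φ (x k b * pderiv (Fin.ofNat 30 a) (mono k L)) + c * Φ (mono k L)

/-- degree five, weight `u` -/
def P5 (Φ : MvPolynomial (Fin 30) k →ₗ[k] k) (u : ℕ) : Prop :=
  ∀ G : MvPolynomial (Fin 30) k →ₗ[k] k, K5 Φ G → ∃ l : ℕ → k,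
    ∀ L : List ℕ, L.length = 5 → Lt L → ws L % 61 = u →
      G (mono k L) = ∑ a ∈ range 30, l a * Φ (pderiv (Fin.ofNat 30 a) (mono k L))

/-- degree six -/
def P6 (Φ : MvPolynomial (Fin 30) k →ₗ[k] k) : Prop :=
  ∀ G : MvPolynomial (Fin 30) k →ₗ[k] k, (∀ s ∈ annI Φ ^ 2, G s = 0) →
    ∀ s : MvPolynomial (Fin 30) k, s.IsHomogeneous 6 → G s = 0

/-- degree four, all weights -/
def H4 (Φ : MvPolynomial (Fin 30) k →ₗ[k] k) : Prop :=
  ∀ G : MvPolynomial (Fin 30) k →ₗ[k] k, K4 Φ G → ∃ (m : ℕ → ℕ → k) (c : k),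
    ∀ s : MvPolynomial (Fin 30) k, s.IsHomogeneous 4 →
      G s = ∑ a ∈ range 30, ∑ b ∈ range 30,
        m a b * Φ (x k b * pderiv (Fin.ofNat 30 a) s) + c * Φ s

/-- degree five, all weights -/
def H5 (Φ : MvPolynomial (Fin 30) k →ₗ[k] k) : Prop :=
  ∀ G : MvPolynomial (Fin 30) k →ₗ[k] k, K5 Φ G → ∃ l : ℕ → k,
    ∀ s : MvPolynomial (Fin 30) k, s.IsHomogeneous 5 →
      G s = ∑ a ∈ range 30, l a * Φ (pderiv (Fin.ofNat 30 a) s)

/-- representation of `G` in degree five by the vector `z` of unknowns -/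
def Rep5 (G : MvPolynomial (Fin 30) k →ₗ[k] k) (u : ℕ) (z : ℕ → k) : Prop :=
  ∀ y < 30, ∀ L : List ℕ, L.length = 4 → Lt L → (w1 y + ws L) % 61 = u →
    G (x k y * mono k L) = (L.map fun a =>
      if ix ((w1 a + w1 y + 61 - u) % 61) < 30 then
        z (30 * y + a) * ((tb (ks L + 16383 * k1 a + k1 (ix ((w1 a + w1 y + 61 - u) % 61))) : ℕ) : k)
      else 0).sum + if w1 y = u then z 900 * ((tb (ks L) : ℕ) : k) else 0

/-- the corrected vector of unknowns -/
def cor (v : ℕ) (l e : k) (z : ℕ → k) (p : ℕ) : k :=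
  if p = 900 then z p - l else
    z p - (if p % 30 = v then l else 0) - (if p / 30 = v then e else 0)

/-- shift of the variables -/
noncomputable def rho : MvPolynomial (Fin 30) k →ₐ[k] MvPolynomial (Fin 30) k :=
  rename fun i => i + 2

end

/-- PHI (no dependence).  Existence of the functional.

PROOF.  For an exponent `m : Fin 30 →₀ ℕ` put `val m := if m.degree = 4 then
tv (∑ i, m i * w1 i) (∑ i, m i * k1 i) else 0` (natural number), and let `Φ` be the linear map with
`Φ (monomial m 1) = (val m : k)` (`(basisMonomials (Fin 30) k).constr k`, or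
`Finsupp.lsum`/`Finsupp.linearCombination` on the coefficients).  `deg`: a homogeneous `s` of degree
`d ≠ 4` is the sum of `coeff m s • monomial m 1` with `m.degree = d` (`s.as_sum`,
`degree_of_hom`), all values are `0`.
`four`: by `mono_eq`, `mono k L = monomial (fs L) 1`; by induction on `L` with `Lt L`:
`(fs L).degree = L.length`, `∑ i, fs L i * w1 i = ws L`, `∑ i, fs L i * k1 i = ks L`
(`fs_cons`, `Finsupp.single`, `(Fin.ofNat 30 i).val = i` for `i < 30`). -/
def StPhi : Prop := ∀ (k : Type u) [Field k], ∃ Φ : MvPolynomial (Fin 30) k →ₗ[k] k, IsF k Φ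

/-- ENG (no dependence).  Soundness of the elimination.

PROOF.  (1) `subs F l = true` means `v &&& F = v` for all `v ∈ l` (induction on `l`,
`Nat.eq_of_beq_eq_true`), i.e. bits of `v` are bits of `F`.
(2) `ev` is additive in characteristic two: `ev N g (v ^^^ r) = ev N g v + ev N g r`
(`Nat.testBit_xor`, four cases of the two bits, `add_self`).
(3) Lowest bit: if `r ≠ 0` there is `b` with `lb r = 2 ^ b` and `r.testBit b = true` (strong
induction: `r` odd: `r &&& (r-1) = r - 1`, so `lb r = 1`; `r = 2 s`: `r - 1 = 2 (s-1) + 1`,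
`r &&& (r-1) = 2 (s &&& (s-1))`, `lb r = 2 lb s`; `Nat.testBit_succ`, `Nat.land` on double
numbers by `Nat.eq_of_testBit_eq`).
(4) `clr`: `clr r p l acc` is, by induction on `l` (generalising `acc`), a list whose members are
the members of `acc` and the `v' ` for `v ∈ l`, `v' = v` if `v &&& p = 0` and `v' = v ^^^ r`
otherwise.  (Unfold: `clr r p (v :: l) acc = Nat.rec (clr r p l (v :: acc))
(fun _ _ => clr r p l ((v ^^^ r) :: acc)) (v &&& p)` is `rfl`; `cases` on `v &&& p`.)
(5) Claim, by induction on the fuel `n`, for all `l m`: if `elim F n l m = true`, all `v ∈ l`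
satisfy `ev N g v = 0`, bits of `v` are bits of `F` and not bits of `m`, then `g p = 0` for all
`p` with `F.testBit p`, `¬ m.testBit p`.  If `n = 0` or `l = []` the value is `Nat.beq m F`, so
`m = F` and there is no such `p`.  Let `l = r :: rest`.  If `r = 0` use the induction hypothesis for
`rest`.  If `r ≠ 0` let `b` be its lowest bit (3), `m' = m + 2 ^ b = m ||| 2 ^ b` (as `b` is not a
bit of `m`; `Nat.testBit` of the sum: e.g. `Nat.add_eq_or`-like lemma or `Nat.xor`); the members of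
`clr r (2 ^ b) rest []` are, by (4), `v` without bit `b`, or `v ^^^ r` where `v` and `r` have the
bit `b` (`v &&& 2 ^ b = 0 ↔ v.testBit b = false`, `Nat.and_two_pow`); they satisfy the hypotheses
for `m'`.  So `g p = 0` for all bits `p ≠ b` of `F` outside `m`.  Then `0 = ev N g r = g b`: all bits
`p ≠ b` of `r` are bits of `F` outside `m`, and `b < N` because `b` is a bit of `F < 2 ^ N`
(`Nat.testBit_lt_two_pow`).  So `g b = 0` too.
The statement is (5) for `m = 0`. -/
def StEng : Prop := ∀ (k : Type u) [Field k], (2 : k) = 0 → ∀ (N : ℕ) (g : ℕ → k) (F n : ℕ)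
  (l : List ℕ), F < 2 ^ N → subs F l = true → elim F n l 0 = true → (∀ r ∈ l, ev N g r = 0) →
  ∀ p, F.testBit p = true → g p = 0

/-- POS (no dependence).  The table gives the values of `G` in weight `u`.

PROOF.  `ckP` unfolded (`List.all_eq_true`, `List.mem_range`, `Bool.or_eq_true`, `Nat.ble_eq`,
`Nat.eq_of_beq_eq_true`): for `i ≤ j ≤ l < 30` and `m = ix ((u + 183 - w i - w j - w l) % 61)`
with `l ≤ m ≤ 29`: `p + 1 ≤ N` and `dc DC p = i + 32 j + 1024 l + 32768 m` for
`p = ps PT (κ i + κ j + κ l + κ m)`.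
If `i ≤ j ≤ l ≤ m < 30` and `(w i + w j + w l + w m) % 61 = u` then
`w m = (u + 183 - w i - w j - w l) % 61` (all weights are `< 61`, `omega`), so
`ix (...) = m` by `ix_w1` and the check applies.
Define `g n := G (mono k (dl (dc DC n)))`.  Let `L` have length four, `Lt L`, `ws L % 61 = u`.  By
`sorted4`, `L` is a permutation of `[i, j, l, m]` sorted; `ks L = κ i + κ j + κ l + κ m` up to
reordering (`ks_perm`), the same for `ws`; the check gives `dl (dc DC p) = [i, j, l, m]`
(`omega` with `i, j, l, m < 32`), so `g p = G (mono k [i, j, l, m]) = G (mono k L)`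
(`mono_perm`). -/
def StPos : Prop := ∀ (k : Type u) [Field k] (u N PT DC : ℕ), u < 61 → ckP u N PT DC = true →
  ∀ G : MvPolynomial (Fin 30) k →ₗ[k] k, ∃ g : ℕ → k, ∀ L : List ℕ, L.length = 4 → Lt L →
    ws L % 61 = u → ps PT (ks L) < N ∧ G (mono k L) = g (ps PT (ks L))

/-- ROW4 (no dependence).  Evaluation of the rows in degree four.

PROOF.  `ev 1024 g (a ^^^ 2 ^ p) = ev 1024 g a + g p` for `p < 1024` (characteristic two;
`Nat.testBit_xor`, `Nat.testBit_two_pow`).  `ps PT K < 1024` (`Nat.and_lt_two_pow` or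
`Nat.and_le_right`: it is `_ &&& 1023`).  By induction on `B`:
`ev 1024 g (row2 PT ka B acc) = ev 1024 g acc + (B.map fun b => g (ps PT (ka + k2 b))).sum`; by
induction on `A`: `ev 1024 g (row PT A B acc) = ev 1024 g acc +
(A.map fun a => (B.map fun b => g (ps PT (k2 a + k2 b))).sum).sum`.  By induction on `Bs`, `As`
and `n`: the members of `prodA`, `prods`, `rows4` are members of `acc` or rows
`row PT A B 0` with `A ∈ QS c`, `B ∈ QS d`, `c < n`, `d = (u + 61 - c) % 61`, and
`(c + d) % 61 = u` for `c < 61`, `u < 61`. -/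
def StRow4 : Prop := ∀ (k : Type u) [Field k], (2 : k) = 0 → ∀ (g : ℕ → k) (PT u : ℕ), u < 61 →
  (∀ c d : ℕ, c < 61 → d < 61 → (c + d) % 61 = u → ∀ A ∈ QS c, ∀ B ∈ QS d,
    (A.map fun a => (B.map fun b => g (ps PT (k2 a + k2 b))).sum).sum = 0) →
  ∀ acc : List ℕ, ∀ r ∈ rows4 PT u 61 acc, r ∈ acc ∨ ev 1024 g r = 0

/-- Q (no dependence).  The quadrics of the lists are in the ideal.

PROOF.  Unfold `ckQ`.  Codes: `a % 32 < 30`, `a / 32 < 30`, `w2 a % 61 = c`.  Membership:
`IsF.mem_ann` with `d = 2` and `qp_hom`; let `L = [i, j]`, `Lt L`.  `qp k A * mono k [i, j]` is the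
sum of `mono k [a % 32, a / 32, i, j]` (`mono_append`), so
`Φ (qp k A * mono k [i, j]) = (A.map fun a => ((tau [a % 32, a / 32, i, j] : ℕ) : k)).sum`
`= (((A.map fun a => tau [a % 32, a / 32, i, j]).sum : ℕ) : k)`.  If
`(w i + w j + c) % 61 ≠ 0` all `tau` are `0`.  Otherwise `tau = tb (k2 a + κ i + κ j)` and the check
says that the sum is even; `cast_zero_of_even`. -/
def StQ : Prop := ckQ = true → ∀ (k : Type u) [Field k], (2 : k) = 0 →
  ∀ Φ : MvPolynomial (Fin 30) k →ₗ[k] k, IsF k Φ → ∀ c < 61, ∀ A ∈ QS c,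
  (∀ a ∈ A, a % 32 < 30 ∧ a / 32 < 30 ∧ w2 a % 61 = c) ∧ qp k A ∈ annI Φ

/-- TRI (no dependence).  Solution of the triangular system.

PROOF.  For a functional number `f` let `V f : S →ₗ k` be `Φ` if `f = 0` and
`s ↦ Φ (x_b * ∂_a s)` with `a = (f - 1) % 32`, `b = (f - 1) / 32` otherwise.  For `L` of length four
with `Lt L` and valid `f` (`a, b < 30`): `V f (mono k L) = ((fv f L : ℕ) : k)` by `IsF.four` and
`IsF.pd`, so it is `1` or `0` if `fv f L` is odd or even (characteristic two).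
Claim, by induction on the list `FR`: for every `G` there is a finite combination `V` of the `V f`,
`f` in the list (say in the form of the statement, `∃ m c, ∀ s, V s = ...`), such that
`G (mono k (dl p.2)) = V (mono k (dl p.2))` for all `p ∈ FR`, and such that `V` vanishes at
`mono k L` for every list `L` (length four, `Lt`) with `fv f L` even for all `f` in the list.
Step: for `p :: l` put `c1 = G (mono k (dl p.2))`, apply the hypothesis to
`G - c1 • V p.1` and `l`, get `V'`; `V := c1 • V p.1 + V'`.  At `dl p.2`: `V p.1` has the value `1`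
(`ckF`: odd) and `V'` vanishes (all later `fv` are even), so `V = c1`.  At later lists
`V = c1 V p.1 + (G - c1 V p.1) = G`.  The form of the statement is closed under addition of
`c1 • V f` (for `f ≠ 0` add `c1` to the entry `m a b`, with `Finset.sum_eq_single`-like
computation; for `f = 0` add it to `c`). -/
def StTri : Prop := ∀ (k : Type u) [Field k], (2 : k) = 0 →
  ∀ Φ : MvPolynomial (Fin 30) k →ₗ[k] k, IsF k Φ → ∀ (u : ℕ) (FR : List (ℕ × ℕ)),
  ckF FR = true → okF u FR = true → ∀ G : MvPolynomial (Fin 30) k →ₗ[k] k,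
  ∃ (m : ℕ → ℕ → k) (c : k), ∀ p ∈ FR, G (mono k (dl p.2)) =
    ∑ a ∈ range 30, ∑ b ∈ range 30,
      m a b * Φ (x k b * pderiv (Fin.ofNat 30 a) (mono k (dl p.2))) + c * Φ (mono k (dl p.2))

/-- D4 (to prove: `theorem d4 : StEng.{u} → StPos.{u} → StRow4.{u} → StQ.{u} → StTri.{u} → StD4.{u}`).
Degree four in one weight.

PROOF.  Given `G` with `K4 Φ G`, take `m, c` from TRI and let
`G' s := G s - (∑_{a,b} m a b * Φ (x_b * ∂_a s) + c * Φ s)`, a linear map.  `K4 Φ G'`: for
`q, q' ∈ I` quadrics, `Φ (q q') = 0` and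
`Φ (x_b ∂_a (q q')) = Φ (q (x_b ∂_a q')) + Φ (q' (x_b ∂_a q)) = 0` (Leibniz).  `G'` vanishes at the
free monomials.  Take `g` from POS for `G'`.  Rows: for `A ∈ QS c`, `B ∈ QS d`, `(c + d) % 61 = u`:
`0 = G' (qp k A * qp k B) = ∑_{a ∈ A} ∑_{b ∈ B} G' (mono k [a % 32, a / 32, b % 32, b / 32])
= ∑ ∑ g (ps PT (k2 a + k2 b))` because the lists are `Lt`, of length four, of weight `u`
(by Q: `w2 a % 61 = c`, `w2 b % 61 = d`), with `ks = k2 a + k2 b`.  So ROW4 applies: every row of
`rows4 PT u 61 (fr4 PT FR)` is one of the unit rows `2 ^ ps PT (ks (dl p.2))`, with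
`ev 1024 g (2 ^ q) = g q` (`q < 1024`) `= G' (mono k (dl p.2)) = 0` (`okF`: valid, weight `u`), or
has `ev = 0`.  ENG with `N = 1024`, `F = 2 ^ N0 - 1 < 2 ^ 1024` gives `g q = 0` for all `q < N0`
(`Nat.testBit_two_pow_sub_one`).  So `G' (mono k L) = g (ps PT (ks L)) = 0` for all `L` of weight
`u`. -/
def StD4 : Prop := ckQ = true → ∀ (k : Type u) [Field k], (2 : k) = 0 →
  ∀ Φ : MvPolynomial (Fin 30) k →ₗ[k] k, IsF k Φ → ∀ (u N PT DC n : ℕ) (FR : List (ℕ × ℕ)),
  u < 61 → N ≤ 1024 → ckP u N PT DC = true → ckF FR = true → okF u FR = true →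
  subs (2 ^ N - 1) (rows4 PT u 61 (fr4 PT FR)) = true →
  elim (2 ^ N - 1) n (rows4 PT u 61 (fr4 PT FR)) 0 = true → P4 Φ u

/-- INV (no dependence).  The functional is invariant under the shift `rho`.

PROOF.  `rho (x_i) = x_{i+2}`, where the index of `x` is taken modulo `30`
(`Fin.ofNat 30 i + 2 = Fin.ofNat 30 (i + 2) = Fin.ofNat 30 ((i + 2) % 30)`), so
`rho (mono k L) = mono k (L.map fun i => (i + 2) % 30)` (third claim).  `Φ ∘ rho` and `Φ` agree on
`S_d` for `d ≠ 4` (both zero, `rho` preserves degrees: `IsHomogeneous.rename_isHomogeneous`) and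
for `d = 4` it is enough (`eq_of_mono`) to show `tau (L.map sh) = tau L` for `Lt L`, length four,
`sh i = (i + 2) % 30`.  Modulo `61`: `ws (L.map sh) = 16 ws L` (`w1_add_two`), so both are `0` if
`ws L % 61 ≠ 0`.  If `ws L % 61 = 0` let `[i, j, l, m]` be sorted, a permutation of `L`;
`m = ix ((183 - w i - w j - w l) % 61)` (`omega`, `ix_w1`) and the check `ckS` says that the two
`tb` agree.  A general `s` is the sum of its homogeneous components.
Second claim: `rho` is surjective: `t = rho (rename (fun i => i - 2) t)` (`rename_rename`), and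
`Φ (rho s * rho t') = Φ (rho (s * t')) = Φ (s * t') = 0` for `s ∈ I`.
Fourth claim: both sides are derivations along `rho`; or: it is enough to check
`s = X i` (`MvPolynomial.induction_on`): `pderiv (j + 2) (X (i + 2)) = pderiv j (X i)`
(`Pi.single`), e.g. `MvPolynomial.pderiv_rename` for the injective map `i ↦ i + 2`. -/
def StInv : Prop := ckS = true → ∀ (k : Type u) [Field k],
  (∀ Φ : MvPolynomial (Fin 30) k →ₗ[k] k, IsF k Φ →
    (∀ s, Φ (rho s) = Φ s) ∧ ∀ s ∈ annI Φ, rho s ∈ annI Φ) ∧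
  (∀ L : List ℕ, rho (mono k L) = mono k (L.map fun i => (i + 2) % 30)) ∧
  (∀ (j : Fin 30) (s : MvPolynomial (Fin 30) k), pderiv (j + 2) (rho s) = rho (pderiv j s))

/-- T4 (to prove: `theorem t4 : StInv.{u} → StT4.{u}`).  Transport of `P4`.

PROOF.  Let `K4 Φ G`; `G' := G ∘ rho` satisfies `K4` (`rho q ∈ I`, homogeneous of degree two,
`G' (q q') = G (rho q * rho q')`).  Take `m, c` for `G'` from `P4 Φ u`.  Let `L` have weight
`(16 u) % 61`; `L' := L.map fun i => (i + 28) % 30` has `L'.map (fun i => (i + 2) % 30) = L`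
(`Lt L`), so `rho (mono k L') = mono k L`, and `(16 * ws L') % 61 = ws L % 61`
(`w1_add_two`, induction), so `ws L' % 61 = u` (`16` is invertible modulo `61`, `omega`).  So
`G (mono k L) = G' (mono k L') = ∑ m a b Φ (x_b ∂_a m_{L'}) + c Φ (m_{L'})`, and
`Φ (x_b ∂_a m_{L'}) = Φ (rho (x_b ∂_a m_{L'})) = Φ (x_{b+2} ∂_{a+2} m_L)`, `Φ (m_{L'}) = Φ (m_L)`.
Put `m' a b := m ((a + 28) % 30) ((b + 28) % 30)` and reindex the sums by
`a ↦ (a + 2) % 30` on `range 30` (`Finset.sum_bij` or `Finset.sum_nbij'`). -/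
def StT4 : Prop := ckS = true → ∀ (k : Type u) [Field k] (Φ : MvPolynomial (Fin 30) k →ₗ[k] k),
  IsF k Φ → ∀ u < 61, P4 Φ u → P4 Φ ((16 * u) % 61)

/-- T5 (to prove: `theorem t5 : StInv.{u} → StT5.{u}`).  Transport of `P5`.  PROOF: the same as for
T4, with `l' a := l ((a + 28) % 30)`. -/
def StT5 : Prop := ckS = true → ∀ (k : Type u) [Field k] (Φ : MvPolynomial (Fin 30) k →ₗ[k] k),
  IsF k Φ → ∀ u < 61, P5 Φ u → P5 Φ ((16 * u) % 61)

/-- T3 (to prove: `theorem t3 : StInv.{u} → StT3.{u}`).  Transport of `P3`.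

PROOF.  Let `s` be as in `P3 Φ ((16 u) % 61)`.  As `rho` is an automorphism (inverse
`rename (· - 2)`), `s = rho s'` with `s' = rename (fun i => i - 2) s`, homogeneous of degree three
(`rename_isHomogeneous`).
`∂_j s' ∈ I`: `rho (∂_j s') = ∂_{j+2} (rho s') = ∂_{j+2} s ∈ I` (fourth claim of INV), and
`rho t ∈ I → t ∈ I`: `Φ (t r) = Φ (rho t * rho r) = 0`.  So `P3 Φ u` says that
`coeff (fs L') s' = 0` for `L'` of weight `u`.  For `L` of weight `(16 u) % 61` let
`L' := L.map fun i => (i + 28) % 30` as in T4; `fs L = Finsupp.mapDomain (· + 2) (fs L')`, and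
`coeff (mapDomain f m) (rename f s') = coeff m s'` for injective `f`
(`MvPolynomial.coeff_rename_mapDomain`). -/
def StT3 : Prop := ckS = true → ∀ (k : Type u) [Field k] (Φ : MvPolynomial (Fin 30) k →ₗ[k] k),
  IsF k Φ → ∀ u < 61, P3 Φ u → P3 Φ ((16 * u) % 61)

/-- H4 (no dependence).  From the weights to degree four.

PROOF.  Let `m_u, c_u` be given by `P4 Φ u` (`choose`).  Put
`m a b := m_u a b` with `u = (w a + 61 - w b) % 61` and `c := c_0`.  By `eq_of_mono` (both sides are
linear in `s`; write the right side as a linear map) it is enough to take `s = mono k L`, length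
four, `Lt L`; let `u = ws L % 61`.  `Φ (x_b ∂_a m_L) = count a L * tau (b :: L.erase a)` (`IsF.pd`)
is zero unless `a ∈ L` and `w b + ws L - w a = 0` modulo `61` (`ws_erase`), i.e.
`(w a + 61 - w b) % 61 = u`, so `m a b * Φ (..) = m_u a b * Φ (..)` in all cases; and
`c * Φ (m_L) = c_u * Φ (m_L)` as `Φ (m_L) = 0` unless `u = 0`. -/
def StH4 : Prop := ∀ (k : Type u) [Field k] (Φ : MvPolynomial (Fin 30) k →ₗ[k] k), IsF k Φ →
  (∀ u < 61, P4 Φ u) → H4 Φ

/-- H5 (no dependence).  From the weights to degree five.  PROOF: as for H4, with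
`l a := l_{w a} a` (`IsF.pd5`: `Φ (∂_a m_L) = 0` unless `a ∈ L` and `ws L % 61 = w a`). -/
def StH5 : Prop := ∀ (k : Type u) [Field k] (Φ : MvPolynomial (Fin 30) k →ₗ[k] k), IsF k Φ →
  (∀ u < 61, P5 Φ u) → H5 Φ

/-- D5A (no dependence).  Representation of `G` in degree five.

PROOF.  For `y < 30`, `G_y s := G (x_y s)` satisfies `K4`: `G (x_y (q q')) = G (q (x_y q')) = 0` by
`K5`, since `x_y q' ∈ I` is homogeneous of degree three.  `P4 Φ ((u + 61 - w y) % 61)` gives
`m_y, c_y`.  Put `z p := m_y a (ix ((w a + w y + 61 - u) % 61))` with `y = p / 30`, `a = p % 30` if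
`p ≠ 900`, and `z 900 := c_{ix u}`.  Let `L` be of length four, `Lt L`, `(w y + ws L) % 61 = u`;
then `ws L % 61 = (u + 61 - w y) % 61` (`w y < 61`, `u < 61`).  So
`G (x_y m_L) = ∑_a ∑_b m_y a b Φ (x_b ∂_a m_L) + c_y Φ (m_L)`.
`Φ (x_b ∂_a m_L) = count a L * tau (b :: L.erase a)` vanishes unless `a ∈ L` and
`(w b + ws L - w a) % 61 = 0`, i.e. `w b = (w a + w y + 61 - u) % 61`, i.e. `b = β(y,a)`
(`ix_w1`), where `tau = tb (ks L + 16383 κ a + κ b)` (`tau_eq`, `tb_erase`).  So the inner sum is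
`count a L * (if β(y,a) < 30 then z (30 y + a) * tb (ks L + 16383 κ a + κ β) else 0)` (if
`β < 30` then `w β = (w a + w y + 61 - u) % 61` by `w1_ix`), and
`∑_{a < 30} count a L * f a = (L.map f).sum` for `Lt L` (`Finset.sum_list_map_count` or
induction on `L`).
If `w y = u` then `ix u = y`, so `c_y = z 900`, and `ws L % 61 = 0`, `Φ (m_L) = tb (ks L)`; if
`w y ≠ u` then `ws L % 61 ≠ 0` and `Φ (m_L) = 0`. -/
def StD5A : Prop := ∀ (k : Type u) [Field k] (Φ : MvPolynomial (Fin 30) k →ₗ[k] k), IsF k Φ →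
  (∀ v < 61, P4 Φ v) → ∀ u < 61, ∀ G : MvPolynomial (Fin 30) k →ₗ[k] k, K5 Φ G →
  ∃ z : ℕ → k, Rep5 G u z

/-- D5B (no dependence).  Correction of the representation; `v = ix u`.

PROOF.  Let `y < 30`, `L` of length four, `Lt L`, `(w y + ws L) % 61 = u = w v`
(`w1_ix`).  By Leibniz `Φ (∂_v (x_y m_L)) = [y = v] Φ (m_L) + Φ (x_y ∂_v m_L)` and
`Φ (x_y ∂_v m_L) = count v L * tau (y :: L.erase v)`.  If `v ∈ L` then
`w y + ws L - w v = 0` modulo `61`, so `tau (y :: L.erase v) = tb (ks L + 16383 κ v + κ y)`, and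
`β(y,v) = ix ((w v + w y + 61 - u) % 61) = ix (w y) = y`.  So
`Φ (x_y ∂_v m_L) = (L.map fun a => if β(y,a) < 30 then (if a = v then 1 else 0) *
tb (ks L + 16383 κ a + κ β(y,a)) else 0).sum`, which is the contribution of
`l` in `cor` up to sign (`(30 y + a) % 30 = a`, `(30 y + a) / 30 = y`, `30 y + a ≠ 900`).
`[y = v] Φ (m_L)`: `y = v ↔ w y = u` (`w1_inj`), then `ws L % 61 = 0` and `Φ (m_L) = tb (ks L)`.
The contribution of `e`: it is zero if `y ≠ v`.  If `y = v`: `β(v,a) = ix (w a) = a < 30`, so it is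
`e * (L.map fun a => tb (ks L + 16383 κ a + κ a)).sum = e * 4 * tb (ks L) = 0` in characteristic two
(`16384 κ a = 0` modulo `16384`, `tb_mod`, length four). -/
def StD5B : Prop := ∀ (k : Type u) [Field k], (2 : k) = 0 →
  ∀ (Φ : MvPolynomial (Fin 30) k →ₗ[k] k), IsF k Φ → ∀ u < 61, ix u < 30 →
  ∀ (G : MvPolynomial (Fin 30) k →ₗ[k] k) (z : ℕ → k), Rep5 G u z → ∀ l e : k,
  Rep5 (G - l • (Φ ∘ₗ (pderiv (Fin.ofNat 30 (ix u))).toLinearMap)) u (cor (ix u) l e z)

/-- D5C (no dependence).  The rows in degree five annihilate `z`.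

PROOF.  `ev 1024 z` is additive for `^^^` in characteristic two; for a bit `t < 2` and
`p < 1024`: `ev 1024 z (t * 2 ^ p) = t * z p`.  `c` is valid: `y, z', i, j, l < 30` and the weights
sum to `u` (`z'` is the second index).  With `K4 = κ z' + κ i + κ j + κ l = ks [z', i, j, l]`:
`ev 1024 z (sd u y K4 a) = if β(y,a) < 30 then z (30 y + a) * tb (K4 + 16383 κ a + κ β) else 0`
(`30 y + a < 900`, `tb < 2` by `tb_lt`), so `ev 1024 z (side u y K4 z' i j l)` is the right side of
`Rep5` for `y` and `L = [z', i, j, l]`, i.e. `G (x_y * mono k [z', i, j, l])`.  In the same way the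
other side is `G (x_{z'} * mono k [y, i, j, l])`, the same number; the sum is zero. -/
def StD5C : Prop := ∀ (k : Type u) [Field k], (2 : k) = 0 → ∀ u < 61,
  ∀ (G : MvPolynomial (Fin 30) k →ₗ[k] k) (z : ℕ → k), Rep5 G u z → ∀ c : ℕ, ok5 u c = true →
  ev 1024 z (rw5 u c) = 0

/-- D5 (to prove: `theorem d5 : StEng.{u} → StD5A.{u} → StD5B.{u} → StD5C.{u} → StD5.{u}`).
Degree five in one weight.

PROOF.  Take `z` with `Rep5 G u z` from D5A.
Bits of `F5 u`: for `y, a < 30` with `β(y,a) < 30` the bit `30 y + a` of `F5 u` is set, and the bit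
`900` if `ix u < 30`; `F5 u < 2 ^ 1024` (`F5 u` is a sum of distinct powers; or, as `u` is concrete
in the applications, these facts are hypotheses `hF` of the statement).
Case `ix u ≥ 30`: `un5 u = []`; all rows have `ev 1024 z = 0` by D5C, so ENG gives `z p = 0` for all
bits `p` of `F5 u`.  For `L` of length five and weight `u`: `L = y :: L'`, and `Rep5` gives
`G (mono k L) = 0` (the terms with `β < 30` have `z (30 y + a) = 0`; `w y ≠ u`, since otherwise
`ix u = y < 30`).  So `l = 0` works.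
Case `v := ix u < 30`: put `l0 := z (30 * oth u + v)`, `e0 := z (30 * v + oth u)`,
`G' := G - l0 • (Φ ∘ ∂_v)`, `z' := cor v l0 e0 z`; `Rep5 G' u z'` by D5B.  The rows
`(RF).map (rw5 u)` have `ev = 0` by D5C, and the two unit rows of `un5 u` also:
`ev 1024 z' (2 ^ p) = z' p`, `z' (30 * oth u + v) = l0 - l0 - 0 = 0` and
`z' (30 * v + oth u) = e0 - 0 - e0 = 0` (`oth u ≠ v`, `oth u < 30`).  By ENG `z' p = 0` for all bits
of `F5 u`, so `G' (mono k (y :: L')) = 0` in weight `u` as before (now also `z' 900 = 0`).  So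
`G (mono k L) = l0 * Φ (∂_v (mono k L))`; put `l a := if a = v then l0 else 0`. -/
def StD5 : Prop := ∀ (k : Type u) [Field k], (2 : k) = 0 →
  ∀ Φ : MvPolynomial (Fin 30) k →ₗ[k] k, IsF k Φ → (∀ v < 61, P4 Φ v) → ∀ (u n : ℕ) (RF : List ℕ),
  u < 61 → F5 u < 2 ^ 1024 →
  (∀ y < 30, ∀ a < 30, ix ((w1 a + w1 y + 61 - u) % 61) < 30 → (F5 u).testBit (30 * y + a) = true) →
  (ix u < 30 → (F5 u).testBit 900 = true) →
  RF.all (ok5 u) = true → subs (F5 u) (un5 u ++ RF.map (rw5 u)) = true →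
  elim (F5 u) n (un5 u ++ RF.map (rw5 u)) 0 = true → P5 Φ u

/-- D6 (no dependence).  Degree six.

PROOF.  Let `G` vanish on `I ^ 2`.  By `mem_of_mono`/`eq_of_mono` it is enough that
`G (mono k M) = 0` for `M` of length six, `Lt M`; `M = y :: L'`, let `u = ws M % 61`.
For every `y < 30`: `G_y s := G (x_y s)` satisfies `K5` (`x_y (q t) = q (x_y t)`... in `I ^ 2`), so
`H5` gives `l_y` with `G (x_y s) = ∑_a l_y a * Φ (∂_a s)` for `s ∈ S_5`.
For `s = mono k L'` with `(w y + ws L') % 61 = u`: `Φ (∂_a m_{L'}) = count a L' * tau (L'.erase a)`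
(`IsF.pd5`) vanishes unless `a ∈ L'` and `ws L' - w a = 0` modulo `61`, i.e.
`a = a(y) := ix ((u + 61 - w y) % 61)`.  So with `λ_y := l_y (a(y))`:
`G (x_y m_{L'}) = λ_y * Φ (∂_{a(y)} m_{L'})` if `a(y) < 30`, and `= 0` otherwise, and here
`Φ (∂_a m_{L'}) = ((dt a (ks L') L' : ℕ) : k)` for `a = a(y)` (`tau_eq`, `tb_erase` with `n = 0`).
`λ_y = 0`: the witness in `ck6` for `(u, y)`: `z, i, j, l, m < 30` of total weight `u`; by
commutativity `G (x_y * mono k [z,i,j,l,m]) = G (x_z * mono k [y,i,j,l,m])`; the left side is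
`λ_y * odd = λ_y`, the right side is `λ_z * even = 0` or `0` (characteristic two).
So `G (x_y m_{L'}) = 0` in all cases. -/
def StD6 : Prop := ck6 = true → ∀ (k : Type u) [Field k], (2 : k) = 0 →
  ∀ Φ : MvPolynomial (Fin 30) k →ₗ[k] k, IsF k Φ → H5 Φ → P6 Φ

/-- EXP3 (no dependence).  Expansion of a linear functional on `S_3`.

PROOF.  Both sides are linear in `s`, so by `eq_of_mono` (write the right side as a linear map, with
`MvPolynomial.lcoeff`) it is enough to take `s = mono k L`, length three, `Lt L`; by `sorted3`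
(`mono_perm`) `L = [i0, j0, l0]` sorted.  `coeff (fs L') (mono k L) = if fs L = fs L' then 1 else 0`
(`mono_eq`, `coeff_monomial`).  For sorted `L' = [i, j, l]` with entries `< 30`:
`fs L = fs L' → L = L'` (the Finsupp determines the multiset: `L.count a = fs L (Fin.ofNat 30 a)` for
`a < 30`, so `L.Perm L'` by `List.perm_iff_count`, and sorted permutations agree,
`List.Perm.eq_of_pairwise`; or directly by cases).  So exactly one term of the sum is not zero, the
one of `L`. -/
def StExp3 : Prop := ∀ (k : Type u) [Field k] (ψ : MvPolynomial (Fin 30) k →ₗ[k] k)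
  (s : MvPolynomial (Fin 30) k), s.IsHomogeneous 3 →
  ψ s = ∑ i ∈ range 30, ∑ j ∈ range 30, ∑ l ∈ range 30,
    if i ≤ j ∧ j ≤ l then coeff (fs [i, j, l]) s * ψ (mono k [i, j, l]) else 0

/-- ROW3 (no dependence).  Evaluation of the rows in degree three.

PROOF.  `LT c` is the list, over `i < 30` and `j < 30` with `i ≤ j ≤ l ≤ 29`,
`l = ix ((c + 122 - w i - w j) % 61)`, of the codes `i + 32 j + 1024 l < 2 ^ 15`.  By induction on a
list `l` of numbers `< 32768`:
`ev 32768 f (row3 l y a b) = (l.map fun t => ((v3 y a b t : ℕ) : k) * f t).sum` in characteristic two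
(`v3 < 2`; `ev` is additive for `^^^`; `ev (t' * 2 ^ t) = t' * f t` for `t' < 2`, `t < 32768`).
For `l = LT c` rewrite the sum over the list as a double sum over `i, j ∈ range 30`
(`List.map_flatMap`, `List.sum_flatMap`, `Finset.sum_list_...`, or `List.sum_toFinset`) and then as
a triple sum: for given `i, j` the only `l < 30` with `(w i + w j + w l) % 61 = c` is
`ix ((c + 122 - w i - w j) % 61)` if it is `< 30` (`ix_w1`, `w1_ix`, `w < 61`, `c < 61`). -/
def StRow3 : Prop := ∀ (k : Type u) [Field k], (2 : k) = 0 → ∀ (c : ℕ), c < 61 →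
  ∀ (f : ℕ → k) (y a b : ℕ),
  ev 32768 f (row3 (LT c) y a b) = ∑ i ∈ range 30, ∑ j ∈ range 30, ∑ l ∈ range 30,
    if (i ≤ j ∧ j ≤ l) ∧ (w1 i + w1 j + w1 l) % 61 = c then
      ((v3 y a b (i + 32 * j + 1024 * l) : ℕ) : k) * f (i + 32 * j + 1024 * l) else 0

/-- F3 (no dependence).  The set of unknowns in degree three.

PROOF.  The codes `i + 32 j + 1024 l` in `LT c` are distinct (`List.Nodup`: `i, j` determine the
entry and are determined by it) and less than `32768`, so `F3 (LT c)` is a sum of distinct powers of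
two: for a `Nodup` list `l`, `(F3 l).testBit p = true ↔ p ∈ l` (induction: `r + 2 ^ t` with
`¬ r.testBit t` has the bits of `r` and the bit `t`), and `F3 l < 2 ^ 32768` if all members are
`< 32768` (`Nat.lt_pow_two_of_testBit`).  A sorted triple `i ≤ j ≤ l < 30` of weight `c` has its code
in `LT c` (`l = ix ((c + 122 - w i - w j) % 61)`). -/
def StF3 : Prop := ∀ c < 61, F3 (LT c) < 2 ^ 32768 ∧ ∀ i j l : ℕ, i ≤ j → j ≤ l → l < 30 →
  (w1 i + w1 j + w1 l) % 61 = c → (F3 (LT c)).testBit (i + 32 * j + 1024 * l) = true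

/-- D3 (to prove: `theorem d3 : StEng.{u} → StExp3.{u} → StRow3.{u} → StF3 → StD3.{u}`).
Degree three in one weight.

PROOF.  Let `s ∈ S_3` with all `∂_y s ∈ I`; `f t := coeff (fs [t % 32, t / 32 % 32, t / 1024]) s`.
For a valid code `(y, a, b)` in `RT` (`ok3`: entries `< 30`, `(c + w a + w b) % 61 = w y`) apply EXP3
to `ψ s := Φ (mono k [a, b] * ∂_y s)`: `ψ s = 0` as `∂_y s ∈ I`.
`ψ (mono k [i, j, l]) = count y [i,j,l] * Φ (mono k ([a, b] ++ [i,j,l].erase y))` (`pd_mono`,
`mono_append`) `= count * tau (..)`; it is zero if `(w i + w j + w l) % 61 ≠ c` (weight), and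
otherwise `tau = tb (ks [i,j,l] + 16383 κ y + κ a + κ b)` if `y ∈ [i,j,l]`, so
`ψ (mono k [i,j,l]) = ((v3 y a b (i + 32 j + 1024 l) : ℕ) : k)` (`cast_par`; the code has the
digits `i, j, l < 32`).  So the right side of EXP3 is the right side of ROW3 and
`ev 32768 f (row3 (LT c) y a b) = 0`.  ENG with `N = 32768`, `F = F3 (LT c)` gives
`f (i + 32 j + 1024 l) = 0` for the sorted triples of weight `c` (F3).  For `L` of length three and
weight `c`: `sorted3`, `fs_perm`, `ws_perm`. -/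
def StD3 : Prop := ∀ (k : Type u) [Field k], (2 : k) = 0 →
  ∀ Φ : MvPolynomial (Fin 30) k →ₗ[k] k, IsF k Φ → ∀ (c n : ℕ) (RT : List ℕ), c < 61 →
  RT.all (ok3 c) = true →
  subs (F3 (LT c)) (RT.map fun t => row3 (LT c) (t % 32) (t / 32 % 32) (t / 1024)) = true →
  elim (F3 (LT c)) n (RT.map fun t => row3 (LT c) (t % 32) (t / 32 % 32) (t / 1024)) 0 = true →
  P3 Φ c

/-- D12 (no dependence).  Degrees one and two.

PROOF.  Degree one: `s` is a combination of the `x_i`: `s = ∑_{i : Fin 30} c_i X i`,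
`c_i = coeff (single i 1) s` (e.g. from `mem_of_mono` applied to the span of the variables, or
`s.as_sum`).  The witness of `ck1` for `i`: `a, b, d < 30` with `tau [i, a, b, d] = 1`, so
`(w i + w a + w b + w d) % 61 = 0`.  `0 = Φ (s * mono k [a, b, d]) = ∑_j c_j tau [j, a, b, d]`, and
`tau [j, a, b, d] = 0` for `j ≠ i` (`w j = w i` would follow, `w1_inj`).  So `c_i = 0`.
Degree two: `∂_a s ∈ I` is homogeneous of degree one, so `∂_a s = 0` for all `a` by degree one.  For
`i ≠ j` the coefficient of `∂_i s` at `single j 1` is the coefficient of `s` at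
`single i 1 + single j 1` (`coeff_pderiv`-like lemma; or `pderiv_monomial` in `s.as_sum`), so it is
`0`, and `s = ∑_i c_i x_i²`.  The witness of `ck2`: `tau [i, i, a, b] = 1`;
`0 = Φ (s * mono k [a, b]) = ∑_j c_j tau [j, j, a, b]` and `tau [j, j, a, b] = 0` for `j ≠ i`
(`2 w j = 2 w i` modulo `61`, weights `< 61`, so `w j = w i`).  So `c_i = 0`. -/
def StD12 : Prop := ck1 = true → ck2 = true → ∀ (k : Type u) [Field k]
  (Φ : MvPolynomial (Fin 30) k →ₗ[k] k), IsF k Φ → P1 Φ ∧ P2 Φ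

/-- SEC (no dependence).  The criterion.

PROOF.  As the module `Pool/Agent/Helper49/RA/M_SEC.lean` (copy it): let `s ∈ I` with all
`pderiv i s ∈ I` (`i : Fin 30`, `i = Fin.ofNat 30 i.val`).  The components `s_d` are in `I`
(`Φ` vanishes in degrees `≠ 4`: `Φ (s_d t_{4-d}) = Φ (s t_{4-d})`), and `∂_i s_{d+1}` is the
component of degree `d` of `∂_i s`, so in `I`.  `d = 0`: `x_0 s_0 = 0` by `P1`.  `d = 1`: `P1`.
`d = 2`: `P2`.  `d = 3`: all coefficients of `s_3` vanish by `P3` (`eq_zero_of_coeff`), so `s_3 = 0`.  `d = 4`: if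
`s_4 ∉ I ^ 2` there is a functional `G` with `G s_4 ≠ 0`, `G = 0` on `I ^ 2`
(`Submodule.exists_le_ker_of_notMem`); `K4 Φ G`, so `H4` gives
`G s_4 = ∑ m a b Φ (x_b ∂_a s_4) + c Φ (s_4) = 0`.  `d = 5`: the same with `H5`.  `d = 6`: `P6`
and separation: `S_6 ⊆ I ^ 2`.  `d > 6`: induction with `Helper49.RA.StGen` (theorem
`Helper49.RA.gen` in `Pool/Agent/Helper49/RA/M_GEN.lean`). -/
def StSec : Prop := ∀ (k : Type u) [Field k] (Φ : MvPolynomial (Fin 30) k →ₗ[k] k), IsF k Φ →
  P1 Φ → P2 Φ → (∀ u < 61, P3 Φ u) → H4 Φ → H5 Φ → P6 Φ → SecondPower Φ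

end Helper94.RG2
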